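import Pool.Agent.W769.Iso.Volume

set_option autoImplicit false

open MeasureTheory Set Finset Topology Filter
open scoped ENNReal

namespace Pool.Agent.W769.Iso

open Pool.Agent.W769.Kak

variable {d : ℕ}

theorem clamp_lip (v0 : Fin d → ℝ) (R : ℝ) (v w : Fin d → ℝ) :
    ‖clamp v0 R v - clamp v0 R w‖ ≤ ‖v - w‖ := by
  rw [pi_norm_le_iff_of_nonneg (norm_nonneg _)]
  intro i
  have h1 : |v i - w i| ≤ ‖v - w‖ := norm_le_pi_norm (v - w) i
  refine le_trans ?_ h1
  simp only [Pi.sub_apply, clamp, Real.norm_eq_abs]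
  have h2 := abs_max_sub_max_le_abs (min (v i) (v0 i + R)) (min (w i) (v0 i + R)) (v0 i - R)
  have h3 := abs_min_sub_min_le_max (v i) (v0 i + R) (w i) (v0 i + R)
  rw [sub_self, abs_zero, max_eq_left (abs_nonneg _)] at h3
  rw [max_comm (v0 i - R), max_comm (v0 i - R)]
  exact h2.trans h3

/-- effect of the affine maps `(t, y) ↦ (t, r y + t v₀)` on the volume -/
theorem volume_affine {Z : Set (Fin (d + 1) → ℝ)} {r : ℝ} (hr : 0 < r)
    (v₀ : Fin d → ℝ) :
    volume {z : Fin (d + 1) → ℝ | (Fin.cons (z 0) (r • Fin.tail z + z 0 • v₀) : Fin (d + 1) → ℝ) ∈ Z}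
      ≤ ENNReal.ofReal ((r ^ d)⁻¹) * volume Z := by
  set Zm := toMeasurable volume Z with hZm
  have hm : MeasurableSet Zm := measurableSet_toMeasurable _ _
  have hvol : volume Zm = volume Z := measure_toMeasurable _
  set Λ : (Fin (d + 1) → ℝ) → (Fin (d + 1) → ℝ) :=
    fun z => Fin.cons (z 0) (r • Fin.tail z + z 0 • v₀) with hΛ
  have hΛc : Continuous Λ := by
    rw [continuous_pi_iff]
    intro i
    refine Fin.cases ?_ (fun j => ?_) i
    · simp only [hΛ, Fin.cons_zero]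
      exact continuous_apply 0
    · simp only [hΛ, Fin.cons_succ, Pi.add_apply, Pi.smul_apply, smul_eq_mul, Fin.tail]
      fun_prop
  have hm2 : MeasurableSet (Λ ⁻¹' Zm) := hΛc.measurable hm
  obtain ⟨_, hv1⟩ := volume_eq_slices hm2
  obtain ⟨_, hv2⟩ := volume_eq_slices hm
  have hsl : ∀ t : ℝ, volume {y : Fin d → ℝ | (Fin.cons t y : Fin (d + 1) → ℝ) ∈ Λ ⁻¹' Zm} =
      ENNReal.ofReal ((r ^ d)⁻¹) *
        volume {y : Fin d → ℝ | (Fin.cons t y : Fin (d + 1) → ℝ) ∈ Zm} := by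
    intro t
    have h1 : {y : Fin d → ℝ | (Fin.cons t y : Fin (d + 1) → ℝ) ∈ Λ ⁻¹' Zm} =
        (fun y => r • y) ⁻¹' ((fun y => y + t • v₀) ⁻¹'
          {y : Fin d → ℝ | (Fin.cons t y : Fin (d + 1) → ℝ) ∈ Zm}) := by
      ext y
      simp only [hΛ, Set.mem_preimage, Set.mem_ofPred_eq, Fin.cons_zero, Fin.tail_cons]
    rw [h1, Measure.addHaar_preimage_smul _ hr.ne', measure_preimage_add_right]
    congr 2
    simp only [Module.finrank_fintype_fun_eq_card, Fintype.card_fin]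
    rw [abs_of_pos (by positivity)]
  calc volume {z : Fin (d + 1) → ℝ | (Fin.cons (z 0) (r • Fin.tail z + z 0 • v₀) :
        Fin (d + 1) → ℝ) ∈ Z} ≤ volume (Λ ⁻¹' Zm) :=
        measure_mono fun z hz => subset_toMeasurable volume Z hz
    _ = ENNReal.ofReal ((r ^ d)⁻¹) * volume Zm := by
        rw [hv1, hv2, ← lintegral_const_mul' _ _ ENNReal.ofReal_ne_top]
        exact lintegral_congr hsl
    _ = ENNReal.ofReal ((r ^ d)⁻¹) * volume Z := by rw [hvol]

/-- **Volume, cubes of any size.** -/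
theorem volume_cube (hd : 2 ≤ d) {α : ℝ} (hα1 : α ≤ 1) (hγ : 0 < α * d - d + 1) :
    ∃ c : ℝ, 0 < c ∧ ∀ (H : ℝ) (v₀ : Fin d → ℝ) (r : ℝ) (a : (Fin d → ℝ) → Fin d → ℝ),
      0 ≤ H → 0 < r →
      (∀ v ∈ Metric.closedBall v₀ r, ∀ w ∈ Metric.closedBall v₀ r,
        ‖a v - a w‖ ≤ H * ‖v - w‖ ^ α) →
      ∀ Z : Set (Fin (d + 1) → ℝ), (∀ v ∈ Metric.closedBall v₀ r, ∀ t ∈ Icc (0 : ℝ) 1,
        (Fin.cons t (a v + t • v) : Fin (d + 1) → ℝ) ∈ Z) →
        ENNReal.ofReal (c * r ^ d *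
          (1 + H * r ^ (α - 1)) ^ (-((d : ℝ) * ((d : ℝ) - 1)) / (α * d - d + 1))) ≤ volume Z := by
  obtain ⟨c, hc, hmain⟩ := volume_quant hd hα1 hγ
  refine ⟨c, hc, ?_⟩
  intro H v₀ r a hH hr ha Z hZ
  set b : (Fin d → ℝ) → Fin d → ℝ := fun u => r⁻¹ • a (v₀ + r • clamp 0 1 u) with hb
  have hmem : ∀ u : Fin d → ℝ, u ∈ Metric.closedBall (0 : Fin d → ℝ) 1 →
      v₀ + r • u ∈ Metric.closedBall v₀ r := by
    intro u hu
    rw [Metric.mem_closedBall, dist_zero_right] at hu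
    rw [Metric.mem_closedBall, dist_eq_norm, add_sub_cancel_left, norm_smul, Real.norm_eq_abs,
      abs_of_pos hr]
    nlinarith
  have hbH : Hol b (H * r ^ (α - 1)) α := by
    intro u w
    have h1 := ha _ (hmem _ (clamp_mem 0 zero_le_one u)) _ (hmem _ (clamp_mem 0 zero_le_one w))
    have h2 : v₀ + r • clamp 0 1 u - (v₀ + r • clamp 0 1 w) = r • (clamp 0 1 u - clamp 0 1 w) := by
      rw [smul_sub]; abel
    rw [h2, norm_smul, Real.norm_eq_abs, abs_of_pos hr] at h1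
    have hα : 0 < α := by
      have hd2 : (2 : ℝ) ≤ d := by exact_mod_cast hd
      by_contra h
      push Not at h
      nlinarith
    have h3 := clamp_lip (0 : Fin d → ℝ) 1 u w
    calc ‖b u - b w‖ = r⁻¹ * ‖a (v₀ + r • clamp 0 1 u) - a (v₀ + r • clamp 0 1 w)‖ := by
          rw [hb]
          simp only
          rw [← smul_sub, norm_smul, norm_inv, Real.norm_eq_abs, abs_of_pos hr]
      _ ≤ r⁻¹ * (H * (r * ‖clamp 0 1 u - clamp 0 1 w‖) ^ α) := by gcongr
      _ ≤ r⁻¹ * (H * (r * ‖u - w‖) ^ α) := by gcongr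
      _ = H * r ^ (α - 1) * ‖u - w‖ ^ α := by
          rw [Real.mul_rpow hr.le (norm_nonneg _), Real.rpow_sub_one hr.ne']
          ring
  have h := hmain (H * r ^ (α - 1)) b (by positivity) hbH
    {z : Fin (d + 1) → ℝ | (Fin.cons (z 0) (r • Fin.tail z + z 0 • v₀) : Fin (d + 1) → ℝ) ∈ Z} (by
      intro u hu t ht
      simp only [Set.mem_ofPred_eq, Fin.cons_zero, Fin.tail_cons]
      have h1 : r • (b u + t • u) + t • v₀ = a (v₀ + r • u) + t • (v₀ + r • u) := by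
        rw [hb]
        simp only
        rw [clamp_eq 0 zero_le_one hu, smul_add, smul_smul, mul_inv_cancel₀ hr.ne', one_smul,
          smul_add, smul_smul, smul_smul, mul_comm r t]
        abel
      rw [h1]
      exact hZ _ (hmem u hu) t ht)
  have h2 := h.trans (volume_affine hr v₀)
  have h3 : ENNReal.ofReal (c * r ^ d *
          (1 + H * r ^ (α - 1)) ^ (-((d : ℝ) * ((d : ℝ) - 1)) / (α * d - d + 1))) =
      ENNReal.ofReal (r ^ d) * ENNReal.ofReal (c *
          (1 + H * r ^ (α - 1)) ^ (-((d : ℝ) * ((d : ℝ) - 1)) / (α * d - d + 1))) := by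
    rw [← ENNReal.ofReal_mul (by positivity)]
    congr 1; ring
  rw [h3]
  calc ENNReal.ofReal (r ^ d) * ENNReal.ofReal (c *
          (1 + H * r ^ (α - 1)) ^ (-((d : ℝ) * ((d : ℝ) - 1)) / (α * d - d + 1)))
      ≤ ENNReal.ofReal (r ^ d) * (ENNReal.ofReal ((r ^ d)⁻¹) * volume Z) := by gcongr
    _ = volume Z := by
        rw [← mul_assoc, ← ENNReal.ofReal_mul (by positivity), mul_inv_cancel₀ (by positivity),
          ENNReal.ofReal_one, one_mul]

end Pool.Agent.W769.Iso
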