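import Pool.Agent.W769.Iso.Dens
import Pool.Agent.W769.Iso.Cube

set_option autoImplicit false
set_option maxHeartbeats 1000000

open MeasureTheory Set Finset Topology Filter
open scoped ENNReal

namespace Pool.Agent.W769.Iso

open Pool.Agent.W769.Kak

variable {d : ℕ}

/-- **Density version**, unit cube, globally Lipschitz. -/
theorem volume_dens (hd : 2 ≤ d) :
    ∃ c : ℝ, 0 < c ∧ ∀ (L : ℝ) (a : (Fin d → ℝ) → Fin d → ℝ), 0 ≤ L → Hol a L 1 →
      ∀ E : Set (Fin (d + 1) → ℝ), MeasurableSet E →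
        ∫⁻ t in Icc (0 : ℝ) 1, volume {v ∈ Metric.closedBall (0 : Fin d → ℝ) 1 |
          (Fin.cons t (a v + t • v) : Fin (d + 1) → ℝ) ∉ E} ≤ ENNReal.ofReal (c * ((1 + L) ^ d)⁻¹) →
        ENNReal.ofReal (c * ((1 + L) ^ (d * (d - 1)))⁻¹) ≤ volume E := by
  obtain ⟨c1, c2, hc1, hc2, hmain⟩ := slices_dens hd
  have hdpos : (0 : ℝ) < d := by exact_mod_cast (show 0 < d by omega)
  set c : ℝ := min (c2 / (2 * (d + 1))) ((c1 / 2) ^ d / (2 * (d + 1))) with hc
  have hcp : 0 < c := lt_min (by positivity) (by positivity)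
  refine ⟨c, hcp, ?_⟩
  intro L a hL ha E hE hbad
  have hac := ha.continuous one_pos
  have hL1 : 0 < 1 + L := by linarith
  by_contra hcon
  rw [not_le] at hcon
  set X1 : ℝ := c * ((1 + L) ^ (d * (d - 1)))⁻¹ with hX1
  set X2 : ℝ := c * ((1 + L) ^ d)⁻¹ with hX2
  have hX1p : 0 < X1 := by positivity
  have hX2p : 0 < X2 := by positivity
  obtain ⟨hSm, hSv⟩ := volume_eq_slices hE
  set S1 : ℝ → ℝ≥0∞ := fun t => volume {y : Fin d → ℝ | (Fin.cons t y : Fin (d + 1) → ℝ) ∈ E}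
    with hS1
  set S2 : ℝ → ℝ≥0∞ := fun t => volume {v ∈ Metric.closedBall (0 : Fin d → ℝ) 1 |
          (Fin.cons t (a v + t • v) : Fin (d + 1) → ℝ) ∉ E} with hS2
  have hS2m : Measurable S2 := by
    have hc3 : Continuous (fun p : ℝ × (Fin d → ℝ) =>
        (Fin.cons p.1 (a p.2 + p.1 • p.2) : Fin (d + 1) → ℝ)) := by
      rw [continuous_pi_iff]
      intro i
      refine Fin.cases ?_ (fun j => ?_) i
      · simp only [Fin.cons_zero]
        exact continuous_fst
      · simp only [Fin.cons_succ, Pi.add_apply, Pi.smul_apply, smul_eq_mul]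
        fun_prop
    have hms : MeasurableSet ({p : ℝ × (Fin d → ℝ) | p.2 ∈ Metric.closedBall (0 : Fin d → ℝ) 1 ∧
        (Fin.cons p.1 (a p.2 + p.1 • p.2) : Fin (d + 1) → ℝ) ∉ E}) := by
      apply MeasurableSet.inter
      · exact measurable_snd Metric.isClosed_closedBall.measurableSet
      · exact (hc3.measurable hE).compl
    exact measurable_measure_prodMk_left hms
  set S : ℝ → ℝ≥0∞ := fun t => S1 t * (ENNReal.ofReal X1)⁻¹ + S2 t * (ENNReal.ofReal X2)⁻¹ with hS
  have hSmeas : Measurable S := (hSm.mul_const _).add (hS2m.mul_const _)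
  have hX1e : ENNReal.ofReal X1 ≠ 0 := by simpa using hX1p
  have hX2e : ENNReal.ofReal X2 ≠ 0 := by simpa using hX2p
  have hint : ∫⁻ t in Icc (0 : ℝ) 1, S t < 2 := by
    rw [hS, lintegral_add_left (hSm.mul_const _), lintegral_mul_const _ hSm,
      lintegral_mul_const _ hS2m]
    have h1 : (∫⁻ t in Icc (0 : ℝ) 1, S1 t) * (ENNReal.ofReal X1)⁻¹ < 1 := by
      have h2 : ∫⁻ t in Icc (0 : ℝ) 1, S1 t < ENNReal.ofReal X1 := by
        refine lt_of_le_of_lt (setLIntegral_le_lintegral _ _) ?_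
        rw [← hSv]; exact hcon
      rw [← div_eq_mul_inv]
      exact (ENNReal.div_lt_iff (Or.inl hX1e) (Or.inl ENNReal.ofReal_ne_top)).2
        (by rwa [one_mul])
    have h3 : (∫⁻ t in Icc (0 : ℝ) 1, S2 t) * (ENNReal.ofReal X2)⁻¹ ≤ 1 := by
      rw [← div_eq_mul_inv]
      exact (ENNReal.div_le_iff hX2e ENNReal.ofReal_ne_top).2 (by rwa [one_mul])
    calc _ < 1 + 1 := ENNReal.add_lt_add_of_lt_of_le (ne_top_of_le_ne_top ENNReal.one_ne_top h3)
          h1 h3
      _ = 2 := by norm_num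
  obtain ⟨s, hs, hsi⟩ := exists_heights d hSmeas hint
  obtain ⟨hI, hsp⟩ := heights_spacing d hs
  have hdd : ((d : ℝ≥0∞) + 1) * 2 = ENNReal.ofReal (2 * ((d : ℝ) + 1)) := by
    rw [ENNReal.ofReal_mul (by norm_num), ENNReal.ofReal_add (by positivity) zero_le_one,
      ENNReal.ofReal_natCast, ENNReal.ofReal_one, mul_comm]
    norm_num
  have hb1 : ∀ i : Fin (d + 1), S1 ((i : ℝ) * (1 / ((d : ℝ) + 1)) + s) <
      ENNReal.ofReal (2 * ((d : ℝ) + 1) * X1) := by
    intro i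
    have h1 : S1 ((i : ℝ) * (1 / ((d : ℝ) + 1)) + s) * (ENNReal.ofReal X1)⁻¹ <
        ENNReal.ofReal (2 * ((d : ℝ) + 1)) := by
      rw [← hdd]
      exact lt_of_le_of_lt (le_self_add) (hsi i)
    rw [← div_eq_mul_inv, ENNReal.div_lt_iff (Or.inl hX1e) (Or.inl ENNReal.ofReal_ne_top),
      ← ENNReal.ofReal_mul (by positivity)] at h1
    exact h1
  have hb2 : ∀ i : Fin (d + 1), S2 ((i : ℝ) * (1 / ((d : ℝ) + 1)) + s) <
      ENNReal.ofReal (2 * ((d : ℝ) + 1) * X2) := by
    intro i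
    have h1 : S2 ((i : ℝ) * (1 / ((d : ℝ) + 1)) + s) * (ENNReal.ofReal X2)⁻¹ <
        ENNReal.ofReal (2 * ((d : ℝ) + 1)) := by
      rw [← hdd]
      exact lt_of_le_of_lt (le_add_self) (hsi i)
    rw [← div_eq_mul_inv, ENNReal.div_lt_iff (Or.inl hX2e) (Or.inl ENNReal.ofReal_ne_top),
      ← ENNReal.ofReal_mul (by positivity)] at h1
    exact h1
  set R : ℝ := c1 / 2 * ((1 + L) ^ (d - 1))⁻¹ with hR
  have hRp : 0 < R := by positivity
  have hRd : 2 * ((d : ℝ) + 1) * X1 ≤ R ^ d := by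
    have h1 : R ^ d = (c1 / 2) ^ d * ((1 + L) ^ (d * (d - 1)))⁻¹ := by
      rw [hR, mul_pow, inv_pow, ← pow_mul, mul_comm (d - 1) d]
    have h2 : c ≤ (c1 / 2) ^ d / (2 * (d + 1)) := min_le_right _ _
    rw [h1, hX1]
    calc 2 * ((d : ℝ) + 1) * (c * ((1 + L) ^ (d * (d - 1)))⁻¹)
        ≤ 2 * ((d : ℝ) + 1) * ((c1 / 2) ^ d / (2 * (d + 1)) * ((1 + L) ^ (d * (d - 1)))⁻¹) := by
          gcongr
      _ = _ := by field_simp
  have hRd2 : 2 * ((d : ℝ) + 1) * X2 ≤ c2 * ((1 + L) ^ d)⁻¹ := by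
    have h2 : c ≤ c2 / (2 * (d + 1)) := min_le_left _ _
    rw [hX2]
    calc 2 * ((d : ℝ) + 1) * (c * ((1 + L) ^ d)⁻¹)
        ≤ 2 * ((d : ℝ) + 1) * (c2 / (2 * (d + 1)) * ((1 + L) ^ d)⁻¹) := by gcongr
      _ = _ := by field_simp
  have hslm : ∀ t : ℝ, MeasurableSet {y : Fin d → ℝ | (Fin.cons t y : Fin (d + 1) → ℝ) ∈ E} := by
    intro t
    have hc4 : Continuous (fun y : Fin d → ℝ => (Fin.cons t y : Fin (d + 1) → ℝ)) := by
      rw [continuous_pi_iff]
      intro i
      refine Fin.cases ?_ (fun j => ?_) i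
      · simp only [Fin.cons_zero]
        exact continuous_const
      · simp only [Fin.cons_succ]
        fun_prop
    exact hc4.measurable hE
  have hfin := hmain L a hL ha (fun i : Fin (d + 1) => (i : ℝ) * (1 / ((d : ℝ) + 1)) + s)
    (fun i => by
      have := hI i
      rw [abs_le]
      constructor <;> linarith [this.1, this.2]) hsp
    (fun i => {y : Fin d → ℝ | (Fin.cons ((i : ℝ) * (1 / ((d : ℝ) + 1)) + s) y :
      Fin (d + 1) → ℝ) ∈ E}) (fun i => hslm _) R hRp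
    (fun i => lt_of_lt_of_le (hb1 i) (ENNReal.ofReal_le_ofReal hRd))
    (fun i => lt_of_lt_of_le (hb2 i) (ENNReal.ofReal_le_ofReal hRd2))
  have hpos : 0 < c1 * ((1 + L) ^ (d - 1))⁻¹ := by positivity
  have : R = (1 / 2) * (c1 * ((1 + L) ^ (d - 1))⁻¹) := by rw [hR]; ring
  linarith

/-- the slanted `δ`-tube around the segment number `v` -/
def Tb (δ : ℝ) (a : (Fin d → ℝ) → Fin d → ℝ) (v : Fin d → ℝ) : Set (Fin (d + 1) → ℝ) :=
  {z | z 0 ∈ Icc (0 : ℝ) 1 ∧ ‖Fin.tail z - (a v + z 0 • v)‖ ≤ δ}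

/-- **Density version for tubes**. -/
theorem tube_dens (hd : 2 ≤ d) :
    ∃ c : ℝ, 0 < c ∧ ∀ (L δ : ℝ) (a : (Fin d → ℝ) → Fin d → ℝ), 0 ≤ L → 0 < δ →
      (∀ v ∈ Metric.closedBall (0 : Fin d → ℝ) 1, ∀ w ∈ Metric.closedBall (0 : Fin d → ℝ) 1,
        ‖a v - a w‖ ≤ L * ‖v - w‖) →
      ∀ E : Set (Fin (d + 1) → ℝ), MeasurableSet E →
        ∫⁻ v in Metric.closedBall (0 : Fin d → ℝ) 1, volume (Tb δ a v \ E) ≤
          ENNReal.ofReal (c * ((1 + L) ^ d)⁻¹ * (2 * δ) ^ d) →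
        ENNReal.ofReal (c * ((1 + L) ^ (d * (d - 1)))⁻¹) ≤ volume E := by
  obtain ⟨c0, hc0, hmain⟩ := volume_dens hd
  refine ⟨c0 / 2, by positivity, ?_⟩
  intro L δ a hL hδ hLip E hE hbad
  have hL1 : 0 < 1 + L := by linarith
  set Q := Metric.closedBall (0 : Fin d → ℝ) 1 with hQ
  have hQm : MeasurableSet Q := Metric.isClosed_closedBall.measurableSet
  set b : (Fin d → ℝ) → Fin d → ℝ := fun v => a (clamp 0 1 v) with hb
  have hbL : Hol b L 1 := by
    intro v w
    rw [Real.rpow_one]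
    have h1 := hLip _ (clamp_mem 0 zero_le_one v) _ (clamp_mem 0 zero_le_one w)
    have h2 := clamp_lip (0 : Fin d → ℝ) 1 v w
    calc ‖b v - b w‖ ≤ L * ‖clamp 0 1 v - clamp 0 1 w‖ := h1
      _ ≤ L * ‖v - w‖ := by gcongr
  have hbc := hbL.continuous one_pos
  have hba : ∀ v ∈ Q, b v = a v := fun v hv => by rw [hb]; simp only; rw [clamp_eq 0 zero_le_one hv]
  -- the indicator
  set φ : (Fin d → ℝ) → ℝ → (Fin d → ℝ) → ℝ≥0∞ := fun v t w =>
    (Eᶜ).indicator (fun _ => (1 : ℝ≥0∞)) (Fin.cons t (b v + t • v + w) : Fin (d + 1) → ℝ) with hφ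
  have hcons : Continuous (fun p : ((Fin d → ℝ) × ℝ) × (Fin d → ℝ) =>
      (Fin.cons p.1.2 (b p.1.1 + p.1.2 • p.1.1 + p.2) : Fin (d + 1) → ℝ)) := by
    rw [continuous_pi_iff]
    intro i
    refine Fin.cases ?_ (fun j => ?_) i
    · simp only [Fin.cons_zero]
      fun_prop
    · simp only [Fin.cons_succ, Pi.add_apply, Pi.smul_apply, smul_eq_mul]
      fun_prop
  have hφm : Measurable (fun p : ((Fin d → ℝ) × ℝ) × (Fin d → ℝ) => φ p.1.1 p.1.2 p.2) :=
    (measurable_const.indicator hE.compl).comp hcons.measurable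
  -- the volume of the missing part of a tube
  have htube : ∀ v ∈ Q, volume (Tb δ a v \ E) =
      ∫⁻ t in Icc (0 : ℝ) 1, ∫⁻ w in Metric.closedBall (0 : Fin d → ℝ) δ, φ v t w := by
    intro v hv
    have hTc : IsClosed (Tb δ a v) := by
      have h1 : Tb δ a v = {z : Fin (d + 1) → ℝ | z 0 ∈ Icc (0 : ℝ) 1} ∩
          {z : Fin (d + 1) → ℝ | ‖Fin.tail z - (a v + z 0 • v)‖ ≤ δ} := rfl
      rw [h1]
      apply IsClosed.inter
      · exact isClosed_Icc.preimage (continuous_apply 0)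
      · apply isClosed_le _ continuous_const
        apply Continuous.norm
        unfold Fin.tail
        fun_prop
    obtain ⟨_, h2⟩ := volume_eq_slices (hTc.measurableSet.diff hE)
    rw [h2, ← lintegral_indicator measurableSet_Icc]
    refine lintegral_congr fun t => ?_
    by_cases ht : t ∈ Icc (0 : ℝ) 1
    · rw [Set.indicator_of_mem ht]
      have h3 : {y : Fin d → ℝ | (Fin.cons t y : Fin (d + 1) → ℝ) ∈ Tb δ a v \ E} =
          (fun y => -(b v + t • v) + y) ⁻¹' {w ∈ Metric.closedBall (0 : Fin d → ℝ) δ |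
            (Fin.cons t (b v + t • v + w) : Fin (d + 1) → ℝ) ∉ E} := by
        ext y
        simp only [Tb, Set.mem_sdiff, Set.mem_ofPred_eq, Fin.cons_zero, Fin.tail_cons,
          Set.mem_preimage, Metric.mem_closedBall, dist_zero_right, hba v hv]
        have e1 : -(a v + t • v) + y = y - (a v + t • v) := by abel
        have e2 : a v + t • v + (y - (a v + t • v)) = y := by abel
        rw [e1, e2]
        exact ⟨fun h => ⟨h.1.2, h.2⟩, fun h => ⟨⟨ht, h.1⟩, h.2⟩⟩
      rw [h3, measure_preimage_add]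
      have hms : MeasurableSet {w : Fin d → ℝ |
          (Fin.cons t (b v + t • v + w) : Fin (d + 1) → ℝ) ∈ Eᶜ} :=
        (hcons.comp (by fun_prop : Continuous fun w : Fin d → ℝ => ((v, t), w))).measurable hE.compl
      have h4 : ∀ w, φ v t w = {w : Fin d → ℝ |
          (Fin.cons t (b v + t • v + w) : Fin (d + 1) → ℝ) ∈ Eᶜ}.indicator 1 w := fun w => rfl
      simp_rw [h4]
      rw [lintegral_indicator_one hms, Measure.restrict_apply hms, Set.inter_comm]
      rfl
    · rw [Set.indicator_of_notMem ht]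
      have h3 : {y : Fin d → ℝ | (Fin.cons t y : Fin (d + 1) → ℝ) ∈ Tb δ a v \ E} = ∅ := by
        ext y
        simp only [Tb, Set.mem_sdiff, Set.mem_ofPred_eq, Fin.cons_zero, Set.mem_empty_iff_false,
          iff_false]
        exact fun h => ht h.1.1
      rw [h3, measure_empty]
  set I : (Fin d → ℝ) → ℝ≥0∞ := fun w => ∫⁻ t in Icc (0 : ℝ) 1, ∫⁻ v in Q, φ v t w with hI
  have hswap : ∫⁻ v in Q, volume (Tb δ a v \ E) =
      ∫⁻ w in Metric.closedBall (0 : Fin d → ℝ) δ, I w := by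
    rw [setLIntegral_congr_fun hQm htube]
    calc ∫⁻ v in Q, ∫⁻ t in Icc (0 : ℝ) 1, ∫⁻ w in Metric.closedBall (0 : Fin d → ℝ) δ, φ v t w
        = ∫⁻ v in Q, ∫⁻ w in Metric.closedBall (0 : Fin d → ℝ) δ, ∫⁻ t in Icc (0 : ℝ) 1,
          φ v t w := by
          refine lintegral_congr fun v => ?_
          apply lintegral_lintegral_swap
          exact (hφm.comp (f := fun q : ℝ × (Fin d → ℝ) => ((v, q.1), q.2))
            (by apply Continuous.measurable; fun_prop)).aemeasurable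
      _ = ∫⁻ w in Metric.closedBall (0 : Fin d → ℝ) δ, ∫⁻ v in Q, ∫⁻ t in Icc (0 : ℝ) 1,
          φ v t w := by
          apply lintegral_lintegral_swap
          apply Measurable.aemeasurable
          have h3 : Measurable (fun p : ((Fin d → ℝ) × (Fin d → ℝ)) × ℝ =>
            φ p.1.1 p.2 p.1.2) :=
            hφm.comp (f := fun q : ((Fin d → ℝ) × (Fin d → ℝ)) × ℝ => ((q.1.1, q.2), q.1.2))
              (by apply Continuous.measurable; fun_prop)
          exact Measurable.lintegral_prod_right' h3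
      _ = _ := by
          refine lintegral_congr fun w => ?_
          apply lintegral_lintegral_swap
          exact (hφm.comp (f := fun q : (Fin d → ℝ) × ℝ => ((q.1, q.2), w))
            (by apply Continuous.measurable; fun_prop)).aemeasurable
  have hvolB : volume (Metric.closedBall (0 : Fin d → ℝ) δ) = ENNReal.ofReal ((2 * δ) ^ d) := by
    rw [Real.volume_pi_closedBall _ hδ.le, Fintype.card_fin]
  -- a good translate
  obtain ⟨w, hw, hwI⟩ : ∃ w ∈ Metric.closedBall (0 : Fin d → ℝ) δ,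
      I w ≤ ENNReal.ofReal (c0 * ((1 + L) ^ d)⁻¹) := by
    by_contra hcon
    push Not at hcon
    have h1 : ENNReal.ofReal (c0 * ((1 + L) ^ d)⁻¹) * ENNReal.ofReal ((2 * δ) ^ d) ≤
        ENNReal.ofReal (c0 / 2 * ((1 + L) ^ d)⁻¹ * (2 * δ) ^ d) := by
      calc ENNReal.ofReal (c0 * ((1 + L) ^ d)⁻¹) * ENNReal.ofReal ((2 * δ) ^ d)
          = ∫⁻ w in Metric.closedBall (0 : Fin d → ℝ) δ,
            ENNReal.ofReal (c0 * ((1 + L) ^ d)⁻¹) := by rw [setLIntegral_const, hvolB]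
        _ ≤ ∫⁻ w in Metric.closedBall (0 : Fin d → ℝ) δ, I w :=
            setLIntegral_mono' Metric.isClosed_closedBall.measurableSet fun w hw => (hcon w hw).le
        _ ≤ _ := by rw [← hswap]; exact hbad
    rw [← ENNReal.ofReal_mul (by positivity), ENNReal.ofReal_le_ofReal_iff (by positivity)] at h1
    have h2 : 0 < c0 * ((1 + L) ^ d)⁻¹ * (2 * δ) ^ d := by positivity
    nlinarith
  -- apply the previous theorem to the translated family
  have hfin := hmain L (fun v => b v + w) hL (fun v v' => by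
    have := hbL v v'
    simpa using this) E hE (by
    refine le_trans (le_of_eq ?_) hwI
    rw [hI]
    refine lintegral_congr fun t => ?_
    have hms : MeasurableSet {v : Fin d → ℝ |
        (Fin.cons t (b v + t • v + w) : Fin (d + 1) → ℝ) ∈ Eᶜ} :=
      (hcons.comp (by fun_prop : Continuous fun v : Fin d → ℝ => ((v, t), w))).measurable hE.compl
    have h4 : ∀ v, φ v t w = {v : Fin d → ℝ |
        (Fin.cons t (b v + t • v + w) : Fin (d + 1) → ℝ) ∈ Eᶜ}.indicator 1 v := fun v => rfl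
    simp_rw [h4]
    rw [lintegral_indicator_one hms, Measure.restrict_apply hms, Set.inter_comm]
    congr 1
    ext v
    simp only [Set.mem_ofPred_eq, Set.mem_inter_iff, Set.mem_compl_iff]
    have e1 : b v + w + t • v = b v + t • v + w := by abel
    rw [e1])
  refine le_trans (ENNReal.ofReal_le_ofReal ?_) hfin
  have : 0 < ((1 + L) ^ (d * (d - 1)))⁻¹ := by positivity
  nlinarith

end Pool.Agent.W769.Iso
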