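import Pool.Agent.W769.Iso.Tubes

set_option autoImplicit false

open MeasureTheory Set Finset Topology Filter
open scoped ENNReal InnerProductSpace

namespace Pool.Agent.W769.Iso

variable {d : ℕ}

/-- Euclidean space of dimension `d + 1` -/
abbrev Eu (d : ℕ) := EuclideanSpace ℝ (Fin (d + 1))

/-- the `δ`-tube of length one centred at `a` with direction `e` -/
def tube (δ : ℝ) (e a : Eu d) : Set (Eu d) :=
  {y | |⟪y - a, e⟫_ℝ| ≤ 1 / 2 ∧ ‖(y - a) - ⟪y - a, e⟫_ℝ • e‖ ≤ δ}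

theorem isClosed_tube (δ : ℝ) (e a : Eu d) : IsClosed (tube δ e a) := by
  have h1 : Continuous (fun y : Eu d => |⟪y - a, e⟫_ℝ|) := by fun_prop
  have h2 : Continuous (fun y : Eu d => ‖(y - a) - ⟪y - a, e⟫_ℝ • e‖) := by fun_prop
  exact (isClosed_le h1 continuous_const).inter (isClosed_le h2 continuous_const)

theorem norm_le_sum (x : Eu d) : ‖x‖ ≤ ∑ k, |x k| := by
  rw [EuclideanSpace.norm_eq]
  apply Real.sqrt_le_iff.2
  refine ⟨Finset.sum_nonneg fun _ _ => abs_nonneg _, ?_⟩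
  simp only [Real.norm_eq_abs]
  exact Finset.sum_sq_le_sq_sum_of_nonneg fun _ _ => abs_nonneg _

theorem coord_le (x : Eu d) (k : Fin (d + 1)) : |x k| ≤ ‖x‖ := PiLp.norm_apply_le x k

/-- the point `(s, y)` -/
noncomputable def mk (s : ℝ) (y : Fin d → ℝ) : Eu d := WithLp.toLp 2 (Fin.cons s y)

@[simp] theorem mk_zero (s : ℝ) (y : Fin d → ℝ) : mk s y 0 = s := rfl
@[simp] theorem mk_succ (s : ℝ) (y : Fin d → ℝ) (j : Fin d) : mk s y j.succ = y j := rfl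

theorem norm_mk_zero_le (y : Fin d → ℝ) : ‖mk 0 y‖ ≤ d * ‖y‖ := by
  refine (norm_le_sum _).trans ?_
  rw [Fin.sum_univ_succ]
  simp only [mk_zero, mk_succ, abs_zero, zero_add]
  calc ∑ j, |y j| ≤ ∑ _j : Fin d, ‖y‖ := Finset.sum_le_sum fun j _ => norm_le_pi_norm y j
    _ = d * ‖y‖ := by simp

theorem one_le_norm_mk (y : Fin d → ℝ) : 1 ≤ ‖mk 1 y‖ := by
  have := coord_le (mk 1 y) 0
  simpa using this

theorem mk_sub (s s' : ℝ) (y y' : Fin d → ℝ) : mk s y - mk s' y' = mk (s - s') (y - y') := by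
  ext k
  refine Fin.cases ?_ (fun j => ?_) k
  · simp
  · simp

/-- normalisation is Lipschitz -/
theorem norm_unit_sub_le {x y V W : Eu d} {s t : ℝ} (hx : x = s • V) (hy : y = t • W)
    (hs : 0 < s) (ht : 0 < t) (hxn : ‖x‖ = 1) (hyn : ‖y‖ = 1) (hV : 1 ≤ ‖V‖) :
    ‖x - y‖ ≤ 2 * ‖V - W‖ := by
  have h1 : s * ‖V‖ = 1 := by
    rw [← hxn, hx, norm_smul, Real.norm_of_nonneg hs.le]
  have h2 : t * ‖W‖ = 1 := by
    rw [← hyn, hy, norm_smul, Real.norm_of_nonneg ht.le]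
  have hs1 : s ≤ 1 := by nlinarith
  have h3 : x - y = s • (V - W) + (s - t) • W := by
    rw [hx, hy, smul_sub, sub_smul]; abel
  have h4 : |s - t| * ‖W‖ ≤ ‖V - W‖ := by
    have h5 : (s - t) * ‖W‖ = s * (‖W‖ - ‖V‖) := by linarith [h1, h2]
    have h6 : |s - t| * ‖W‖ = |s * (‖W‖ - ‖V‖)| := by
      rw [← h5, abs_mul, abs_norm]
    rw [h6, abs_mul, abs_of_pos hs]
    have h7 : |‖W‖ - ‖V‖| ≤ ‖V - W‖ := by
      rw [norm_sub_rev]
      exact abs_norm_sub_norm_le W V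
    have h8 := abs_nonneg (‖W‖ - ‖V‖)
    nlinarith
  calc ‖x - y‖ ≤ ‖s • (V - W)‖ + ‖(s - t) • W‖ := by rw [h3]; exact norm_add_le _ _
    _ = s * ‖V - W‖ + |s - t| * ‖W‖ := by
        rw [norm_smul, norm_smul, Real.norm_of_nonneg hs.le, Real.norm_eq_abs]
    _ ≤ 1 * ‖V - W‖ + ‖V - W‖ := by gcongr
    _ = _ := by ring

/-- the change of coordinates -/
noncomputable def Psi (A : Eu d ≃ₗᵢ[ℝ] Eu d) (c0 : Eu d) (z : Fin (d + 1) → ℝ) : Eu d :=
  c0 + A.symm (WithLp.toLp 2 ((1 / 4 : ℝ) • z + Pi.single 0 (-(1 / 8) : ℝ)))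

theorem A_Psi (A : Eu d ≃ₗᵢ[ℝ] Eu d) (c0 : Eu d) (z : Fin (d + 1) → ℝ) :
    A (Psi A c0 z - c0) = WithLp.toLp 2 ((1 / 4 : ℝ) • z + Pi.single 0 (-(1 / 8) : ℝ)) := by
  unfold Psi
  rw [add_sub_cancel_left, LinearIsometryEquiv.apply_symm_apply]

theorem volume_Psi (A : Eu d ≃ₗᵢ[ℝ] Eu d) (c0 : Eu d) {U : Set (Eu d)} (hU : MeasurableSet U) :
    volume (Psi A c0 ⁻¹' U) = ENNReal.ofReal (4 ^ (d + 1)) * volume U := by
  have h1 : Psi A c0 ⁻¹' U = (fun z => (1 / 4 : ℝ) • z) ⁻¹'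
      ((fun z => z + Pi.single 0 (-(1 / 8) : ℝ)) ⁻¹'
        ((WithLp.toLp 2) ⁻¹' (A.symm ⁻¹' ((fun y => c0 + y) ⁻¹' U)))) := rfl
  have hU1 : MeasurableSet ((fun y => c0 + y) ⁻¹' U) := (measurable_const_add c0) hU
  have hU2 : MeasurableSet (A.symm ⁻¹' ((fun y => c0 + y) ⁻¹' U)) :=
    A.symm.continuous.measurable hU1
  rw [h1, Measure.addHaar_preimage_smul _ (by norm_num), measure_preimage_add_right,
    (PiLp.volume_preserving_toLp (Fin (d + 1))).measure_preimage hU2.nullMeasurableSet,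
    A.symm.measurePreserving.measure_preimage hU1.nullMeasurableSet, measure_preimage_add]
  congr 2
  simp only [Module.finrank_fintype_fun_eq_card, Fintype.card_fin]
  rw [one_div, inv_pow, inv_inv, abs_of_pos (by positivity)]

/-- membership in a tube -/
theorem mem_tube (A : Eu d ≃ₗᵢ[ℝ] Eu d) {c0 e a : Eu d} (he : ‖e‖ = 1) {δ : ℝ} (hd : 1 ≤ d)
    (hδ : 0 < δ) (hδ1 : δ < 1) {v p q : Fin d → ℝ} {h x0 : ℝ} (hx0 : 49 / 50 ≤ x0)
    (hAe : A e = x0 • mk 1 v) (hAa : A (a - c0) = mk h p) (hh : |h| ≤ 1 / 25)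
    (hq : q = (4 : ℝ) • p - (1 / 2 + 4 * h) • v) {z : Fin (d + 1) → ℝ}
    (hz0 : z 0 ∈ Icc (0 : ℝ) 1) (hz : ‖Fin.tail z - (q + z 0 • v)‖ ≤ δ / d) :
    Psi A c0 z ∈ tube δ e a := by
  have hd0 : (0 : ℝ) < d := by exact_mod_cast (show 0 < d by omega)
  have hx0p : 0 < x0 := by linarith
  set τ : ℝ := z 0 / 4 - 1 / 8 - h with hτ
  set W : Eu d := Psi A c0 z - a - (τ / x0) • e with hW
  have hAW : A W = (1 / 4 : ℝ) • mk 0 (Fin.tail z - (q + z 0 • v)) := by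
    have h1 : W = (Psi A c0 z - c0) - (a - c0) - (τ / x0) • e := by rw [hW]; abel
    rw [h1, map_sub, map_sub, map_smul, A_Psi, hAa, hAe, smul_smul, div_mul_cancel₀ _ hx0p.ne']
    ext k
    refine Fin.cases ?_ (fun j => ?_) k
    · simp only [PiLp.sub_apply, PiLp.smul_apply, smul_eq_mul, mk_zero, Pi.add_apply,
        Pi.smul_apply, Pi.single_eq_same]
      rw [hτ]; ring
    · simp only [PiLp.sub_apply, PiLp.smul_apply, smul_eq_mul, mk_succ, Pi.add_apply,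
        Pi.smul_apply, Pi.sub_apply, hq, Fin.tail]
      rw [Pi.single_eq_of_ne (Fin.succ_ne_zero j), hτ]
      ring
  have hWn : ‖W‖ ≤ δ / 4 := by
    rw [← A.norm_map W, hAW, norm_smul]
    have h1 := norm_mk_zero_le (Fin.tail z - (q + z 0 • v))
    have h2 : (d : ℝ) * ‖Fin.tail z - (q + z 0 • v)‖ ≤ δ := by
      calc (d : ℝ) * ‖Fin.tail z - (q + z 0 • v)‖ ≤ d * (δ / d) := by gcongr
        _ = δ := by field_simp
    rw [Real.norm_of_nonneg (by norm_num : (0:ℝ) ≤ 1 / 4)]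
    linarith
  have hy : Psi A c0 z - a = (τ / x0) • e + W := by rw [hW]; abel
  have hWe : |⟪W, e⟫_ℝ| ≤ δ / 4 := by
    have := abs_real_inner_le_norm W e
    rw [he, mul_one] at this
    linarith
  have hin : ⟪Psi A c0 z - a, e⟫_ℝ = τ / x0 + ⟪W, e⟫_ℝ := by
    rw [hy, inner_add_left, real_inner_smul_left, real_inner_self_eq_norm_sq, he]
    ring
  have hτx : |τ / x0| ≤ 1 / 5 := by
    rw [abs_div, abs_of_pos hx0p, div_le_iff₀ hx0p]
    have h1 : |τ| ≤ 1 / 8 + 1 / 25 := by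
      rw [hτ]
      rw [abs_le] at hh ⊢
      constructor <;> linarith [hz0.1, hz0.2, hh.1, hh.2]
    linarith
  constructor
  · rw [hin]
    have := abs_add_le (τ / x0) ⟪W, e⟫_ℝ
    linarith
  · rw [hin, hy]
    have h1 : (τ / x0) • e + W - (τ / x0 + ⟪W, e⟫_ℝ) • e = W - ⟪W, e⟫_ℝ • e := by
      rw [add_smul]; abel
    rw [h1]
    calc ‖W - ⟪W, e⟫_ℝ • e‖ ≤ ‖W‖ + ‖⟪W, e⟫_ℝ • e‖ := norm_sub_le _ _
      _ = ‖W‖ + |⟪W, e⟫_ℝ| := by rw [norm_smul, he, mul_one, Real.norm_eq_abs]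
      _ ≤ δ := by linarith

theorem exists_rot (e₀ : Eu d) (he : ‖e₀‖ = 1) : ∃ A : Eu d ≃ₗᵢ[ℝ] Eu d, A e₀ = mk 1 0 := by
  have h1 : ‖(mk 1 0 : Eu d)‖ = 1 := by
    have h2 : (mk 1 0 : Eu d) = EuclideanSpace.single 0 1 := by
      ext k
      refine Fin.cases ?_ (fun j => ?_) k
      · simp
      · simp [Fin.succ_ne_zero]
    rw [h2]; simp
  exact ⟨_, Submodule.reflection_sub (he.trans h1.symm)⟩

/-- a ball inside a tube -/
theorem volume_tube_ge {δ : ℝ} (hδ : 0 < δ) (hδ1 : δ < 1) {e a : Eu d} (he : ‖e‖ = 1) :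
    ENNReal.ofReal ((δ / 2) ^ (d + 1) *
      (√Real.pi ^ (d + 1) / Real.Gamma (((d + 1 : ℕ) : ℝ) / 2 + 1))) ≤ volume (tube δ e a) := by
  have h1 : Metric.closedBall a (δ / 2) ⊆ tube δ e a := by
    intro y hy
    rw [Metric.mem_closedBall, dist_eq_norm] at hy
    have h2 : |⟪y - a, e⟫_ℝ| ≤ δ / 2 := by
      have := abs_real_inner_le_norm (y - a) e
      rw [he, mul_one] at this
      linarith
    refine ⟨by linarith, ?_⟩
    calc ‖(y - a) - ⟪y - a, e⟫_ℝ • e‖ ≤ ‖y - a‖ + ‖⟪y - a, e⟫_ℝ • e‖ := norm_sub_le _ _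
      _ = ‖y - a‖ + |⟪y - a, e⟫_ℝ| := by rw [norm_smul, he, mul_one, Real.norm_eq_abs]
      _ ≤ δ := by linarith
  refine le_trans (le_of_eq ?_) (measure_mono h1)
  rw [EuclideanSpace.volume_closedBall, Fintype.card_fin, ENNReal.ofReal_mul (by positivity),
    ENNReal.ofReal_pow (by positivity)]

end Pool.Agent.W769.Iso
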