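import Pool.Agent.W769.Iso.Cube

set_option autoImplicit false

open MeasureTheory Set Finset Topology Filter
open scoped ENNReal

namespace Pool.Agent.W769.Iso

open Pool.Agent.W769.Kak

variable {d : ℕ}

/-- enlarging balls costs a constant factor -/
theorem enlarge {ι : Type} [Fintype ι] (p : ι → Fin d → ℝ) {δ M : ℝ} (hδ : 0 < δ) (hM : 0 ≤ M) :
    volume (⋃ i, Metric.closedBall (p i) (M * δ)) ≤
      ENNReal.ofReal ((M + 5) ^ d) * volume (⋃ i, Metric.closedBall (p i) δ) := by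
  classical
  obtain ⟨u, -, hdisj, hcov⟩ := Vitali.exists_disjoint_subfamily_covering_enlargement_closedBall
    (Set.univ : Set ι) p (fun _ => δ) δ (fun _ _ => le_rfl) 5 (by norm_num)
  set s : Finset ι := u.toFinset with hs
  have h1 : (⋃ i, Metric.closedBall (p i) (M * δ)) ⊆
      ⋃ b ∈ s, Metric.closedBall (p b) ((M + 5) * δ) := by
    intro y hy
    rw [Set.mem_iUnion] at hy
    obtain ⟨i, hi⟩ := hy
    obtain ⟨b, hb, hsub⟩ := hcov i (Set.mem_univ i)
    have h2 : p i ∈ Metric.closedBall (p b) (5 * δ) := hsub (Metric.mem_closedBall_self hδ.le)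
    refine Set.mem_iUnion₂.2 ⟨b, by rw [hs]; simpa using hb, ?_⟩
    rw [Metric.mem_closedBall] at hi h2 ⊢
    calc dist y (p b) ≤ dist y (p i) + dist (p i) (p b) := dist_triangle _ _ _
      _ ≤ M * δ + 5 * δ := add_le_add hi h2
      _ = (M + 5) * δ := by ring
  have h3 : ∀ b, volume (Metric.closedBall (p b) ((M + 5) * δ)) =
      ENNReal.ofReal ((M + 5) ^ d) * volume (Metric.closedBall (p b) δ) := by
    intro b
    rw [Real.volume_pi_closedBall _ (by positivity), Real.volume_pi_closedBall _ hδ.le,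
      Fintype.card_fin, ← ENNReal.ofReal_mul (by positivity), ← mul_pow]
    congr 2; ring
  calc volume (⋃ i, Metric.closedBall (p i) (M * δ))
      ≤ volume (⋃ b ∈ s, Metric.closedBall (p b) ((M + 5) * δ)) := measure_mono h1
    _ ≤ ∑ b ∈ s, volume (Metric.closedBall (p b) ((M + 5) * δ)) := measure_biUnion_finset_le _ _
    _ = ENNReal.ofReal ((M + 5) ^ d) * ∑ b ∈ s, volume (Metric.closedBall (p b) δ) := by
        simp_rw [h3, Finset.mul_sum]
    _ = ENNReal.ofReal ((M + 5) ^ d) * volume (⋃ b ∈ s, Metric.closedBall (p b) δ) := by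
        rw [measure_biUnion_finset]
        · intro a ha b hb hab
          apply hdisj _ _ hab
          · simpa [hs] using ha
          · simpa [hs] using hb
        · intro b _
          exact Metric.isClosed_closedBall.measurableSet
    _ ≤ _ := mul_le_mul' le_rfl (measure_mono (Set.iUnion₂_subset fun b _ =>
        Set.subset_iUnion (fun i => Metric.closedBall (p i) δ) b))

/-- the union of the (slanted) graph tubes -/
def GT {ι : Type} (δ : ℝ) (v q : ι → Fin d → ℝ) : Set (Fin (d + 1) → ℝ) :=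
  {z | z 0 ∈ Icc (0 : ℝ) 1 ∧ ∃ i, ‖Fin.tail z - (q i + z 0 • v i)‖ ≤ δ}

theorem GT_closed {ι : Type} [Fintype ι] (δ : ℝ) (v q : ι → Fin d → ℝ) :
    IsClosed (GT δ v q) := by
  have h1 : GT δ v q = {z : Fin (d + 1) → ℝ | z 0 ∈ Icc (0 : ℝ) 1} ∩
      ⋃ i, {z : Fin (d + 1) → ℝ | ‖Fin.tail z - (q i + z 0 • v i)‖ ≤ δ} := by
    ext z
    simp [GT]
  rw [h1]
  apply IsClosed.inter
  · exact isClosed_Icc.preimage (continuous_apply 0)
  · apply isClosed_iUnion_of_finite
    intro i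
    apply isClosed_le _ continuous_const
    apply Continuous.norm
    unfold Fin.tail
    fun_prop

theorem GT_slice {ι : Type} (δ : ℝ) (v q : ι → Fin d → ℝ) {t : ℝ} (ht : t ∈ Icc (0 : ℝ) 1) :
    {y : Fin d → ℝ | (Fin.cons t y : Fin (d + 1) → ℝ) ∈ GT δ v q} =
      ⋃ i, Metric.closedBall (q i + t • v i) δ := by
  ext y
  simp only [GT, Set.mem_ofPred_eq, Fin.cons_zero, Fin.tail_cons, Set.mem_iUnion,
    Metric.mem_closedBall, dist_eq_norm]
  exact ⟨fun h => h.2, fun h => ⟨ht, h⟩⟩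

theorem GT_slice' {ι : Type} (δ : ℝ) (v q : ι → Fin d → ℝ) {t : ℝ} (ht : t ∉ Icc (0 : ℝ) 1) :
    {y : Fin d → ℝ | (Fin.cons t y : Fin (d + 1) → ℝ) ∈ GT δ v q} = ∅ := by
  ext y
  simp only [GT, Set.mem_ofPred_eq, Fin.cons_zero, Set.mem_empty_iff_false, iff_false]
  exact fun h => ht h.1

theorem volume_GT_le {ι : Type} [Fintype ι] {δ M : ℝ} (hδ : 0 < δ) (hM : 0 ≤ M)
    (v q : ι → Fin d → ℝ) :
    volume (GT (M * δ) v q) ≤ ENNReal.ofReal ((M + 5) ^ d) * volume (GT δ v q) := by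
  obtain ⟨_, h1⟩ := volume_eq_slices (GT_closed (M * δ) v q).measurableSet
  obtain ⟨_, h2⟩ := volume_eq_slices (GT_closed δ v q).measurableSet
  rw [h1, h2, ← lintegral_const_mul' _ _ ENNReal.ofReal_ne_top]
  refine lintegral_mono fun t => ?_
  by_cases ht : t ∈ Icc (0 : ℝ) 1
  · simp only [GT_slice _ v q ht]
    exact enlarge _ hδ hM
  · simp only [GT_slice' _ v q ht]
    simp

/-- McShane extension of a coarsely Lipschitz map -/
theorem mcshane {ι : Type} [Nonempty ι] (v : ι → Fin d → ℝ) (f : ι → ℝ) {L s : ℝ} (hL : 0 ≤ L)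
    (h : ∀ i j, |f i - f j| ≤ L * (‖v i - v j‖ + s)) :
    ∃ b : (Fin d → ℝ) → ℝ, (∀ x y, |b x - b y| ≤ L * ‖x - y‖) ∧ ∀ i, |b (v i) - f i| ≤ L * s := by
  set b : (Fin d → ℝ) → ℝ := fun x => ⨅ i, (f i + L * ‖x - v i‖) with hb
  have hbdd : ∀ x, BddBelow (Set.range fun i => f i + L * ‖x - v i‖) := by
    intro x
    obtain ⟨i0⟩ := (inferInstance : Nonempty ι)
    refine ⟨f i0 - L * s - L * ‖x - v i0‖, ?_⟩
    rintro _ ⟨i, rfl⟩
    have h1 := (abs_le.1 (h i i0)).1
    have h2 : ‖v i - v i0‖ ≤ ‖x - v i‖ + ‖x - v i0‖ := by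
      have : v i - v i0 = (x - v i0) - (x - v i) := by abel
      rw [this]
      linarith [norm_sub_le (x - v i0) (x - v i)]
    have h3 : L * ‖v i - v i0‖ ≤ L * (‖x - v i‖ + ‖x - v i0‖) := by gcongr
    simp only
    linarith
  refine ⟨b, ?_, ?_⟩
  · have hone : ∀ x y, b x - b y ≤ L * ‖x - y‖ := by
      intro x y
      have h1 : b x - L * ‖x - y‖ ≤ b y := by
        apply le_ciInf
        intro i
        have h2 : b x ≤ f i + L * ‖x - v i‖ := ciInf_le (hbdd x) i
        have h3 : ‖x - v i‖ ≤ ‖x - y‖ + ‖y - v i‖ := by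
          have : x - v i = (x - y) + (y - v i) := by abel
          rw [this]
          exact norm_add_le _ _
        have h4 : L * ‖x - v i‖ ≤ L * (‖x - y‖ + ‖y - v i‖) := by gcongr
        linarith
      linarith
    intro x y
    rw [abs_le]
    constructor
    · have := hone y x
      rw [norm_sub_rev] at this
      linarith
    · exact hone x y
  · intro i
    rw [abs_le]
    constructor
    · have h1 : f i - L * s ≤ b (v i) := by
        apply le_ciInf
        intro j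
        have := (abs_le.1 (h i j)).2
        linarith
      linarith
    · have h1 : b (v i) ≤ f i + L * ‖v i - v i‖ := ciInf_le (hbdd _) i
      rw [sub_self, norm_zero, mul_zero, add_zero] at h1
      have h2 := (abs_le.1 (h i i)).2
      rw [sub_self, sub_self, norm_zero, zero_add] at h2
      linarith

/-- **Union of graph tubes with coarsely Lipschitz positions.** -/
theorem graph_tubes (hd : 2 ≤ d) : ∃ c : ℝ, 0 < c ∧ ∀ (ι : Type) [Fintype ι]
    (v₀ : Fin d → ℝ) (r L K δ : ℝ) (v q : ι → Fin d → ℝ), 0 < r → 0 ≤ L → 1 ≤ K → 0 < δ →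
    (∀ w ∈ Metric.closedBall v₀ r, ∃ i, ‖w - v i‖ ≤ K * δ) →
    (∀ i j, ‖q i - q j‖ ≤ L * (‖v i - v j‖ + K * δ)) →
    ENNReal.ofReal (c * r ^ d * (K ^ d)⁻¹ * ((1 + L) ^ (d * d))⁻¹) ≤ volume (GT δ v q) := by
  have hγ : 0 < (1 : ℝ) * d - d + 1 := by linarith
  obtain ⟨c, hc, hmain⟩ := volume_cube hd le_rfl hγ
  refine ⟨c * (7 ^ d)⁻¹, by positivity, ?_⟩
  intro ι _ v₀ r L K δ v q hr hL hK hδ hnet hlip
  have hne : Nonempty ι := by
    obtain ⟨i, _⟩ := hnet v₀ (Metric.mem_closedBall_self hr.le)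
    exact ⟨i⟩
  have hK0 : 0 ≤ K := by linarith
  have hb : ∀ k : Fin d, ∃ b : (Fin d → ℝ) → ℝ, (∀ x y, |b x - b y| ≤ L * ‖x - y‖) ∧
      ∀ i, |b (v i) - q i k| ≤ L * (K * δ) := by
    intro k
    apply mcshane v (fun i => q i k) hL
    intro i j
    exact (norm_le_pi_norm (q i - q j) k).trans (hlip i j)
  choose b hb1 hb2 using hb
  have hseg : ∀ w ∈ Metric.closedBall v₀ r, ∀ t ∈ Icc (0 : ℝ) 1,
      (Fin.cons t ((fun x k => b k x) w + t • w) : Fin (d + 1) → ℝ) ∈
        GT ((K * (2 * L + 1)) * δ) v q := by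
    intro w hw t ht
    obtain ⟨i, hi⟩ := hnet w hw
    refine ⟨by simpa using ht, i, ?_⟩
    rw [Fin.tail_cons, Fin.cons_zero, pi_norm_le_iff_of_nonneg (by positivity)]
    intro k
    simp only [Pi.sub_apply, Pi.add_apply, Pi.smul_apply, smul_eq_mul, Real.norm_eq_abs]
    have h1 := (hb1 k w (v i)).trans (mul_le_mul_of_nonneg_left hi hL)
    have h2 := hb2 k i
    have h3 : |w k - v i k| ≤ K * δ := (norm_le_pi_norm (w - v i) k).trans hi
    have h4 : |t * (w k - v i k)| ≤ K * δ := by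
      rw [abs_mul, abs_of_nonneg ht.1]
      have := abs_nonneg (w k - v i k)
      nlinarith [ht.2]
    have h5 : b k w + t * w k - (q i k + t * v i k) =
        (b k w - b k (v i)) + (b k (v i) - q i k) + t * (w k - v i k) := by ring
    rw [h5]
    calc |(b k w - b k (v i)) + (b k (v i) - q i k) + t * (w k - v i k)|
        ≤ |b k w - b k (v i)| + |b k (v i) - q i k| + |t * (w k - v i k)| := abs_add_three _ _ _
      _ ≤ L * (K * δ) + L * (K * δ) + K * δ := by gcongr
      _ = K * (2 * L + 1) * δ := by ring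
  have h := hmain L v₀ r (fun x k => b k x) hL hr (fun x _ y _ => by
    rw [Real.rpow_one, pi_norm_le_iff_of_nonneg (by positivity)]
    intro k
    exact hb1 k x y) (GT ((K * (2 * L + 1)) * δ) v q) hseg
  have h6 := h.trans (volume_GT_le hδ (by positivity) v q)
  have hM : (K * (2 * L + 1) + 5) ^ d ≤ (7 * K * (1 + L)) ^ d := by
    apply pow_le_pow_left₀ (by positivity)
    nlinarith
  have hA : (0 : ℝ) < (7 * K * (1 + L)) ^ d := by positivity
  have h7 : ENNReal.ofReal (c * r ^ d *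
      (1 + L * r ^ ((1 : ℝ) - 1)) ^ (-((d : ℝ) * ((d : ℝ) - 1)) / (1 * d - d + 1))) ≤
      ENNReal.ofReal ((7 * K * (1 + L)) ^ d) * volume (GT δ v q) := by
    refine h6.trans ?_
    gcongr
  have h8 : (1 + L * r ^ ((1 : ℝ) - 1)) ^ (-((d : ℝ) * ((d : ℝ) - 1)) / (1 * d - d + 1)) =
      ((1 + L) ^ (d * (d - 1)))⁻¹ := by
    rw [sub_self, Real.rpow_zero, mul_one]
    have h9 : -((d : ℝ) * ((d : ℝ) - 1)) / (1 * d - d + 1) = -((d * (d - 1) : ℕ) : ℝ) := by
      rw [Nat.cast_mul, Nat.cast_sub (by omega), Nat.cast_one]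
      field_simp
      ring
    rw [h9, Real.rpow_neg (by positivity), Real.rpow_natCast]
  rw [h8] at h7
  have h10 : c * (7 ^ d)⁻¹ * r ^ d * (K ^ d)⁻¹ * ((1 + L) ^ (d * d))⁻¹ =
      ((7 * K * (1 + L)) ^ d)⁻¹ * (c * r ^ d * ((1 + L) ^ (d * (d - 1)))⁻¹) := by
    have h11 : (1 + L) ^ (d * d) = (1 + L) ^ (d * (d - 1)) * (1 + L) ^ d := by
      rw [← pow_add]
      congr 1
      have : d * d = d * (d - 1 + 1) := by rw [Nat.sub_add_cancel (by omega)]
      rw [this]; ring
    rw [h11, mul_pow, mul_pow]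
    field_simp
  rw [h10, ENNReal.ofReal_mul (by positivity)]
  calc ENNReal.ofReal ((7 * K * (1 + L)) ^ d)⁻¹ *
        ENNReal.ofReal (c * r ^ d * ((1 + L) ^ (d * (d - 1)))⁻¹)
      ≤ ENNReal.ofReal ((7 * K * (1 + L)) ^ d)⁻¹ *
        (ENNReal.ofReal ((7 * K * (1 + L)) ^ d) * volume (GT δ v q)) := by gcongr
    _ = volume (GT δ v q) := by
        rw [← mul_assoc, ← ENNReal.ofReal_mul (by positivity), inv_mul_cancel₀ hA.ne',
          ENNReal.ofReal_one, one_mul]

end Pool.Agent.W769.Iso
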