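import Pool.Agent.W769.Iso.Volume

set_option autoImplicit false
set_option maxHeartbeats 1000000

open MeasureTheory Set Finset Topology Filter
open scoped ENNReal

namespace Pool.Agent.W769.Iso

open Pool.Agent.W769.Kak

variable {d : ℕ}

theorem abs_det_le (A : Matrix (Fin d) (Fin d) ℝ) {m : ℝ} (hA : ∀ i k, |A i k| ≤ m) :
    |A.det| ≤ (d.factorial : ℝ) * m ^ d := by
  rw [Matrix.det_apply']
  calc |∑ σ : Equiv.Perm (Fin d), ((Equiv.Perm.sign σ : ℤ) : ℝ) * ∏ i, A (σ i) i|
      ≤ ∑ σ : Equiv.Perm (Fin d), |((Equiv.Perm.sign σ : ℤ) : ℝ) * ∏ i, A (σ i) i| :=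
        Finset.abs_sum_le_sum_abs _ _
    _ ≤ ∑ σ : Equiv.Perm (Fin d), m ^ d := by
        refine Finset.sum_le_sum fun σ _ => ?_
        rw [abs_mul]
        have hs : |((Equiv.Perm.sign σ : ℤ) : ℝ)| = 1 := by
          rcases Int.units_eq_one_or (Equiv.Perm.sign σ) with h | h <;> simp [h]
        rw [hs, one_mul, Finset.abs_prod]
        calc ∏ x, |A (σ x) x| ≤ ∏ _x : Fin d, m :=
              Finset.prod_le_prod (fun _ _ => abs_nonneg _) fun i _ => hA _ _
          _ = m ^ d := by simp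
    _ = (d.factorial : ℝ) * m ^ d := by
        rw [Finset.sum_const, Finset.card_univ, Fintype.card_perm, Fintype.card_fin, nsmul_eq_mul]

/-- inner regularity for images -/
theorem exists_compact_image {F : (Fin d → ℝ) → Fin d → ℝ} (hF : Continuous F)
    {E : Set (Fin d → ℝ)} (hE : MeasurableSet E) {b : ℝ≥0∞}
    (hb : volume {v ∈ Metric.closedBall (0 : Fin d → ℝ) 1 | F v ∉ E} < b) :
    ∃ C ⊆ E, IsCompact C ∧ volume {v ∈ Metric.closedBall (0 : Fin d → ℝ) 1 | F v ∉ C} < b := by
  set Q := Metric.closedBall (0 : Fin d → ℝ) 1 with hQ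
  have hQm : MeasurableSet Q := Metric.isClosed_closedBall.measurableSet
  have hQf : volume Q ≠ ⊤ := (isCompact_closedBall _ _).measure_lt_top.ne
  have : IsFiniteMeasure (volume.restrict Q) := ⟨by
    rw [Measure.restrict_apply_univ]; exact hQf.lt_top⟩
  set μ := Measure.map F (volume.restrict Q) with hμ
  have hμf : IsFiniteMeasure μ := by
    rw [hμ]; exact Measure.isFiniteMeasure_map _ _
  have hpos : b - volume {v ∈ Q | F v ∉ E} ≠ 0 := by
    rw [Ne, tsub_eq_zero_iff_le, not_le]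
    exact hb
  obtain ⟨C, hCE, hC, hCμ⟩ := hE.exists_isCompact_sdiff_lt (μ := μ) (measure_ne_top μ E) hpos
  refine ⟨C, hCE, hC, ?_⟩
  have hbad : volume {v ∈ Q | F v ∉ E} ≠ ⊤ :=
    ne_top_of_le_ne_top hQf (measure_mono fun v hv => hv.1)
  have h1 : {v ∈ Q | F v ∉ C} ⊆ {v ∈ Q | F v ∉ E} ∪ {v ∈ Q | F v ∈ E \ C} := by
    intro v hv
    by_cases h : F v ∈ E
    · exact Or.inr ⟨hv.1, h, hv.2⟩
    · exact Or.inl ⟨hv.1, h⟩
  have h2 : volume {v ∈ Q | F v ∈ E \ C} = μ (E \ C) := by
    rw [hμ, Measure.map_apply hF.measurable (hE.diff hC.measurableSet),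
      Measure.restrict_apply (hF.measurable (hE.diff hC.measurableSet)), Set.inter_comm]
    rfl
  calc volume {v ∈ Q | F v ∉ C} ≤ volume {v ∈ Q | F v ∉ E} + volume {v ∈ Q | F v ∈ E \ C} :=
        (measure_mono h1).trans (measure_union_le _ _)
    _ < volume {v ∈ Q | F v ∉ E} + (b - volume {v ∈ Q | F v ∉ E}) := by
        rw [h2]
        exact ENNReal.add_lt_add_left hbad hCμ
    _ = b := add_tsub_cancel_of_le hb.le

theorem slices_dens (hd : 2 ≤ d) :
    ∃ c1 c2 : ℝ, 0 < c1 ∧ 0 < c2 ∧ ∀ (L : ℝ) (a : (Fin d → ℝ) → Fin d → ℝ), 0 ≤ L → Hol a L 1 →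
      ∀ t : Fin (d + 1) → ℝ, (∀ i, |t i| ≤ 1) →
        (∀ i j, i ≠ j → 1 / ((d : ℝ) + 1) ≤ |t i - t j|) →
        ∀ E : Fin (d + 1) → Set (Fin d → ℝ), (∀ i, MeasurableSet (E i)) →
        ∀ R : ℝ, 0 < R → (∀ i, volume (E i) < ENNReal.ofReal (R ^ d)) →
        (∀ i, volume {v ∈ Metric.closedBall (0 : Fin d → ℝ) 1 | a v + t i • v ∉ E i} <
          ENNReal.ofReal (c2 * ((1 + L) ^ d)⁻¹)) →
        c1 * ((1 + L) ^ (d - 1))⁻¹ ≤ R := by
  have hdpos : (0 : ℝ) < d := by exact_mod_cast (show 0 < d by omega)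
  obtain ⟨κ, M, hκ⟩ := exists_kernel d
  have hM : 0 ≤ M := (abs_nonneg _).trans (hκ.bound 0)
  obtain ⟨N, hN0, hN⟩ := exists_N d
  set I0 := ∫ v, bump d v with hI0
  have hI0p : 0 < I0 := integral_bump_pos d
  set W : ℝ := ((d : ℝ) + 1) * ((d : ℝ) + 1) ^ d with hW
  have hWp : 0 < W := by positivity
  set M1 : ℝ := M * 2 ^ d + 1 with hM1
  have hM1p : 0 < M1 := by positivity
  have hf0 : (0 : ℝ) < d.factorial := by exact_mod_cast d.factorial_pos
  set A1 : ℝ := W * (2 * (d * (d.factorial * ((N + 1) * M1 ^ (d - 1))))) with hA1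
  have hA1p : 0 < A1 := by positivity
  set A2 : ℝ := W * (2 * (d.factorial * M1 ^ d)) with hA2
  have hA2p : 0 < A2 := by positivity
  refine ⟨I0 / (2 * A1), I0 / (2 * A2), by positivity, by positivity, ?_⟩
  intro L a hL ha t ht ht2 E hE R hR hvol hbad
  have hac := ha.continuous one_pos
  have hL1 : 0 < 1 + L := by linarith
  set B := M * (2 ^ d * L) + 1 with hB
  have hBp : 0 < B := by positivity
  have hBM : B ≤ M1 * (1 + L) := by
    rw [hB, hM1]
    have : 0 ≤ M * 2 ^ d := by positivity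
    nlinarith
  have hinj : Function.Injective t := by
    intro i j hij
    by_contra h
    have := ht2 i j h
    rw [hij, sub_self, abs_zero] at this
    have h2 : 0 < 1 / ((d : ℝ) + 1) := by positivity
    linarith
  have hFc : ∀ i, Continuous (fun v => a v + t i • v) := fun i => by fun_prop
  have hcut : ∀ i, ∃ (C : Set (Fin d → ℝ)) (ε : ℝ) (g : (Fin d → ℝ) → ℝ), 0 < ε ∧
      ContDiff ℝ 1 g ∧ HasCompactSupport g ∧ (∀ y, |g y| ≤ 1) ∧
      (∀ y, ∀ x ∈ C, dist y x ≤ ε → g y = 1) ∧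
      ∫⁻ x, ‖g x‖ₑ ≤ ENNReal.ofReal (R ^ d) ∧ IsCompact C ∧
      volume {v ∈ Metric.closedBall (0 : Fin d → ℝ) 1 | a v + t i • v ∉ C} <
        ENNReal.ofReal (I0 / (2 * A2) * ((1 + L) ^ d)⁻¹) := by
    intro i
    obtain ⟨C, hCE, hC, hCb⟩ := exists_compact_image (hFc i) (hE i) (hbad i)
    obtain ⟨ε, g, h1, h2, h3, h4, h5, h6⟩ := exists_cutoff_small hC
      (lt_of_le_of_lt (measure_mono hCE) (hvol i))
    exact ⟨C, ε, g, h1, h2, h3, h4, h5, h6, hC, hCb⟩
  choose C ε g hε hg hgc hg1 hgN hgR hC hCb using hcut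
  have hfine : ∀ᶠ n in atTop, ∀ i, M * (2 ^ d * L) * (sc 1 n) ^ (1 : ℝ) ≤ ε i := by
    rw [Filter.eventually_all]
    intro i
    have h1 : Tendsto (fun k => sc 1 k) atTop (𝓝 0) := by
      unfold sc
      have := (tendsto_pow_atTop_nhds_zero_of_lt_one (r := (1 / 2 : ℝ)) (by norm_num)
        (by norm_num)).const_mul 1
      simpa using this
    have h2 : Tendsto (fun k => M * (2 ^ d * L) * (sc 1 k) ^ (1 : ℝ)) atTop (𝓝 0) := by
      have h3 := (h1.rpow_const (p := 1) (Or.inr zero_le_one)).const_mul (M * (2 ^ d * L))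
      simpa using h3
    exact ((tendsto_order.1 h2).2 _ (hε i)).mono fun _ h => le_of_lt h
  obtain ⟨n, hn⟩ := hfine.exists
  have hρn : 0 < sc 1 n := sc_pos one_pos n
  have hρn1 : sc 1 n ≤ 1 := by
    have := sc_anti one_pos (Nat.zero_le n)
    simpa [sc] using this
  have hpd : ∀ i (j k : Fin d) v, |pd (fm κ a (sc 1 n) (t i) j) k v| ≤ B := by
    intro i j k v
    have := pd_fm_le hκ ha hL hM one_pos le_rfl hρn hρn1 (ht i) j k v
    simpa using this
  have hJ : ∀ i, |∫ v, bump d v * (GM (fm κ a (sc 1 n) (t i)) v).det| ≤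
      2 * R * (d * (d.factorial * (N * B ^ (d - 1)))) +
      2 * (d.factorial * B ^ d) * (I0 / (2 * A2) * ((1 + L) ^ d)⁻¹) := by
    intro i
    have hdetc : Continuous (fun v => (GM (fm κ a (sc 1 n) (t i)) v).det) :=
      (continuous_GM fun j => (hκ.contDiff_fm hρn hac (t i) j).of_le (by norm_num)).matrix_det
    have hgf : Continuous (fun v => g i (fun j => fm κ a (sc 1 n) (t i) j v)) :=
      (hg i).continuous.comp (continuous_pi fun j => (hκ.contDiff_fm hρn hac (t i) j).continuous)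
    set Bad : Set (Fin d → ℝ) := {v ∈ Metric.closedBall (0 : Fin d → ℝ) 1 | a v + t i • v ∉ C i}
      with hBad
    have hBadm : MeasurableSet Bad := by
      apply Metric.isClosed_closedBall.measurableSet.inter
      exact ((hC i).isClosed.preimage (hFc i)).isOpen_compl.measurableSet
    have hsplit : ∫ v, bump d v * (GM (fm κ a (sc 1 n) (t i)) v).det =
        T (bump d) (g i) (fm κ a (sc 1 n) (t i)) +
        ∫ v, bump d v * ((1 - g i (fun j => fm κ a (sc 1 n) (t i) j v)) *
          (GM (fm κ a (sc 1 n) (t i)) v).det) := by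
      unfold T
      rw [← integral_add]
      · congr 1
        funext v
        ring
      · exact ((bump d).continuous.mul (hgf.mul hdetc)).integrable_of_hasCompactSupport
          (bump d).hasCompactSupport.mul_right
      · exact ((bump d).continuous.mul ((continuous_const.sub hgf).mul
          hdetc)).integrable_of_hasCompactSupport (bump d).hasCompactSupport.mul_right
    have h3 := T_iso hd hκ ha hL hM one_pos le_rfl hN (hg i) (hgc i) (hg1 i) hR (hgR i) hρn hρn1
      (ht i)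
    rw [sub_self, Real.rpow_zero, mul_one] at h3
    have h4 : |∫ v, bump d v * ((1 - g i (fun j => fm κ a (sc 1 n) (t i) j v)) *
          (GM (fm κ a (sc 1 n) (t i)) v).det)| ≤
        2 * (d.factorial * B ^ d) * (I0 / (2 * A2) * ((1 + L) ^ d)⁻¹) := by
      have hzero : ∀ v, v ∉ Bad → bump d v * ((1 - g i (fun j => fm κ a (sc 1 n) (t i) j v)) *
          (GM (fm κ a (sc 1 n) (t i)) v).det) = 0 := by
        intro v hv
        by_cases hvt : v ∈ tsupport (bump d)
        · have hmem : a v + t i • v ∈ C i := by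
            by_contra hcon
            apply hv
            refine ⟨?_, hcon⟩
            rw [tsupport_bump] at hvt
            exact Metric.closedBall_subset_closedBall (by norm_num) hvt
          have hdist : dist (fun j => fm κ a (sc 1 n) (t i) j v) (a v + t i • v) ≤ ε i := by
            rw [dist_pi_le_iff (hε i).le]
            intro j
            rw [Real.dist_eq]
            exact (fm_sub_le hκ ha hL hM one_pos hρn (t i) j v).trans (hn i)
          rw [hgN i _ _ hmem hdist]
          ring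
        · rw [image_eq_zero_of_notMem_tsupport hvt]; ring
      have hbound : ∀ v, ‖bump d v * ((1 - g i (fun j => fm κ a (sc 1 n) (t i) j v)) *
          (GM (fm κ a (sc 1 n) (t i)) v).det)‖ ≤ 2 * (d.factorial * B ^ d) := by
        intro v
        rw [norm_mul, norm_mul, Real.norm_eq_abs, Real.norm_eq_abs, Real.norm_eq_abs]
        have e1 : |bump d v| ≤ 1 := by
          rw [abs_of_nonneg (bump d).nonneg]; exact (bump d).le_one
        have e2 : |1 - g i (fun j => fm κ a (sc 1 n) (t i) j v)| ≤ 2 := by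
          have := hg1 i (fun j => fm κ a (sc 1 n) (t i) j v)
          rw [abs_le] at this ⊢
          constructor <;> linarith [this.1, this.2]
        have e3 : |(GM (fm κ a (sc 1 n) (t i)) v).det| ≤ d.factorial * B ^ d :=
          abs_det_le _ fun j k => hpd i k j v
        calc |bump d v| * (|1 - g i (fun j => fm κ a (sc 1 n) (t i) j v)| *
              |(GM (fm κ a (sc 1 n) (t i)) v).det|)
            ≤ 1 * (2 * (d.factorial * B ^ d)) := by gcongr
          _ = _ := one_mul _
      have h5 : ∫ v, bump d v * ((1 - g i (fun j => fm κ a (sc 1 n) (t i) j v)) *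
          (GM (fm κ a (sc 1 n) (t i)) v).det) =
          ∫ v in Bad, bump d v * ((1 - g i (fun j => fm κ a (sc 1 n) (t i) j v)) *
          (GM (fm κ a (sc 1 n) (t i)) v).det) := by
        rw [setIntegral_eq_integral_of_forall_compl_eq_zero]
        exact hzero
      rw [h5, ← Real.norm_eq_abs]
      have hBf : volume Bad < ⊤ := lt_of_lt_of_le (hCb i) le_top
      refine (norm_setIntegral_le_of_norm_le_const hBf fun v _ => hbound v).trans ?_
      have h6 : volume.real Bad ≤ I0 / (2 * A2) * ((1 + L) ^ d)⁻¹ := by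
        rw [Measure.real]
        exact ENNReal.toReal_le_of_le_ofReal (by positivity) (hCb i).le
      gcongr
    rw [hsplit]
    exact (abs_add_le _ _).trans (add_le_add h3 h4)
  have hsum := sum_heights hκ hac hρn t hinj
  set Z := 2 * R * (d * (d.factorial * (N * B ^ (d - 1)))) +
      2 * (d.factorial * B ^ d) * (I0 / (2 * A2) * ((1 + L) ^ d)⁻¹) with hZ
  have hZ0 : 0 ≤ Z := by positivity
  have hI : I0 ≤ W * Z := by
    calc I0 = |∑ i, (∫ v, bump d v * (GM (fm κ a (sc 1 n) (t i)) v).det) *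
          (∏ j ∈ univ.erase i, (t i - t j))⁻¹| := by
          rw [hsum, abs_of_pos hI0p]
      _ ≤ ∑ i, |(∫ v, bump d v * (GM (fm κ a (sc 1 n) (t i)) v).det) *
          (∏ j ∈ univ.erase i, (t i - t j))⁻¹| := Finset.abs_sum_le_sum_abs _ _
      _ ≤ ∑ _i : Fin (d + 1), Z * ((d : ℝ) + 1) ^ d := by
          refine Finset.sum_le_sum fun i _ => ?_
          rw [abs_mul]
          exact mul_le_mul (hJ i) (weight_le t ht2 i) (abs_nonneg _) hZ0
      _ = W * Z := by
          rw [Finset.sum_const, Finset.card_univ, Fintype.card_fin, nsmul_eq_mul, hW]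
          push_cast
          ring
  have hp1 : W * (2 * (d.factorial * B ^ d) * (I0 / (2 * A2) * ((1 + L) ^ d)⁻¹)) ≤ I0 / 2 := by
    have h1 : B ^ d ≤ M1 ^ d * (1 + L) ^ d := by
      rw [← mul_pow]
      exact pow_le_pow_left₀ hBp.le hBM d
    calc W * (2 * (d.factorial * B ^ d) * (I0 / (2 * A2) * ((1 + L) ^ d)⁻¹))
        ≤ W * (2 * (d.factorial * (M1 ^ d * (1 + L) ^ d)) *
          (I0 / (2 * A2) * ((1 + L) ^ d)⁻¹)) := by gcongr
      _ = I0 / 2 := by
          rw [hA2]; field_simp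
  have hp2 : W * (2 * R * (d * (d.factorial * (N * B ^ (d - 1))))) ≤
      A1 * R * (1 + L) ^ (d - 1) := by
    have h1 : B ^ (d - 1) ≤ M1 ^ (d - 1) * (1 + L) ^ (d - 1) := by
      rw [← mul_pow]
      exact pow_le_pow_left₀ hBp.le hBM (d - 1)
    calc W * (2 * R * (d * (d.factorial * (N * B ^ (d - 1)))))
        ≤ W * (2 * R * (d * (d.factorial * ((N + 1) * (M1 ^ (d - 1) * (1 + L) ^ (d - 1)))))) := by
          gcongr
          linarith
      _ = _ := by rw [hA1]; ring
  have hfin : I0 / 2 ≤ A1 * R * (1 + L) ^ (d - 1) := by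
    rw [hZ, mul_add] at hI
    linarith
  have hP : 0 < (1 + L) ^ (d - 1) := by positivity
  calc I0 / (2 * A1) * ((1 + L) ^ (d - 1))⁻¹ = (I0 / 2) * (A1⁻¹ * ((1 + L) ^ (d - 1))⁻¹) := by
        field_simp
    _ ≤ (A1 * R * (1 + L) ^ (d - 1)) * (A1⁻¹ * ((1 + L) ^ (d - 1))⁻¹) := by gcongr
    _ = R := by field_simp

end Pool.Agent.W769.Iso
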