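import Pool.Agent.W769.Kak.Homot2

set_option autoImplicit false

open MeasureTheory Set Finset

namespace Pool.Agent.W769.Iso

open Pool.Agent.W769.Kak

variable {d : ℕ}

/-- boundary determinants -/
noncomputable def BD (η : (Fin d → ℝ) → ℝ) (F : Fin d → (Fin d → ℝ) → ℝ) (j : Fin d)
    (v : Fin d → ℝ) : ℝ := ((GM F v).updateCol j (fun i => pd η i v)).det

theorem GM_const (θ : Fin d → ℝ) (v : Fin d → ℝ) : GM (fun j _ => θ j) v = 0 := by
  ext i j
  simp [GM, pd]

theorem continuous_BD {η : (Fin d → ℝ) → ℝ} {F : Fin d → (Fin d → ℝ) → ℝ}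
    (hη : ContDiff ℝ 1 η) (hF : ∀ i, ContDiff ℝ 1 (F i)) (j : Fin d) :
    Continuous (BD η F j) := by
  unfold BD
  refine Continuous.matrix_det ?_
  refine (continuous_GM hF).matrix_updateCol j ?_
  exact continuous_pi fun i => continuous_pd hη i

theorem BD_eq_zero {η : (Fin d → ℝ) → ℝ} {F : Fin d → (Fin d → ℝ) → ℝ} {j : Fin d}
    {v : Fin d → ℝ} (hv : v ∉ tsupport η) : BD η F j v = 0 := by
  apply Matrix.det_eq_zero_of_column_eq_zero j
  intro i
  rw [Matrix.updateCol_self]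
  exact pd_eq_zero_of_notMem hv i

theorem BI_const (η g : (Fin d → ℝ) → ℝ) (F : Fin d → (Fin d → ℝ) → ℝ) (θ : Fin d → ℝ)
    (s : ℝ) (j : Fin d) (v : Fin d → ℝ) :
    BI η g F (fun j _ => θ j) s j v = θ j * (g (fun i => F i v + s * θ i) * BD η F j v) := by
  unfold BI BD
  rw [GM_const, smul_zero, add_zero]

theorem continuous_g {g : (Fin d → ℝ) → ℝ} {F : Fin d → (Fin d → ℝ) → ℝ}
    (hg : Continuous g) (hF : ∀ i, Continuous (F i)) :
    Continuous (fun p : ((Fin d → ℝ) × ℝ) × (Fin d → ℝ) => g (fun i => F i p.2 + p.1.2 * p.1.1 i)) := by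
  refine hg.comp (continuous_pi fun i => ?_)
  exact ((hF i).comp continuous_snd).add ((continuous_snd.comp continuous_fst).mul
    ((continuous_apply i).comp (continuous_fst.comp continuous_fst)))

/-- the estimate in one direction `θ`. -/
theorem iso_dir {η g : (Fin d → ℝ) → ℝ} {F : Fin d → (Fin d → ℝ) → ℝ}
    (hη : ContDiff ℝ 1 η) (hηc : HasCompactSupport η) (hg : ContDiff ℝ 1 g)
    (hgc : HasCompactSupport g) (hF : ∀ i, ContDiff ℝ 2 (F i)) {θ : Fin d → ℝ}
    (hθ : ∀ j, |θ j| ≤ 1) (hθ0 : θ ≠ 0) :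
    ‖∫ v, η v * (g (fun i => F i v) * (GM F v).det)‖ₑ ≤
      ∫⁻ s in Ioi (0 : ℝ), ∫⁻ v, (∑ j, ‖BD η F j v‖ₑ) * ‖g (fun i => F i v + s * θ i)‖ₑ := by
  have hF1 : ∀ i, ContDiff ℝ 1 (F i) := fun i => (hF i).of_le (by norm_num)
  set φ : Fin d → (Fin d → ℝ) → ℝ := fun j _ => θ j with hφdef
  have hφ : ∀ i, ContDiff ℝ 2 (φ i) := fun i => contDiff_const
  have hφ1 : ∀ i, ContDiff ℝ 1 (φ i) := fun i => contDiff_const
  set Ψ : ℝ → ℝ := fun s => ∫ v, FI η g F φ s v with hΨ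
  have hder : ∀ s, HasDerivAt Ψ (- ∑ j, ∫ v, BI η g F φ s j v) s := fun s =>
    hasDerivAt_integral_FI hη hηc hg hF hφ s
  have h0 : Ψ 0 = ∫ v, η v * (g (fun i => F i v) * (GM F v).det) := by
    simp only [hΨ, FI]
    congr 1
    funext v
    simp
  -- vanishing
  obtain ⟨S, hS0, hS⟩ : ∃ S : ℝ, 0 < S ∧ Ψ S = 0 := by
    obtain ⟨j0, hj0⟩ : ∃ j, θ j ≠ 0 := by
      by_contra h
      push Not at h
      exact hθ0 (funext h)
    have hj1 : 0 < |θ j0| := abs_pos.2 hj0
    obtain ⟨B, hB⟩ := hηc.isCompact.exists_bound_of_continuousOn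
      (hF1 j0).continuous.continuousOn
    obtain ⟨G, hG⟩ := hgc.isCompact.isBounded.exists_norm_le
    refine ⟨(|B| + |G| + 1) / |θ j0|, by positivity, ?_⟩
    simp only [hΨ]
    have : ∀ v, FI η g F φ ((|B| + |G| + 1) / |θ j0|) v = 0 := by
      intro v
      unfold FI
      by_cases hv : v ∈ tsupport η
      · have : g (fun i => F i v + ((|B| + |G| + 1) / |θ j0|) * φ i v) = 0 := by
          apply image_eq_zero_of_notMem_tsupport
          intro h
          have h1 := hG _ h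
          have h2 := (norm_le_pi_norm (fun i => F i v + ((|B| + |G| + 1) / |θ j0|) * φ i v) j0).trans h1
          simp only [hφdef, Real.norm_eq_abs] at h2
          have h3 : |((|B| + |G| + 1) / |θ j0|) * θ j0| = |B| + |G| + 1 := by
            rw [abs_mul, abs_div, abs_abs, div_mul_cancel₀ _ hj1.ne', abs_of_nonneg (by positivity)]
          have h4 : |F j0 v| ≤ |B| := by
            have := hB v hv
            rw [Real.norm_eq_abs] at this
            exact this.trans (le_abs_self B)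
          have h5 : |((|B| + |G| + 1) / |θ j0|) * θ j0| ≤
              |F j0 v + ((|B| + |G| + 1) / |θ j0|) * θ j0| + |F j0 v| := by
            have := abs_sub (F j0 v + ((|B| + |G| + 1) / |θ j0|) * θ j0) (F j0 v)
            simpa using this
          rw [h3] at h5
          have h6 := le_abs_self G
          linarith
        rw [this]; ring
      · rw [image_eq_zero_of_notMem_tsupport hv]; ring
    simp [this]
  -- continuity of the derivative
  have hcont : ∀ j, Continuous (fun s => ∫ v, BI η g F φ s j v) := by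
    intro j
    have h1 : (fun s => ∫ v, BI η g F φ s j v) = fun s => ∫ v in tsupport η, BI η g F φ s j v := by
      funext s
      rw [setIntegral_eq_integral_of_forall_compl_eq_zero]
      intro v hv
      exact BI_eq_zero hv
    rw [h1]
    apply continuous_parametric_integral_of_continuous _ hηc.isCompact
    have h2 : Function.uncurry (fun (s : ℝ) (v : Fin d → ℝ) => BI η g F φ s j v) =
        fun p : ℝ × (Fin d → ℝ) => θ j * (g (fun i => F i p.2 + p.1 * θ i) * BD η F j p.2) := by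
      funext p
      exact BI_const η g F θ p.1 j p.2
    rw [h2]
    refine continuous_const.mul (Continuous.mul ?_ ((continuous_BD hη hF1 j).comp continuous_snd))
    refine hg.continuous.comp (continuous_pi fun i => ?_)
    exact ((hF1 i).continuous.comp continuous_snd).add (continuous_fst.mul continuous_const)
  have hcont' : Continuous (fun s => - ∑ j, ∫ v, BI η g F φ s j v) :=
    (continuous_finsetSum _ fun j _ => hcont j).neg
  have hFTC := intervalIntegral.integral_eq_sub_of_hasDerivAt (a := 0) (b := S)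
    (fun s _ => hder s) (hcont'.intervalIntegrable _ _)
  rw [hS, zero_sub, h0] at hFTC
  have h1 : ∫ v, η v * (g (fun i => F i v) * (GM F v).det) =
      - ∫ s in Ioc 0 S, (- ∑ j, ∫ v, BI η g F φ s j v) := by
    rw [← intervalIntegral.integral_of_le hS0.le, hFTC, neg_neg]
  rw [h1, enorm_neg]
  calc ‖∫ s in Ioc 0 S, (- ∑ j, ∫ v, BI η g F φ s j v)‖ₑ
      ≤ ∫⁻ s in Ioc 0 S, ‖- ∑ j, ∫ v, BI η g F φ s j v‖ₑ := enorm_integral_le_lintegral_enorm _
    _ ≤ ∫⁻ s in Ioi (0 : ℝ), ‖- ∑ j, ∫ v, BI η g F φ s j v‖ₑ :=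
        lintegral_mono_set Ioc_subset_Ioi_self
    _ ≤ ∫⁻ s in Ioi (0 : ℝ), ∫⁻ v, (∑ j, ‖BD η F j v‖ₑ) * ‖g (fun i => F i v + s * θ i)‖ₑ := by
        refine lintegral_mono fun s => ?_
        simp only
        rw [enorm_neg]
        calc ‖∑ j, ∫ v, BI η g F φ s j v‖ₑ ≤ ∑ j, ‖∫ v, BI η g F φ s j v‖ₑ := enorm_sum_le _ _
          _ ≤ ∑ j, ∫⁻ v, ‖BI η g F φ s j v‖ₑ :=
              Finset.sum_le_sum fun j _ => enorm_integral_le_lintegral_enorm _
          _ ≤ ∑ j, ∫⁻ v, ‖BD η F j v‖ₑ * ‖g (fun i => F i v + s * θ i)‖ₑ := by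
              refine Finset.sum_le_sum fun j _ => lintegral_mono fun v => ?_
              rw [hφdef, BI_const, enorm_mul, enorm_mul]
              have h2 : ‖θ j‖ₑ ≤ 1 := by
                rw [← ofReal_norm, Real.norm_eq_abs]
                exact ENNReal.ofReal_le_one.2 (hθ j)
              calc ‖θ j‖ₑ * (‖g fun i => F i v + s * θ i‖ₑ * ‖BD η F j v‖ₑ)
                  ≤ 1 * (‖g fun i => F i v + s * θ i‖ₑ * ‖BD η F j v‖ₑ) := by gcongr
                _ = _ := by rw [one_mul, mul_comm]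
          _ = ∫⁻ v, (∑ j, ‖BD η F j v‖ₑ) * ‖g (fun i => F i v + s * θ i)‖ₑ := by
              rw [← lintegral_finsetSum']
              · simp_rw [Finset.sum_mul]
              · intro j _
                have hm1 : Measurable (fun v => ‖BD η F j v‖ₑ) :=
                  (continuous_BD hη hF1 j).measurable.enorm
                have hm2 : Measurable (fun v => ‖g (fun i => F i v + s * θ i)‖ₑ) := by
                  apply Measurable.enorm
                  apply Continuous.measurable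
                  refine hg.continuous.comp (continuous_pi fun i => ?_)
                  exact ((hF1 i).continuous).add continuous_const
                exact (hm1.mul hm2).aemeasurable


theorem measurable_main {η g : (Fin d → ℝ) → ℝ} {F : Fin d → (Fin d → ℝ) → ℝ}
    (hη : ContDiff ℝ 1 η) (hg : Continuous g) (hF : ∀ i, ContDiff ℝ 2 (F i)) :
    Measurable (fun p : ((Fin d → ℝ) × ℝ) × (Fin d → ℝ) =>
      (∑ j, ‖BD η F j p.2‖ₑ) * ‖g (fun i => F i p.2 + p.1.2 * p.1.1 i)‖ₑ) := by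
  have hF1 : ∀ i, ContDiff ℝ 1 (F i) := fun i => (hF i).of_le (by norm_num)
  have hm1 : Measurable (fun p : ((Fin d → ℝ) × ℝ) × (Fin d → ℝ) => ∑ j, ‖BD η F j p.2‖ₑ) := by
    refine Finset.measurable_fun_sum _ fun j _ => ?_
    exact ((continuous_BD hη hF1 j).comp continuous_snd).measurable.enorm
  have hm2 := (continuous_g hg fun i => (hF1 i).continuous).measurable.enorm
  exact hm1.mul hm2

/-- scaled copies -/
theorem lintegral_smul_le {g : (Fin d → ℝ) → ℝ} (y : Fin d → ℝ) {s : ℝ} (hs : 0 < s)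
    (hg : Continuous g) :
    ∫⁻ θ : Fin d → ℝ, ‖g (fun i => y i + s * (-θ i))‖ₑ = ENNReal.ofReal ((s ^ d)⁻¹) *
      ∫⁻ x, ‖g x‖ₑ := by
  have h1 : ∫⁻ θ : Fin d → ℝ, ‖g (fun i => y i + s * (-θ i))‖ₑ =
      ∫⁻ θ : Fin d → ℝ, ‖g (y + (-s) • θ)‖ₑ := by
    refine lintegral_congr fun θ => ?_
    have : (fun i => y i + s * (-θ i)) = y + (-s) • θ := by
      funext i
      simp
    rw [this]
  have h2 : ∫⁻ θ : Fin d → ℝ, ‖g (y + (-s) • θ)‖ₑ =
      ∫⁻ x, ‖g (y + x)‖ₑ ∂(Measure.map ((-s) • ·) (volume : Measure (Fin d → ℝ))) := by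
    rw [lintegral_map]
    · exact (hg.comp (continuous_const.add continuous_id)).measurable.enorm
    · exact measurable_const_smul _
  rw [h1, h2, Measure.map_addHaar_smul volume (by simpa using hs.ne')]
  rw [lintegral_smul_measure, lintegral_add_left_eq_self (fun x => ‖g x‖ₑ) y]
  simp only [Module.finrank_fintype_fun_eq_card, Fintype.card_fin, smul_eq_mul]
  congr 2
  rw [abs_inv, abs_pow, abs_neg, abs_of_pos hs]

theorem lintegral_Ioi_inv_pow_le (hd : 2 ≤ d) {R : ℝ} (hR : 0 < R) :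
    ∫⁻ s in Ioi R, ENNReal.ofReal ((s ^ d)⁻¹) ≤ ENNReal.ofReal ((R ^ (d - 1))⁻¹) := by
  have ha : -(d : ℝ) < -1 := by
    have : (2 : ℝ) ≤ d := by exact_mod_cast hd
    linarith
  have h1 : ∫⁻ s in Ioi R, ENNReal.ofReal ((s ^ d)⁻¹) =
      ∫⁻ s in Ioi R, ENNReal.ofReal (s ^ (-(d : ℝ))) := by
    refine setLIntegral_congr_fun measurableSet_Ioi fun s hs => ?_
    congr 1
    rw [Real.rpow_neg (hR.trans hs).le, Real.rpow_natCast]
  rw [h1, ← ofReal_integral_eq_lintegral_ofReal (integrableOn_Ioi_rpow_of_lt ha hR)]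
  · apply ENNReal.ofReal_le_ofReal
    rw [integral_Ioi_rpow_of_lt ha hR]
    have h2 : (-(d : ℝ) + 1) = -((d - 1 : ℕ) : ℝ) := by
      rw [Nat.cast_sub (by omega)]; push_cast; ring
    rw [h2, Real.rpow_neg hR.le, Real.rpow_natCast]
    have h3 : (1 : ℝ) ≤ ((d - 1 : ℕ) : ℝ) := by
      have : 1 ≤ d - 1 := by omega
      exact_mod_cast this
    rw [neg_div_neg_eq]
    exact div_le_self (by positivity) h3
  · filter_upwards [ae_restrict_mem measurableSet_Ioi] with s hs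
    exact Real.rpow_nonneg (hR.trans hs).le _

theorem kernel_bound (hd : 2 ≤ d) {g : (Fin d → ℝ) → ℝ} (hg : Continuous g)
    (hg1 : ∀ y, |g y| ≤ 1) {R : ℝ} (hR : 0 < R) (hgR : ∫⁻ x, ‖g x‖ₑ ≤ ENNReal.ofReal (R ^ d))
    (y : Fin d → ℝ) :
    ∫⁻ s in Ioi (0 : ℝ), ∫⁻ θ in Icc (0 : Fin d → ℝ) 1, ‖g (fun i => y i + s * (-θ i))‖ₑ ≤
      ENNReal.ofReal (2 * R) := by
  have hvol : (volume : Measure (Fin d → ℝ)) (Icc 0 1) = 1 := by
    rw [Real.volume_Icc_pi]; simp
  have hb : ∀ z, ‖g z‖ₑ ≤ 1 := fun z => by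
    rw [← ofReal_norm, Real.norm_eq_abs]
    exact ENNReal.ofReal_le_one.2 (hg1 z)
  rw [← Ioc_union_Ioi_eq_Ioi hR.le, lintegral_union measurableSet_Ioi Ioc_disjoint_Ioi_same]
  have h1 : ∫⁻ s in Ioc 0 R, ∫⁻ θ in Icc (0 : Fin d → ℝ) 1, ‖g (fun i => y i + s * (-θ i))‖ₑ ≤
      ENNReal.ofReal R := by
    calc ∫⁻ s in Ioc 0 R, ∫⁻ θ in Icc (0 : Fin d → ℝ) 1, ‖g (fun i => y i + s * (-θ i))‖ₑ
        ≤ ∫⁻ s in Ioc 0 R, 1 := by
          refine lintegral_mono fun s => ?_
          calc ∫⁻ θ in Icc (0 : Fin d → ℝ) 1, ‖g (fun i => y i + s * (-θ i))‖ₑ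
              ≤ ∫⁻ θ in Icc (0 : Fin d → ℝ) 1, 1 := lintegral_mono fun θ => hb _
            _ = 1 := by rw [setLIntegral_one, hvol]
      _ = ENNReal.ofReal R := by rw [setLIntegral_one, Real.volume_Ioc, sub_zero]
  have h2 : ∫⁻ s in Ioi R, ∫⁻ θ in Icc (0 : Fin d → ℝ) 1, ‖g (fun i => y i + s * (-θ i))‖ₑ ≤
      ENNReal.ofReal R := by
    calc ∫⁻ s in Ioi R, ∫⁻ θ in Icc (0 : Fin d → ℝ) 1, ‖g (fun i => y i + s * (-θ i))‖ₑ
        ≤ ∫⁻ s in Ioi R, ENNReal.ofReal ((s ^ d)⁻¹) * ENNReal.ofReal (R ^ d) := by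
          refine setLIntegral_mono' measurableSet_Ioi fun s hs => ?_
          refine (setLIntegral_le_lintegral _ _).trans ?_
          rw [lintegral_smul_le y (hR.trans hs) hg]
          gcongr
      _ = (∫⁻ s in Ioi R, ENNReal.ofReal ((s ^ d)⁻¹)) * ENNReal.ofReal (R ^ d) := by
          rw [lintegral_mul_const' _ _ ENNReal.ofReal_ne_top]
      _ ≤ ENNReal.ofReal ((R ^ (d - 1))⁻¹) * ENNReal.ofReal (R ^ d) := by
          gcongr
          exact lintegral_Ioi_inv_pow_le hd hR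
      _ = ENNReal.ofReal R := by
          rw [← ENNReal.ofReal_mul (by positivity)]
          congr 1
          have : R ^ d = R ^ (d - 1) * R := by
            rw [← pow_succ]; congr 1; omega
          rw [this]
          field_simp
  calc _ ≤ ENNReal.ofReal R + ENNReal.ofReal R := add_le_add h1 h2
    _ = ENNReal.ofReal (2 * R) := by rw [← ENNReal.ofReal_add hR.le hR.le]; congr 1; ring

/-- **Isoperimetric inequality for Jacobians**, smooth weights. -/
theorem iso_smooth (hd : 2 ≤ d) {η g : (Fin d → ℝ) → ℝ} {F : Fin d → (Fin d → ℝ) → ℝ}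
    (hη : ContDiff ℝ 1 η) (hηc : HasCompactSupport η) (hg : ContDiff ℝ 1 g)
    (hgc : HasCompactSupport g) (hg1 : ∀ y, |g y| ≤ 1) (hF : ∀ i, ContDiff ℝ 2 (F i))
    {R : ℝ} (hR : 0 < R) (hgR : ∫⁻ x, ‖g x‖ₑ ≤ ENNReal.ofReal (R ^ d)) :
    ‖∫ v, η v * (g (fun i => F i v) * (GM F v).det)‖ₑ ≤
      ENNReal.ofReal (2 * R) * ∫⁻ v, ∑ j, ‖BD η F j v‖ₑ := by
  have hF1 : ∀ i, ContDiff ℝ 1 (F i) := fun i => (hF i).of_le (by norm_num)
  have hvol : (volume : Measure (Fin d → ℝ)) (Icc 0 1) = 1 := by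
    rw [Real.volume_Icc_pi]; simp
  set A := ‖∫ v, η v * (g (fun i => F i v) * (GM F v).det)‖ₑ with hA
  have hne : Nonempty (Fin d) := ⟨⟨0, by omega⟩⟩
  have h1 : A ≤ ∫⁻ θ in Icc (0 : Fin d → ℝ) 1, ∫⁻ s in Ioi (0 : ℝ), ∫⁻ v,
      (∑ j, ‖BD η F j v‖ₑ) * ‖g (fun i => F i v + s * (-θ i))‖ₑ := by
    calc A = ∫⁻ θ in Icc (0 : Fin d → ℝ) 1, A := by rw [setLIntegral_const, hvol, mul_one]
      _ ≤ _ := by
        refine lintegral_mono_ae ?_
        have h0 : ∀ᵐ θ : Fin d → ℝ ∂(volume.restrict (Icc (0 : Fin d → ℝ) 1)), θ ≠ 0 := by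
          apply ae_restrict_of_ae
          exact compl_mem_ae_iff.2 (measure_singleton _)
        filter_upwards [h0, ae_restrict_mem measurableSet_Icc] with θ hθ0 hθ
        exact iso_dir hη hηc hg hgc hF (θ := fun i => -θ i) (fun j => by
          rw [abs_neg, abs_of_nonneg (hθ.1 j)]; exact hθ.2 j) (fun h => hθ0 (by
            funext i
            have := congrFun h i
            simpa using this))
  refine h1.trans ?_
  have hmeas := measurable_main hη hg.continuous hF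
  -- reorganise
  have hneg : Measurable (fun p : ((Fin d → ℝ) × ℝ) × (Fin d → ℝ) =>
      (∑ j, ‖BD η F j p.2‖ₑ) * ‖g (fun i => F i p.2 + p.1.2 * (-p.1.1 i))‖ₑ) := by
    have h2 : Measurable (fun p : ((Fin d → ℝ) × ℝ) × (Fin d → ℝ) =>
      (((fun i => -p.1.1 i, p.1.2), p.2) : ((Fin d → ℝ) × ℝ) × (Fin d → ℝ))) := by
      apply Continuous.measurable
      fun_prop
    exact hmeas.comp h2
  calc ∫⁻ θ in Icc (0 : Fin d → ℝ) 1, ∫⁻ s in Ioi (0 : ℝ), ∫⁻ v,
      (∑ j, ‖BD η F j v‖ₑ) * ‖g (fun i => F i v + s * (-θ i))‖ₑ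
      = ∫⁻ θ in Icc (0 : Fin d → ℝ) 1, ∫⁻ v, ∫⁻ s in Ioi (0 : ℝ),
      (∑ j, ‖BD η F j v‖ₑ) * ‖g (fun i => F i v + s * (-θ i))‖ₑ := by
        refine lintegral_congr fun θ => ?_
        apply lintegral_lintegral_swap
        apply Measurable.aemeasurable
        exact hneg.comp (f := fun q : ℝ × (Fin d → ℝ) => ((θ, q.1), q.2))
          (by apply Continuous.measurable; fun_prop)
    _ = ∫⁻ v, ∫⁻ θ in Icc (0 : Fin d → ℝ) 1, ∫⁻ s in Ioi (0 : ℝ),
      (∑ j, ‖BD η F j v‖ₑ) * ‖g (fun i => F i v + s * (-θ i))‖ₑ := by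
        apply lintegral_lintegral_swap
        apply Measurable.aemeasurable
        have h3 : Measurable (fun p : ((Fin d → ℝ) × (Fin d → ℝ)) × ℝ =>
          (∑ j, ‖BD η F j p.1.2‖ₑ) * ‖g (fun i => F i p.1.2 + p.2 * (-p.1.1 i))‖ₑ) :=
          hneg.comp (f := fun q : ((Fin d → ℝ) × (Fin d → ℝ)) × ℝ => ((q.1.1, q.2), q.1.2))
          (by apply Continuous.measurable; fun_prop)
        exact Measurable.lintegral_prod_right' h3
    _ = ∫⁻ v, ∫⁻ s in Ioi (0 : ℝ), ∫⁻ θ in Icc (0 : Fin d → ℝ) 1,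
      (∑ j, ‖BD η F j v‖ₑ) * ‖g (fun i => F i v + s * (-θ i))‖ₑ := by
        refine lintegral_congr fun v => ?_
        apply lintegral_lintegral_swap
        apply Measurable.aemeasurable
        exact hneg.comp (f := fun q : (Fin d → ℝ) × ℝ => ((q.1, q.2), v))
          (by apply Continuous.measurable; fun_prop)
    _ = ∫⁻ v, (∑ j, ‖BD η F j v‖ₑ) * ∫⁻ s in Ioi (0 : ℝ), ∫⁻ θ in Icc (0 : Fin d → ℝ) 1,
        ‖g (fun i => F i v + s * (-θ i))‖ₑ := by
        refine lintegral_congr fun v => ?_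
        have hfin : (∑ j, ‖BD η F j v‖ₑ) ≠ ⊤ := by
          simp [ENNReal.sum_eq_top]
        rw [← lintegral_const_mul' _ _ hfin]
        refine lintegral_congr fun s => ?_
        rw [← lintegral_const_mul' _ _ hfin]
    _ ≤ ∫⁻ v, (∑ j, ‖BD η F j v‖ₑ) * ENNReal.ofReal (2 * R) := by
        refine lintegral_mono fun v => ?_
        gcongr
        exact kernel_bound hd hg.continuous hg1 hR hgR _
    _ = ENNReal.ofReal (2 * R) * ∫⁻ v, ∑ j, ‖BD η F j v‖ₑ := by
        rw [lintegral_mul_const' _ _ ENNReal.ofReal_ne_top, mul_comm]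

end Pool.Agent.W769.Iso
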