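import Mathlib

set_option autoImplicit false
set_option maxHeartbeats 1000000

open MeasureTheory Set
open scoped ENNReal

namespace Pool.Agent.W769.Iso

/-- concatenation of two functions -/
noncomputable def glue (a : ℝ) (f g : ℝ → ℝ) : ℝ → ℝ :=
  fun u => if u ≤ a then f u else f a + g (u - a)

theorem glue_left {a : ℝ} {f g : ℝ → ℝ} {u : ℝ} (h : u ≤ a) : glue a f g u = f u := by
  rw [glue, if_pos h]

theorem glue_right {a : ℝ} {f g : ℝ → ℝ} {u : ℝ} (hg : g 0 = 0) (h : a ≤ u) :
    glue a f g u = f a + g (u - a) := by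
  rcases h.eq_or_lt with h1 | h1
  · subst h1
    rw [glue_left le_rfl, sub_self, hg, add_zero]
  · rw [glue, if_neg (not_le.2 h1)]

theorem glue_lip {a Λ : ℝ} {f g : ℝ → ℝ} (hf : ∀ x y, |f x - f y| ≤ Λ * |x - y|)
    (hg : ∀ x y, |g x - g y| ≤ Λ * |x - y|) (hg0 : g 0 = 0) (x y : ℝ) :
    |glue a f g x - glue a f g y| ≤ Λ * |x - y| := by
  have key : ∀ x y, x ≤ a → a ≤ y → |glue a f g x - glue a f g y| ≤ Λ * |x - y| := by
    intro x y hx hy
    rw [glue_left hx, glue_right hg0 hy]
    have h1 := hf x a
    have h2 := hg 0 (y - a)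
    rw [hg0] at h2
    have h3 : f x - (f a + g (y - a)) = (f x - f a) + (0 - g (y - a)) := by ring
    rw [h3]
    refine (abs_add_le _ _).trans ?_
    have h4 : |x - a| = a - x := by rw [abs_of_nonpos (by linarith)]; ring
    have h5 : |0 - (y - a)| = y - a := by rw [abs_of_nonpos (by linarith)]; ring
    have h6 : |x - y| = y - x := by rw [abs_of_nonpos (by linarith)]; ring
    rw [h4] at h1
    rw [h5] at h2
    rw [h6]
    linarith
  rcases le_total x a with hx | hx <;> rcases le_total y a with hy | hy
  · rw [glue_left hx, glue_left hy]; exact hf x y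
  · exact key x y hx hy
  · rw [abs_sub_comm, abs_sub_comm x y]; exact key y x hy hx
  · rw [glue_right hg0 hx, glue_right hg0 hy]
    have := hg (x - a) (y - a)
    simpa using this

open scoped Pointwise in
theorem volume_affine_image (c : ℝ) {l : ℝ} (hl : 0 < l) (A : Set ℝ) :
    volume ((fun s => c + l * s) '' A) = ENNReal.ofReal l * volume A := by
  have h1 : (fun s : ℝ => c + l * s) '' A = (fun y => c + y) '' ((fun s => l • s) '' A) := by
    rw [Set.image_image]
    rfl
  rw [h1, Set.image_add_left, measure_preimage_add]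
  have h2 : (fun s : ℝ => l • s) '' A = l • A := rfl
  rw [h2, Measure.addHaar_smul]
  simp [abs_of_pos hl]

/-- **The one-dimensional construction.** -/
theorem one_dim {m : ℕ} (hm : 2 ≤ m) {Λ : ℝ} (hΛ : 1 ≤ Λ) :
    ∀ j k : ℕ, j + k = m → ∃ (H : ℝ → ℝ) (G : Set ℝ),
      (∀ x y, |H x - H y| ≤ Λ * |x - y|) ∧ H 0 = 0 ∧ H 1 = -((k : ℝ) / m) ∧
      (∀ u ∈ Icc (0 : ℝ) 1, |H u + (k : ℝ) / m * u| ≤ 1 / m) ∧
      IsCompact G ∧ G ⊆ Icc 0 1 ∧
      volume (Icc (0 : ℝ) 1 \ G) ≤ ENNReal.ofReal (j * (1 / (Λ * m))) ∧
      ∀ τ : ℝ, (k : ℝ) / m ≤ τ → τ ≤ 1 →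
        volume ((fun s => H s + τ * s) '' G) ≤ ENNReal.ofReal (4 / m) := by
  have hmp : (0 : ℝ) < m := by exact_mod_cast (show 0 < m by omega)
  have hm2 : (2 : ℝ) ≤ m := by exact_mod_cast hm
  have hΛp : 0 < Λ := by linarith
  intro j
  induction j with
  | zero =>
    intro k hk
    have hkm : (k : ℝ) / m = 1 := by
      have : k = m := by omega
      rw [this, div_self hmp.ne']
    refine ⟨fun s => -s, Icc 0 1, ?_, by simp, by rw [hkm], ?_, isCompact_Icc, le_rfl, by simp, ?_⟩
    · intro x y
      have h1 : -x - -y = -(x - y) := by ring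
      rw [h1, abs_neg]
      have := abs_nonneg (x - y)
      nlinarith
    · intro u _
      rw [hkm]
      have : -u + 1 * u = 0 := by ring
      rw [this, abs_zero]
      positivity
    · intro τ h1 h2
      have hτ : τ = 1 := by rw [hkm] at h1; linarith
      have h3 : (fun s : ℝ => -s + τ * s) '' Icc (0 : ℝ) 1 ⊆ {0} := by
        rintro _ ⟨s, _, rfl⟩
        simp [hτ]
      calc _ ≤ volume ({0} : Set ℝ) := measure_mono h3
        _ = 0 := by simp
        _ ≤ _ := zero_le
  | succ j ih =>
    intro k hk
    obtain ⟨H', G', hlip', h0', h1', hdev', hGc', hG01', hGv', himg'⟩ := ih (k + 1) (by omega)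
    push_cast at h1' hdev' himg'
    set q : ℝ := 1 / (Λ * m) with hq
    have hqp : 0 < q := by positivity
    have hq2 : q ≤ 1 / 2 := by
      rw [hq, div_le_div_iff₀ (by positivity) (by norm_num)]
      nlinarith
    set l : ℝ := (1 - q) / 2 with hl
    have hlp : 0 < l := by rw [hl]; linarith
    have hl2 : l < 1 / 2 := by rw [hl]; linarith
    set σ : ℝ := Λ * (1 - q * (k + 1)) with hσ
    have hqm : q * m = 1 / Λ := by rw [hq]; field_simp
    have hkm : ((k : ℝ) + 1) ≤ m := by
      have : k + 1 ≤ m := by omega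
      exact_mod_cast this
    have hqk : q * (k + 1) ≤ 1 := by
      have h1 : q * (k + 1) ≤ q * m := by gcongr
      rw [hqm] at h1
      have h2 : 1 / Λ ≤ 1 := by rw [div_le_one hΛp]; exact hΛ
      linarith
    have hσ0 : 0 ≤ σ := by
      rw [hσ]
      apply mul_nonneg hΛp.le
      linarith
    have hσ1 : σ ≤ Λ := by
      rw [hσ]
      have : 0 ≤ q * (k + 1) := by positivity
      nlinarith
    have hσeq : -(l * ((k + 1) / m)) + σ * (1 / 2 - l) = -((k : ℝ) / m / 2) := by
      have h1 : 1 / 2 - l = q / 2 := by rw [hl]; ring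
      rw [h1, hl, hσ]
      have h2 : Λ * q = 1 / m := by rw [hq]; field_simp
      have h3 : Λ * (1 - q * (k + 1)) * (q / 2) = (Λ * q) * (1 - q * (k + 1)) / 2 := by ring
      rw [h3, h2]
      field_simp
      ring
    set S : ℝ → ℝ := fun u => l * H' (u / l) with hS
    set T : ℝ → ℝ := fun u => σ * u with hT
    have hSlip : ∀ x y, |S x - S y| ≤ Λ * |x - y| := by
      intro x y
      have h1 := hlip' (x / l) (y / l)
      rw [← sub_div, abs_div, abs_of_pos hlp] at h1
      have h2 : S x - S y = l * (H' (x / l) - H' (y / l)) := by rw [hS]; ring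
      rw [h2, abs_mul, abs_of_pos hlp]
      calc l * |H' (x / l) - H' (y / l)| ≤ l * (Λ * (|x - y| / l)) := by gcongr
        _ = Λ * |x - y| := by field_simp
    have hTlip : ∀ x y, |T x - T y| ≤ Λ * |x - y| := by
      intro x y
      have h2 : T x - T y = σ * (x - y) := by rw [hT]; ring
      rw [h2, abs_mul, abs_of_nonneg hσ0]
      gcongr
    have hT0 : T 0 = 0 := by rw [hT]; ring
    have hS0 : S 0 = 0 := by rw [hS]; simp [h0']
    have hSl : S l = -(l * ((k + 1) / m)) := by
      rw [hS]
      simp only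
      rw [div_self hlp.ne', h1']; ring
    set P := glue l S T with hP
    have hPlip : ∀ x y, |P x - P y| ≤ Λ * |x - y| := glue_lip hSlip hTlip hT0
    have hP0 : P 0 = 0 := by rw [hP, glue_left hlp.le, hS0]
    have hPhalf : P (1 / 2) = -((k : ℝ) / m / 2) := by
      rw [hP, glue_right hT0 hl2.le, hSl, ← hσeq]
    -- deviation on a piece
    have hPdev : ∀ u ∈ Icc (0 : ℝ) (1 / 2), |P u + (k : ℝ) / m * u| ≤ 1 / m := by
      intro u hu
      rcases le_total u l with h | h
      · rw [hP, glue_left h]
        have hul : u / l ∈ Icc (0 : ℝ) 1 :=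
          ⟨div_nonneg hu.1 hlp.le, (div_le_one hlp).2 h⟩
        have h1 := hdev' (u / l) hul
        have h2 : S u + (k : ℝ) / m * u = l * (H' (u / l) + ((k : ℝ) + 1) / m * (u / l)) - u / m := by
          rw [hS]
          field_simp
          ring
        rw [h2]
        refine (abs_sub _ _).trans ?_
        rw [abs_mul, abs_of_pos hlp, abs_of_nonneg (div_nonneg hu.1 hmp.le)]
        have h3 : u / m ≤ (1 / 2) / m := by
          gcongr
          exact hu.2
        calc l * |H' (u / l) + ((k : ℝ) + 1) / m * (u / l)| + u / m ≤ l * (1 / m) + (1 / 2) / m := by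
              gcongr
          _ ≤ (1 / 2) * (1 / m) + (1 / 2) / m := by gcongr
          _ = 1 / m := by ring
      · rw [hP, glue_right hT0 h, hSl, hT]
        simp only
        have h1 : 0 ≤ u - l := by linarith
        have hlow : -(1 / (m : ℝ)) ≤ -(l * ((k + 1) / m)) + σ * (u - l) + (k : ℝ) / m * u := by
          have h2 : 0 ≤ σ * (u - l) := mul_nonneg hσ0 h1
          have h3 : (k : ℝ) / m * l ≤ (k : ℝ) / m * u := by gcongr
          have h4 : -(l * ((k + 1) / m)) + (k : ℝ) / m * l = -(l / m) := by ring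
          have h5 : l / m ≤ 1 / m := by gcongr; linarith
          linarith
        have hhigh : -(l * ((k + 1) / m)) + σ * (u - l) + (k : ℝ) / m * u ≤ 0 := by
          have h2 : σ * (u - l) ≤ σ * (1 / 2 - l) := by
            gcongr
            exact hu.2
          have h3 : (k : ℝ) / m * u ≤ (k : ℝ) / m * (1 / 2) := by
            gcongr
            exact hu.2
          linarith [hσeq]
        rw [abs_le]
        refine ⟨hlow, hhigh.trans (by positivity)⟩
    set H := glue (1 / 2) P P with hH
    have hHlip : ∀ x y, |H x - H y| ≤ Λ * |x - y| := glue_lip hPlip hPlip hP0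
    have hH0 : H 0 = 0 := by rw [hH, glue_left (by norm_num), hP0]
    have hH1 : H 1 = -((k : ℝ) / m) := by
      rw [hH, glue_right hP0 (by norm_num)]
      have : (1 : ℝ) - 1 / 2 = 1 / 2 := by norm_num
      rw [this, hPhalf]; ring
    have hHdev : ∀ u ∈ Icc (0 : ℝ) 1, |H u + (k : ℝ) / m * u| ≤ 1 / m := by
      intro u hu
      rcases le_total u (1 / 2) with h | h
      · rw [hH, glue_left h]
        exact hPdev u ⟨hu.1, h⟩
      · rw [hH, glue_right hP0 h, hPhalf]
        have h1 := hPdev (u - 1 / 2) ⟨by linarith, by linarith [hu.2]⟩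
        have h2 : -((k : ℝ) / m / 2) + P (u - 1 / 2) + (k : ℝ) / m * u =
            P (u - 1 / 2) + (k : ℝ) / m * (u - 1 / 2) := by ring
        rw [h2]
        exact h1
    have hHl : ∀ s ∈ Icc (0 : ℝ) 1, H (0 + l * s) = l * H' s := by
      intro s hs
      have h1 : l * s ≤ l := by nlinarith [hs.2]
      rw [zero_add, hH, glue_left (by linarith), hP, glue_left h1, hS]
      simp only
      rw [mul_div_cancel_left₀ _ hlp.ne']
    have hHr : ∀ s ∈ Icc (0 : ℝ) 1, H (1 / 2 + l * s) = P (1 / 2) + l * H' s := by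
      intro s hs
      have h0 : 0 ≤ l * s := mul_nonneg hlp.le hs.1
      have h1 : l * s ≤ l := by nlinarith [hs.2]
      rw [hH, glue_right hP0 (by linarith), add_sub_cancel_left, hP, glue_left h1, hS]
      simp only
      rw [mul_div_cancel_left₀ _ hlp.ne']
    set G : Set ℝ := (fun s => 0 + l * s) '' G' ∪ (fun s => 1 / 2 + l * s) '' G' with hG
    refine ⟨H, G, hHlip, hH0, hH1, hHdev, ?_, ?_, ?_, ?_⟩
    · exact (hGc'.image (by fun_prop)).union (hGc'.image (by fun_prop))
    · rintro x (⟨s, hs, rfl⟩ | ⟨s, hs, rfl⟩)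
      · have h1 := hG01' hs
        have h2 : 0 ≤ l * s := mul_nonneg hlp.le h1.1
        have h3 : l * s ≤ l := by nlinarith [h1.2]
        constructor <;> simp only <;> linarith
      · have h1 := hG01' hs
        have h2 : 0 ≤ l * s := mul_nonneg hlp.le h1.1
        have h3 : l * s ≤ l := by nlinarith [h1.2]
        constructor <;> simp only <;> linarith
    · -- measure of the complement
      have hsub : Icc (0 : ℝ) 1 \ G ⊆ (((fun s => 0 + l * s) '' (Icc (0 : ℝ) 1 \ G')) ∪
          ((fun s => 1 / 2 + l * s) '' (Icc (0 : ℝ) 1 \ G'))) ∪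
          (Icc l (1 / 2) ∪ Icc (1 / 2 + l) 1) := by
        rintro x ⟨hx, hxG⟩
        rcases le_total x l with h1 | h1
        · left; left
          refine ⟨x / l, ⟨⟨div_nonneg hx.1 hlp.le, (div_le_one hlp).2 h1⟩, ?_⟩, ?_⟩
          · intro hcon
            apply hxG
            left
            refine ⟨x / l, hcon, ?_⟩
            simp only
            field_simp
            ring
          · simp only
            field_simp
            ring
        · rcases le_total x (1 / 2) with h2 | h2
          · right; left; exact ⟨h1, h2⟩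
          · rcases le_total x (1 / 2 + l) with h3 | h3
            · left; right
              refine ⟨(x - 1 / 2) / l, ⟨⟨div_nonneg (by linarith) hlp.le,
                (div_le_one hlp).2 (by linarith)⟩, ?_⟩, ?_⟩
              · intro hcon
                apply hxG
                right
                refine ⟨(x - 1 / 2) / l, hcon, ?_⟩
                simp only
                rw [mul_div_cancel₀ _ hlp.ne']; ring
              · simp only
                rw [mul_div_cancel₀ _ hlp.ne']; ring
            · right; right; exact ⟨h3, hx.2⟩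
      have hj0 : (0 : ℝ) ≤ j * (1 / (Λ * m)) := by positivity
      calc volume (Icc (0 : ℝ) 1 \ G) ≤ _ := measure_mono hsub
        _ ≤ (volume ((fun s => 0 + l * s) '' (Icc (0 : ℝ) 1 \ G')) +
          volume ((fun s => 1 / 2 + l * s) '' (Icc (0 : ℝ) 1 \ G'))) +
          (volume (Icc l (1 / 2)) + volume (Icc (1 / 2 + l) 1)) :=
            (measure_union_le _ _).trans (add_le_add (measure_union_le _ _) (measure_union_le _ _))
        _ = (ENNReal.ofReal l * volume (Icc (0 : ℝ) 1 \ G') +
          ENNReal.ofReal l * volume (Icc (0 : ℝ) 1 \ G')) +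
          (ENNReal.ofReal (1 / 2 - l) + ENNReal.ofReal (1 - (1 / 2 + l))) := by
            rw [volume_affine_image _ hlp, volume_affine_image _ hlp, Real.volume_Icc,
              Real.volume_Icc]
        _ ≤ (ENNReal.ofReal l * ENNReal.ofReal (j * (1 / (Λ * m))) +
          ENNReal.ofReal l * ENNReal.ofReal (j * (1 / (Λ * m)))) +
          (ENNReal.ofReal (1 / 2 - l) + ENNReal.ofReal (1 - (1 / 2 + l))) := by gcongr
        _ = ENNReal.ofReal ((l * (j * (1 / (Λ * m))) + l * (j * (1 / (Λ * m)))) +
          ((1 / 2 - l) + (1 - (1 / 2 + l)))) := by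
            rw [← ENNReal.ofReal_mul hlp.le, ← ENNReal.ofReal_add (by positivity) (by positivity),
              ← ENNReal.ofReal_add (by linarith) (by linarith),
              ← ENNReal.ofReal_add (by positivity) (by linarith)]
        _ ≤ ENNReal.ofReal (((j + 1 : ℕ) : ℝ) * (1 / (Λ * m))) := by
            apply ENNReal.ofReal_le_ofReal
            push_cast
            rw [← hq]
            rw [← hq] at hj0
            rw [hl]
            nlinarith
    · intro τ hτ1 hτ2
      rcases le_total (((k : ℝ) + 1) / m) τ with h | h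
      · have hI := himg' τ h hτ2
        have hsub : (fun s => H s + τ * s) '' G ⊆
            ((fun y => 0 + l * y) '' ((fun s => H' s + τ * s) '' G')) ∪
            ((fun y => (P (1 / 2) + τ / 2) + l * y) '' ((fun s => H' s + τ * s) '' G')) := by
          rintro _ ⟨x, hx, rfl⟩
          rcases hx with ⟨s, hs, rfl⟩ | ⟨s, hs, rfl⟩
          · left
            refine ⟨_, ⟨s, hs, rfl⟩, ?_⟩
            simp only
            rw [hHl s (hG01' hs)]; ring
          · right
            refine ⟨_, ⟨s, hs, rfl⟩, ?_⟩
            simp only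
            rw [hHr s (hG01' hs)]; ring
        calc volume ((fun s => H s + τ * s) '' G) ≤ _ := measure_mono hsub
          _ ≤ _ := measure_union_le _ _
          _ = ENNReal.ofReal l * volume ((fun s => H' s + τ * s) '' G') +
            ENNReal.ofReal l * volume ((fun s => H' s + τ * s) '' G') := by
              rw [volume_affine_image _ hlp, volume_affine_image _ hlp]
          _ ≤ ENNReal.ofReal l * ENNReal.ofReal (4 / m) + ENNReal.ofReal l * ENNReal.ofReal (4 / m) := by
              gcongr
          _ = ENNReal.ofReal (l * (4 / m) + l * (4 / m)) := by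
              rw [← ENNReal.ofReal_mul hlp.le, ← ENNReal.ofReal_add (by positivity) (by positivity)]
          _ ≤ ENNReal.ofReal (4 / m) := by
              apply ENNReal.ofReal_le_ofReal
              have : 0 < 4 / (m : ℝ) := by positivity
              nlinarith
      · have hG01 : G ⊆ Icc 0 1 := by
          rintro x (⟨s, hs, rfl⟩ | ⟨s, hs, rfl⟩)
          · have h1 := hG01' hs
            have h2 : 0 ≤ l * s := mul_nonneg hlp.le h1.1
            have h3 : l * s ≤ l := by nlinarith [h1.2]
            constructor <;> simp only <;> linarith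
          · have h1 := hG01' hs
            have h2 : 0 ≤ l * s := mul_nonneg hlp.le h1.1
            have h3 : l * s ≤ l := by nlinarith [h1.2]
            constructor <;> simp only <;> linarith
        have hsub : (fun s => H s + τ * s) '' G ⊆ Icc (-(2 / (m : ℝ))) (2 / m) := by
          rintro _ ⟨s, hs, rfl⟩
          have hs1 := hG01 hs
          have h1 := hHdev s hs1
          have h2 : H s + τ * s = (H s + (k : ℝ) / m * s) + (τ - (k : ℝ) / m) * s := by ring
          have h3 : (τ - (k : ℝ) / m) ≤ 1 / m := by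
            have : ((k : ℝ) + 1) / m = (k : ℝ) / m + 1 / m := by ring
            linarith
          have h4 : 0 ≤ τ - (k : ℝ) / m := by linarith
          have h5 : 0 ≤ (τ - (k : ℝ) / m) * s := mul_nonneg h4 hs1.1
          have h6 : (τ - (k : ℝ) / m) * s ≤ 1 / m := by
            calc (τ - (k : ℝ) / m) * s ≤ (1 / m) * 1 := by
                  apply mul_le_mul h3 hs1.2 hs1.1 (by positivity)
              _ = 1 / m := mul_one _
          have h7 : 2 / (m : ℝ) = 1 / m + 1 / m := by ring
          rw [abs_le] at h1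
          simp only
          rw [h2]
          constructor
          · rw [h7]
            have h9 : 0 < 1 / (m : ℝ) := by positivity
            linarith [h1.1]
          · rw [h7]; linarith [h1.2]
        calc _ ≤ _ := measure_mono hsub
          _ = ENNReal.ofReal (4 / m) := by
              rw [Real.volume_Icc]; congr 1; ring

/-- the construction on `[-1, 1]`. -/
theorem one_dim' {m : ℕ} (hm : 2 ≤ m) {Λ : ℝ} (hΛ : 1 ≤ Λ) :
    ∃ (h : ℝ → ℝ) (G : Set ℝ), (∀ x y, |h x - h y| ≤ Λ * |x - y|) ∧
      IsCompact G ∧ G ⊆ Icc (-1) 1 ∧ volume (Icc (-1 : ℝ) 1 \ G) ≤ ENNReal.ofReal (2 / Λ) ∧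
      ∀ τ : ℝ, 0 ≤ τ → τ ≤ 1 →
        volume ((fun s => h s + τ * s) '' G) ≤ ENNReal.ofReal (8 / m) := by
  have hmp : (0 : ℝ) < m := by exact_mod_cast (show 0 < m by omega)
  have hΛp : 0 < Λ := by linarith
  obtain ⟨H, G', hlip, h0, h1, hdev, hGc, hG01, hGv, himg⟩ := one_dim hm hΛ m 0 (by omega)
  refine ⟨fun s => 2 * H ((s + 1) / 2), (fun u => -1 + 2 * u) '' G', ?_, hGc.image (by fun_prop),
    ?_, ?_, ?_⟩
  · intro x y
    have h2 := hlip ((x + 1) / 2) ((y + 1) / 2)
    have h3 : (x + 1) / 2 - (y + 1) / 2 = (x - y) / 2 := by ring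
    rw [h3, abs_div, abs_of_pos (by norm_num : (0:ℝ) < 2)] at h2
    rw [← mul_sub, abs_mul, abs_of_pos (by norm_num : (0:ℝ) < 2)]
    linarith
  · rintro _ ⟨u, hu, rfl⟩
    have := hG01 hu
    constructor
    · simp only; linarith [this.1]
    · simp only; linarith [this.2]
  · have hsub : Icc (-1 : ℝ) 1 \ ((fun u => -1 + 2 * u) '' G') ⊆
        (fun u => -1 + 2 * u) '' (Icc (0 : ℝ) 1 \ G') := by
      rintro x ⟨hx, hxG⟩
      refine ⟨(x + 1) / 2, ⟨⟨by linarith [hx.1], by linarith [hx.2]⟩, ?_⟩, by simp only; ring⟩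
      intro hcon
      exact hxG ⟨(x + 1) / 2, hcon, by simp only; ring⟩
    calc _ ≤ _ := measure_mono hsub
      _ = ENNReal.ofReal 2 * volume (Icc (0 : ℝ) 1 \ G') := volume_affine_image _ (by norm_num) _
      _ ≤ ENNReal.ofReal 2 * ENNReal.ofReal (m * (1 / (Λ * m))) := by gcongr
      _ = ENNReal.ofReal (2 / Λ) := by
          rw [← ENNReal.ofReal_mul (by norm_num)]
          congr 1
          field_simp
  · intro τ hτ0 hτ1
    have hI := himg τ (by simpa using hτ0) hτ1
    have heq : (fun s => 2 * H ((s + 1) / 2) + τ * s) '' ((fun u => -1 + 2 * u) '' G') =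
        (fun y => -τ + 2 * y) '' ((fun s => H s + τ * s) '' G') := by
      rw [Set.image_image, Set.image_image]
      apply Set.image_congr
      intro u _
      have : (-1 + 2 * u + 1) / 2 = u := by ring
      rw [this]; ring
    rw [heq, volume_affine_image _ (by norm_num)]
    calc ENNReal.ofReal 2 * volume ((fun s => H s + τ * s) '' G')
        ≤ ENNReal.ofReal 2 * ENNReal.ofReal (4 / m) := by gcongr
      _ = ENNReal.ofReal (8 / m) := by
          rw [← ENNReal.ofReal_mul (by norm_num)]
          congr 1; ring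

end Pool.Agent.W769.Iso
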