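import Pool.Agent.W769.Iso.Slices

set_option autoImplicit false

open MeasureTheory Set Finset Topology Filter

namespace Pool.Agent.W769.Iso

open Pool.Agent.W769.Kak

variable {d : ℕ}

/-- the weights are bounded -/
theorem weight_le (t : Fin (d + 1) → ℝ)
    (ht : ∀ i j, i ≠ j → 1 / ((d : ℝ) + 1) ≤ |t i - t j|) (i : Fin (d + 1)) :
    |(∏ j ∈ univ.erase i, (t i - t j))⁻¹| ≤ ((d : ℝ) + 1) ^ d := by
  rw [abs_inv, Finset.abs_prod]
  have h1 : (1 / ((d : ℝ) + 1)) ^ d ≤ ∏ j ∈ univ.erase i, |t i - t j| := by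
    calc (1 / ((d : ℝ) + 1)) ^ d = ∏ _j ∈ univ.erase i, (1 / ((d : ℝ) + 1)) := by
          rw [Finset.prod_const, Finset.card_erase_of_mem (Finset.mem_univ i), Finset.card_univ,
            Fintype.card_fin, Nat.add_sub_cancel]
      _ ≤ _ := Finset.prod_le_prod (fun _ _ => by positivity) fun j hj =>
          ht i j (Finset.ne_of_mem_erase hj).symm
  calc (∏ j ∈ univ.erase i, |t i - t j|)⁻¹ ≤ ((1 / ((d : ℝ) + 1)) ^ d)⁻¹ := by gcongr
    _ = ((d : ℝ) + 1) ^ d := by rw [one_div, inv_pow, inv_inv]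

theorem integral_bump_pos (d : ℕ) : 0 < ∫ v, bump d v := (bump d).integral_pos

/-- sum over the heights -/
theorem sum_heights {κ : (Fin d → ℝ) → ℝ} {M : ℝ} (hκ : IsKernel κ M)
    {a : (Fin d → ℝ) → Fin d → ℝ} (ha : Continuous a) {ρ : ℝ} (hρ : 0 < ρ)
    (t : Fin (d + 1) → ℝ) (hinj : Function.Injective t) :
    ∑ i, (∫ v, bump d v * (GM (fm κ a ρ (t i)) v).det) * (∏ j ∈ univ.erase i, (t i - t j))⁻¹ =
      ∫ v, bump d v := by
  have hGc : ∀ i, Continuous (GM (fm κ a ρ (t i))) := fun i =>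
    continuous_GM fun j => (hκ.contDiff_fm hρ ha (t i) j).of_le (by norm_num)
  have hint : ∀ i, Integrable (fun v => bump d v * (GM (fm κ a ρ (t i)) v).det *
      (∏ j ∈ univ.erase i, (t i - t j))⁻¹) := by
    intro i
    apply Integrable.mul_const
    exact ((bump d).continuous.mul (hGc i).matrix_det).integrable_of_hasCompactSupport
      (bump d).hasCompactSupport.mul_right
  simp_rw [← integral_mul_const]
  rw [← integral_finsetSum _ fun i _ => hint i]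
  congr 1
  funext v
  have h1 := det_weights (GM (fun i => mol κ ρ (fun v => a v i)) v) t hinj
  simp_rw [div_eq_mul_inv] at h1
  simp_rw [hκ.GM_fm hρ ha, mul_assoc]
  rw [← Finset.mul_sum, h1, mul_one]

/-- **Quantitative slices** -/
theorem slices_quant (hd : 2 ≤ d) {α : ℝ} (hα1 : α ≤ 1) (hγ : 0 < α * d - d + 1) :
    ∃ c : ℝ, 0 < c ∧ ∀ (H : ℝ) (a : (Fin d → ℝ) → Fin d → ℝ), 0 ≤ H → Hol a H α →
      ∀ t : Fin (d + 1) → ℝ, (∀ i, |t i| ≤ 1) →
        (∀ i j, i ≠ j → 1 / ((d : ℝ) + 1) ≤ |t i - t j|) →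
        ∀ R : ℝ, 0 < R → (∀ i, volume ((fun v => a v + t i • v) '' Metric.closedBall 0 1) <
          ENNReal.ofReal (R ^ d)) →
        c * (1 + H) ^ (-((d : ℝ) - 1) / (α * d - d + 1)) ≤ R := by
  have hdpos : (0 : ℝ) < d := by exact_mod_cast (show 0 < d by omega)
  have hd2 : (2 : ℝ) ≤ d := by exact_mod_cast hd
  have hα : 0 < α := by
    by_contra h
    push Not at h
    nlinarith
  obtain ⟨κ, M, hκ⟩ := exists_kernel d
  have hM : 0 ≤ M := (abs_nonneg _).trans (hκ.bound 0)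
  obtain ⟨N, hN0, hN⟩ := exists_N d
  set γ := α * d - d + 1 with hγdef
  set I0 := ∫ v, bump d v with hI0
  have hI0p : 0 < I0 := integral_bump_pos d
  -- constants
  set W : ℝ := ((d : ℝ) + 1) * ((d : ℝ) + 1) ^ d with hW
  have hWp : 0 < W := by positivity
  set c2 : ℝ := W * (2 * (d * (d.factorial * (N + 1)))) with hc2
  have hc2p : 0 < c2 := by positivity
  have hr1 : (1 / 2 : ℝ) ^ γ < 1 := Real.rpow_lt_one (by norm_num) (by norm_num) hγ
  have hinvp : 0 < (1 - (1 / 2 : ℝ) ^ γ)⁻¹ := inv_pos.2 (by linarith)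
  set c3 : ℝ := W * (d * (d.factorial * (N + 1)) * 2 ^ d * (1 - (1 / 2 : ℝ) ^ γ)⁻¹) with hc3
  have hc3p : 0 < c3 := by positivity
  set κ1 : ℝ := min 1 (I0 / (2 * c3)) with hκ1
  have hκ1p : 0 < κ1 := lt_min one_pos (by positivity)
  set M1 : ℝ := M * 2 ^ d + 1 with hM1
  have hM1p : 0 < M1 := by positivity
  set e : ℝ := (1 - α) * (d - 1) / γ with he
  have he0 : 0 ≤ e := by
    apply div_nonneg _ hγ.le
    apply mul_nonneg <;> linarith
  set c4 : ℝ := I0 / (2 * c2) * κ1 ^ e * M1 ^ (-((d : ℝ) - 1) / γ) with hc4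
  have hc4p : 0 < c4 := by positivity
  refine ⟨c4, hc4p, ?_⟩
  intro H a hH ha t ht ht2 R hR hvol
  have hac := ha.continuous hα
  set B := M * (2 ^ d * H) + 1 with hB
  have hB1 : 1 ≤ B := by
    have : 0 ≤ M * (2 ^ d * H) := by positivity
    linarith
  have hBp : 0 < B := by linarith
  have hBM : B ≤ M1 * (1 + H) := by
    rw [hB, hM1]
    have : 0 ≤ M * 2 ^ d := by positivity
    nlinarith
  -- the scale
  set ρ : ℝ := (κ1 * (B ^ d)⁻¹) ^ (1 / γ) with hρdef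
  have hbase : 0 < κ1 * (B ^ d)⁻¹ := by positivity
  have hρ : 0 < ρ := by positivity
  have hργ : ρ ^ γ = κ1 * (B ^ d)⁻¹ := by
    rw [hρdef, ← Real.rpow_mul hbase.le, one_div_mul_cancel hγ.ne', Real.rpow_one]
  have hρ1 : ρ ≤ 1 := by
    apply Real.rpow_le_one hbase.le _ (by positivity)
    have h1 : (B ^ d)⁻¹ ≤ 1 := inv_le_one_of_one_le₀ (one_le_pow₀ hB1)
    calc κ1 * (B ^ d)⁻¹ ≤ 1 * 1 := by
          gcongr
          exact min_le_left _ _
      _ = 1 := by ring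
  have hinj : Function.Injective t := by
    intro i j hij
    by_contra h
    have := ht2 i j h
    rw [hij, sub_self, abs_zero] at this
    have h2 : 0 < 1 / ((d : ℝ) + 1) := by positivity
    linarith
  -- cutoffs
  have hcut : ∀ i, ∃ (ε : ℝ) (g : (Fin d → ℝ) → ℝ), 0 < ε ∧ ContDiff ℝ 1 g ∧
      HasCompactSupport g ∧ (∀ y, |g y| ≤ 1) ∧
      (∀ y, ∀ x ∈ (fun v => a v + t i • v) '' Metric.closedBall 0 1, dist y x ≤ ε → g y = 1) ∧
      ∫⁻ x, ‖g x‖ₑ ≤ ENNReal.ofReal (R ^ d) := by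
    intro i
    apply exists_cutoff_small _ (hvol i)
    exact (isCompact_closedBall _ _).image (by fun_prop)
  choose ε g hε hg hgc hg1 hgN hgR using hcut
  -- a fine scale
  have hfine : ∀ᶠ n in atTop, ∀ i, M * (2 ^ d * H) * (sc ρ n) ^ α ≤ ε i := by
    rw [Filter.eventually_all]
    intro i
    have h1 : Tendsto (fun k => sc ρ k) atTop (𝓝 0) := by
      unfold sc
      have := (tendsto_pow_atTop_nhds_zero_of_lt_one (r := (1 / 2 : ℝ)) (by norm_num)
        (by norm_num)).const_mul ρ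
      simpa using this
    have h2 : Tendsto (fun k => M * (2 ^ d * H) * (sc ρ k) ^ α) atTop (𝓝 0) := by
      have h3 := (h1.rpow_const (p := α) (Or.inr hα.le)).const_mul (M * (2 ^ d * H))
      simpa [Real.zero_rpow hα.ne'] using h3
    exact ((tendsto_order.1 h2).2 _ (hε i)).mono fun _ h => le_of_lt h
  obtain ⟨n, hn⟩ := hfine.exists
  have hρn := sc_pos hρ n
  -- bound for each height
  have hJ : ∀ i, |∫ v, bump d v * (GM (fm κ a (sc ρ n) (t i)) v).det| ≤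
      2 * R * (d * (d.factorial * (N * (B * ρ ^ (α - 1)) ^ (d - 1)))) +
      d * (d.factorial * N) * ((2 * B) ^ d * ρ ^ γ) * (1 - (1 / 2 : ℝ) ^ γ)⁻¹ := by
    intro i
    have h1 : ∫ v, bump d v * (GM (fm κ a (sc ρ n) (t i)) v).det =
        T (bump d) (g i) (fm κ a (sc ρ n) (t i)) := by
      unfold T
      congr 1
      funext v
      by_cases hv : v ∈ tsupport (bump d)
      · have hmem : a v + t i • v ∈ (fun v => a v + t i • v) '' Metric.closedBall 0 1 := by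
          refine ⟨v, ?_, rfl⟩
          rw [tsupport_bump] at hv
          exact Metric.closedBall_subset_closedBall (by norm_num) hv
        have hdist : dist (fun j => fm κ a (sc ρ n) (t i) j v) (a v + t i • v) ≤ ε i := by
          rw [dist_pi_le_iff (hε i).le]
          intro j
          rw [Real.dist_eq]
          exact (fm_sub_le hκ ha hH hM hα hρn (t i) j v).trans (hn i)
        rw [hgN i _ _ hmem hdist, one_mul]
      · rw [image_eq_zero_of_notMem_tsupport hv]; ring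
    rw [h1]
    have h2 := T_tail (by omega) hκ ha hH hM hα hα1 hγ hN (hg i) (hg1 i) hρ hρ1 (ht i) n
    have h3 := T_iso hd hκ ha hH hM hα hα1 hN (hg i) (hgc i) (hg1 i) hR (hgR i) hρ hρ1 (ht i)
    have h4 := abs_add_le (T (bump d) (g i) (fm κ a (sc ρ n) (t i)) -
      T (bump d) (g i) (fm κ a ρ (t i))) (T (bump d) (g i) (fm κ a ρ (t i)))
    rw [sub_add_cancel] at h4
    linarith
  have hsum := sum_heights hκ hac hρn t hinj
  have hI : I0 ≤ W * (2 * R * (d * (d.factorial * (N * (B * ρ ^ (α - 1)) ^ (d - 1)))) +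
      d * (d.factorial * N) * ((2 * B) ^ d * ρ ^ γ) * (1 - (1 / 2 : ℝ) ^ γ)⁻¹) := by
    set Z := 2 * R * (d * (d.factorial * (N * (B * ρ ^ (α - 1)) ^ (d - 1)))) +
      d * (d.factorial * N) * ((2 * B) ^ d * ρ ^ γ) * (1 - (1 / 2 : ℝ) ^ γ)⁻¹ with hZ
    have hZ0 : 0 ≤ Z := by positivity
    calc I0 = |∑ i, (∫ v, bump d v * (GM (fm κ a (sc ρ n) (t i)) v).det) *
          (∏ j ∈ univ.erase i, (t i - t j))⁻¹| := by
          rw [hsum, abs_of_pos hI0p]
      _ ≤ ∑ i, |(∫ v, bump d v * (GM (fm κ a (sc ρ n) (t i)) v).det) *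
          (∏ j ∈ univ.erase i, (t i - t j))⁻¹| := Finset.abs_sum_le_sum_abs _ _
      _ ≤ ∑ _i : Fin (d + 1), Z * ((d : ℝ) + 1) ^ d := by
          refine Finset.sum_le_sum fun i _ => ?_
          rw [abs_mul]
          exact mul_le_mul (hJ i) (weight_le t ht2 i) (abs_nonneg _) hZ0
      _ = W * Z := by
          rw [Finset.sum_const, Finset.card_univ, Fintype.card_fin, nsmul_eq_mul, hW]
          push_cast
          ring
  -- conclusion
  have hpart1 : W * (d * (d.factorial * N) * ((2 * B) ^ d * ρ ^ γ) * (1 - (1 / 2 : ℝ) ^ γ)⁻¹) ≤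
      I0 / 2 := by
    rw [hργ]
    have h1 : (2 * B) ^ d * (κ1 * (B ^ d)⁻¹) = 2 ^ d * κ1 := by
      rw [mul_pow]
      field_simp
    rw [h1]
    have h2 : κ1 ≤ I0 / (2 * c3) := min_le_right _ _
    calc W * (d * (d.factorial * N) * (2 ^ d * κ1) * (1 - (1 / 2 : ℝ) ^ γ)⁻¹)
        ≤ W * (d * (d.factorial * (N + 1)) * (2 ^ d * κ1) * (1 - (1 / 2 : ℝ) ^ γ)⁻¹) := by
          gcongr
          linarith
      _ = c3 * κ1 := by rw [hc3]; ring
      _ ≤ c3 * (I0 / (2 * c3)) := by gcongr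
      _ = I0 / 2 := by field_simp
  have hpow : (ρ ^ (α - 1)) ^ (d - 1) = (κ1 * (B ^ d)⁻¹) ^ (-e) := by
    rw [hρdef, ← Real.rpow_natCast, ← Real.rpow_mul hρ.le, ← Real.rpow_mul hbase.le]
    congr 1
    rw [he, Nat.cast_sub (by omega), Nat.cast_one]
    ring
  have hpart2 : W * (2 * R * (d * (d.factorial * (N * (B * ρ ^ (α - 1)) ^ (d - 1))))) ≤
      c2 * R * (B ^ (d - 1) * (κ1 * (B ^ d)⁻¹) ^ (-e)) := by
    rw [mul_pow, hpow]
    calc W * (2 * R * (d * (d.factorial * (N * (B ^ (d - 1) * (κ1 * (B ^ d)⁻¹) ^ (-e))))))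
        ≤ W * (2 * R * (d * (d.factorial * ((N + 1) * (B ^ (d - 1) * (κ1 * (B ^ d)⁻¹) ^ (-e)))))) := by
          gcongr
          linarith
      _ = _ := by rw [hc2]; ring
  have hmain : I0 / 2 ≤ c2 * R * (B ^ (d - 1) * (κ1 * (B ^ d)⁻¹) ^ (-e)) := by
    rw [mul_add] at hI
    linarith
  -- the power of B
  have hBpow : B ^ (d - 1) * (κ1 * (B ^ d)⁻¹) ^ (-e) = κ1 ^ (-e) * B ^ (((d : ℝ) - 1) / γ) := by
    rw [Real.mul_rpow hκ1p.le (by positivity), ← Real.rpow_natCast B d, ← Real.rpow_neg hBp.le,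
      ← Real.rpow_mul hBp.le, ← Real.rpow_natCast B (d - 1), mul_left_comm, ← Real.rpow_add hBp]
    congr 2
    rw [he, Nat.cast_sub (by omega), Nat.cast_one]
    field_simp
    rw [hγdef]
    ring
  rw [hBpow] at hmain
  have hBle : B ^ (((d : ℝ) - 1) / γ) ≤ (M1 * (1 + H)) ^ (((d : ℝ) - 1) / γ) := by
    apply Real.rpow_le_rpow hBp.le hBM
    apply div_nonneg _ hγ.le
    linarith
  have hmain2 : I0 / 2 ≤ c2 * R * (κ1 ^ (-e) * (M1 * (1 + H)) ^ (((d : ℝ) - 1) / γ)) := by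
    refine hmain.trans ?_
    gcongr
  have hH1 : 0 < 1 + H := by linarith
  rw [Real.mul_rpow hM1p.le hH1.le] at hmain2
  rw [hc4]
  have hq1 : M1 ^ (-((d : ℝ) - 1) / γ) = (M1 ^ (((d : ℝ) - 1) / γ))⁻¹ := by
    rw [neg_div, Real.rpow_neg hM1p.le]
  have hq2 : (1 + H) ^ (-((d : ℝ) - 1) / γ) = ((1 + H) ^ (((d : ℝ) - 1) / γ))⁻¹ := by
    rw [neg_div, Real.rpow_neg hH1.le]
  have hq3 : κ1 ^ (-e) = (κ1 ^ e)⁻¹ := Real.rpow_neg hκ1p.le _
  rw [hq3] at hmain2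
  rw [hq1, hq2]
  have hA : 0 < M1 ^ (((d : ℝ) - 1) / γ) := by positivity
  have hC : 0 < (1 + H) ^ (((d : ℝ) - 1) / γ) := by positivity
  have hD : 0 < κ1 ^ e := by positivity
  have hfin : I0 / (2 * c2) * κ1 ^ e * (M1 ^ (((d : ℝ) - 1) / γ))⁻¹ *
      ((1 + H) ^ (((d : ℝ) - 1) / γ))⁻¹ =
      (I0 / 2) * (c2⁻¹ * κ1 ^ e * (M1 ^ (((d : ℝ) - 1) / γ))⁻¹ *
      ((1 + H) ^ (((d : ℝ) - 1) / γ))⁻¹) := by
    field_simp
  rw [hfin]
  calc (I0 / 2) * (c2⁻¹ * κ1 ^ e * (M1 ^ (((d : ℝ) - 1) / γ))⁻¹ *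
      ((1 + H) ^ (((d : ℝ) - 1) / γ))⁻¹)
      ≤ (c2 * R * ((κ1 ^ e)⁻¹ * (M1 ^ (((d : ℝ) - 1) / γ) * (1 + H) ^ (((d : ℝ) - 1) / γ)))) *
        (c2⁻¹ * κ1 ^ e * (M1 ^ (((d : ℝ) - 1) / γ))⁻¹ *
      ((1 + H) ^ (((d : ℝ) - 1) / γ))⁻¹) := by gcongr
    _ = R := by field_simp

end Pool.Agent.W769.Iso
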