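import Pool.Agent.W769.Iso.OneDim
import Pool.Agent.W769.Iso.DensVol

set_option autoImplicit false
set_option maxHeartbeats 1000000

open MeasureTheory Set Filter Topology
open scoped ENNReal

namespace Pool.Agent.W769.Iso

/-- slicing along the first coordinate -/
theorem volume_eq_slices' {k : ℕ} {Z : Set (Fin (k + 1) → ℝ)} (hZ : MeasurableSet Z) :
    volume Z = ∫⁻ y : Fin k → ℝ, volume {x : ℝ | (Fin.cons x y : Fin (k + 1) → ℝ) ∈ Z} := by
  have hmp := volume_preserving_piFinSuccAbove (fun _ : Fin (k + 1) => ℝ) 0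
  set e := MeasurableEquiv.piFinSuccAbove (fun _ : Fin (k + 1) => ℝ) 0 with he
  have h1 : (volume : Measure (ℝ × (Fin k → ℝ))) (e.symm ⁻¹' Z) = volume Z := by
    rw [← hmp.measure_preimage_equiv]
    rw [← preimage_comp]
    simp
  have hZ' : MeasurableSet (e.symm ⁻¹' Z) := e.symm.measurable hZ
  have h5 : ∀ y : Fin k → ℝ, {x : ℝ | (Fin.cons x y : Fin (k + 1) → ℝ) ∈ Z} =
        (fun x => (x, y)) ⁻¹' (e.symm ⁻¹' Z) := by
    intro y
    ext x
    have : e.symm (x, y) = (Fin.cons x y : Fin (k + 1) → ℝ) := by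
      rw [he]
      exact Fin.insertNth_zero' x y
    rw [Set.mem_preimage, Set.mem_preimage, this]
    rfl
  simp_rw [h5]
  rw [← h1]
  exact Measure.prod_apply_symm hZ'

/-- sheared product sets -/
theorem volume_shear {k : ℕ} (c : Fin k → ℝ) {R : ℝ} (hR : 0 ≤ R) {J : Set ℝ}
    (hJ : MeasurableSet J) :
    volume {y : Fin (k + 1) → ℝ | ‖Fin.tail y‖ ≤ R ∧ y 0 + ∑ j, c j * Fin.tail y j ∈ J} =
      ENNReal.ofReal ((2 * R) ^ k) * volume J := by
  have hm : MeasurableSet {y : Fin (k + 1) → ℝ | ‖Fin.tail y‖ ≤ R ∧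
      y 0 + ∑ j, c j * Fin.tail y j ∈ J} := by
    have h1 : Continuous (fun y : Fin (k + 1) → ℝ => ‖Fin.tail y‖) := by
      apply Continuous.norm
      unfold Fin.tail
      fun_prop
    have h2 : Continuous (fun y : Fin (k + 1) → ℝ => y 0 + ∑ j, c j * Fin.tail y j) := by
      unfold Fin.tail
      fun_prop
    exact (isClosed_le h1 continuous_const).measurableSet.inter (h2.measurable hJ)
  rw [volume_eq_slices' hm]
  have h3 : ∀ y : Fin k → ℝ, volume {x : ℝ | (Fin.cons x y : Fin (k + 1) → ℝ) ∈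
      {y : Fin (k + 1) → ℝ | ‖Fin.tail y‖ ≤ R ∧ y 0 + ∑ j, c j * Fin.tail y j ∈ J}} =
      (Metric.closedBall (0 : Fin k → ℝ) R).indicator (fun _ => volume J) y := by
    intro y
    by_cases hy : ‖y‖ ≤ R
    · rw [Set.indicator_of_mem (by simpa using hy)]
      have h4 : {x : ℝ | (Fin.cons x y : Fin (k + 1) → ℝ) ∈
          {y : Fin (k + 1) → ℝ | ‖Fin.tail y‖ ≤ R ∧ y 0 + ∑ j, c j * Fin.tail y j ∈ J}} =
          (fun x => x + ∑ j, c j * y j) ⁻¹' J := by
        ext x
        simp only [Set.mem_ofPred_eq, Fin.tail_cons, Fin.cons_zero, Set.mem_preimage]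
        exact ⟨fun h => h.2, fun h => ⟨hy, h⟩⟩
      rw [h4, measure_preimage_add_right]
    · rw [Set.indicator_of_notMem (by simpa using hy)]
      have h4 : {x : ℝ | (Fin.cons x y : Fin (k + 1) → ℝ) ∈
          {y : Fin (k + 1) → ℝ | ‖Fin.tail y‖ ≤ R ∧ y 0 + ∑ j, c j * Fin.tail y j ∈ J}} = ∅ := by
        ext x
        simp only [Set.mem_ofPred_eq, Fin.tail_cons, Set.mem_empty_iff_false, iff_false]
        exact fun h => hy h.1
      rw [h4, measure_empty]
  simp_rw [h3]
  rw [lintegral_indicator Metric.isClosed_closedBall.measurableSet, setLIntegral_const,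
    Real.volume_pi_closedBall _ hR, Fintype.card_fin, mul_comm]

/-- the map of the construction -/
noncomputable def bmap {k : ℕ} (L : ℝ) (g : ℝ → ℝ) (v : Fin (k + 1) → ℝ) : Fin (k + 1) → ℝ :=
  Fin.cons (g (v (Fin.last k))) (fun j : Fin k => L * v j.castSucc)

theorem bmap_lip {k : ℕ} {L : ℝ} (hL : 0 ≤ L) {g : ℝ → ℝ}
    (hg : ∀ x y, |g x - g y| ≤ L * |x - y|) (v w : Fin (k + 1) → ℝ) :
    ‖bmap L g v - bmap L g w‖ ≤ L * ‖v - w‖ := by
  rw [pi_norm_le_iff_of_nonneg (by positivity)]
  intro i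
  refine Fin.cases ?_ (fun j => ?_) i
  · simp only [bmap, Pi.sub_apply, Fin.cons_zero, Real.norm_eq_abs]
    refine (hg _ _).trans ?_
    gcongr
    exact norm_le_pi_norm (v - w) (Fin.last k)
  · simp only [bmap, Pi.sub_apply, Fin.cons_succ, Real.norm_eq_abs]
    rw [← mul_sub, abs_mul, abs_of_nonneg hL]
    gcongr
    exact norm_le_pi_norm (v - w) j.castSucc

/-- the linear combination -/
theorem comb {k : ℕ} {L : ℝ} (hL : L ≠ 0) (g : ℝ → ℝ) (t : ℝ) (v : Fin (k + 1) → ℝ) :
    (bmap L g v + t • v) 0 + ∑ j : Fin k, (-t / L) ^ ((j : ℕ) + 1) *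
      Fin.tail (bmap L g v + t • v) j =
      g (v (Fin.last k)) + t * ((-t / L) ^ k * v (Fin.last k)) := by
  have h1 : ∀ j : Fin k, (-t / L) ^ ((j : ℕ) + 1) * Fin.tail (bmap L g v + t • v) j =
      t * ((-t / L) ^ ((j : ℕ) + 1) * v j.succ) - t * ((-t / L) ^ (j : ℕ) * v j.castSucc) := by
    intro j
    simp only [Fin.tail, Pi.add_apply, bmap, Fin.cons_succ, Pi.smul_apply, smul_eq_mul]
    rw [pow_succ]
    field_simp
    ring
  simp_rw [h1]
  rw [Finset.sum_sub_distrib, ← Finset.mul_sum, ← Finset.mul_sum]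
  have h2 : ∑ i : Fin (k + 1), (-t / L) ^ (i : ℕ) * v i =
      v 0 + ∑ j : Fin k, (-t / L) ^ ((j : ℕ) + 1) * v j.succ := by
    rw [Fin.sum_univ_succ]
    simp
  have h3 : ∑ i : Fin (k + 1), (-t / L) ^ (i : ℕ) * v i =
      ∑ j : Fin k, (-t / L) ^ (j : ℕ) * v j.castSucc + (-t / L) ^ k * v (Fin.last k) := by
    rw [Fin.sum_univ_castSucc]
    simp
  have h4 : (bmap L g v + t • v) 0 = g (v (Fin.last k)) + t * v 0 := by
    simp [bmap]
  rw [h4]
  have h5 : v 0 + ∑ j : Fin k, (-t / L) ^ ((j : ℕ) + 1) * v j.succ =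
    ∑ j : Fin k, (-t / L) ^ (j : ℕ) * v j.castSucc + (-t / L) ^ k * v (Fin.last k) := by
    rw [← h2, h3]
  linear_combination t * h5

/-- **Sharpness**: families with small unions over most directions. -/
theorem sharp (k : ℕ) {L : ℝ} (hL : 1 ≤ L) {ε : ℝ} (hε : 0 < ε) :
    ∃ (a : (Fin (k + 1) → ℝ) → Fin (k + 1) → ℝ) (G : Set (Fin (k + 1) → ℝ))
      (U : Set (Fin (k + 1 + 1) → ℝ)) (δ : ℝ),
      (∀ v w, ‖a v - a w‖ ≤ L * ‖v - w‖) ∧ IsCompact G ∧ G ⊆ Metric.closedBall 0 1 ∧
      volume (Metric.closedBall (0 : Fin (k + 1) → ℝ) 1 \ G) ≤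
        ENNReal.ofReal (2 ^ (k + 1) / L ^ (k + 1)) ∧
      IsOpen U ∧ volume U ≤ ENNReal.ofReal ε ∧ 0 < δ ∧ ∀ v ∈ G, Tb δ a v ⊆ U := by
  have hLp : 0 < L := by linarith
  -- choice of m
  obtain ⟨m0, hm0⟩ := exists_nat_gt (4 ^ k * 8 / ε)
  set m := m0 + 2 with hm
  have hm2 : 2 ≤ m := by omega
  have hmp : (0 : ℝ) < m := by exact_mod_cast (show 0 < m by omega)
  have hmε : 4 ^ k * (8 / (m : ℝ)) < ε := by
    have h1 : 4 ^ k * 8 / ε < m := by
      refine hm0.trans ?_
      rw [hm]; push_cast; linarith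
    rw [div_lt_iff₀ hε] at h1
    rw [← mul_div_assoc, div_lt_iff₀ hmp]
    linarith
  have hΛ : 1 ≤ L ^ (k + 1) := one_le_pow₀ hL
  obtain ⟨h, G1, hlip, hG1c, hG1s, hG1v, himg⟩ := one_dim' hm2 hΛ
  -- the scalar function
  set s : ℝ := (-1) ^ k / L ^ k with hs
  have hsabs : |s| = 1 / L ^ k := by
    rw [hs, abs_div, abs_pow, abs_neg, abs_one, one_pow, abs_of_pos (by positivity)]
  have hs0 : s ≠ 0 := by
    rw [← abs_pos, hsabs]; positivity
  set g : ℝ → ℝ := fun x => s * h x with hg
  have hglip : ∀ x y, |g x - g y| ≤ L * |x - y| := by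
    intro x y
    rw [hg]
    simp only
    rw [← mul_sub, abs_mul, hsabs]
    calc 1 / L ^ k * |h x - h y| ≤ 1 / L ^ k * (L ^ (k + 1) * |x - y|) := by
          gcongr
          exact hlip x y
      _ = L * |x - y| := by rw [pow_succ]; field_simp
  set a := bmap (k := k) L g with ha
  have halip : ∀ v w, ‖a v - a w‖ ≤ L * ‖v - w‖ := bmap_lip hLp.le hglip
  have hac : Continuous a := by
    have : Hol a L 1 := fun v w => by rw [Real.rpow_one]; exact halip v w
    exact this.continuous one_pos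
  set G : Set (Fin (k + 1) → ℝ) := Metric.closedBall 0 1 ∩ {v | v (Fin.last k) ∈ G1} with hG
  have hGc : IsCompact G := (isCompact_closedBall _ _).inter_right
    (hG1c.isClosed.preimage (continuous_apply _))
  have hGs : G ⊆ Metric.closedBall 0 1 := Set.inter_subset_left
  -- complement
  have hGv : volume (Metric.closedBall (0 : Fin (k + 1) → ℝ) 1 \ G) ≤
      ENNReal.ofReal (2 ^ (k + 1) / L ^ (k + 1)) := by
    have hsub : Metric.closedBall (0 : Fin (k + 1) → ℝ) 1 \ G ⊆
        Set.pi univ (fun i : Fin (k + 1) => if i = Fin.last k then Icc (-1 : ℝ) 1 \ G1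
          else Icc (-1) 1) := by
      rintro v ⟨hv, hvG⟩
      have hv' : ∀ i, v i ∈ Icc (-1 : ℝ) 1 := by
        intro i
        rw [Metric.mem_closedBall, dist_zero_right] at hv
        have := (norm_le_pi_norm v i).trans hv
        rwa [Real.norm_eq_abs, abs_le] at this
      intro i _
      by_cases hi : i = Fin.last k
      · simp only [hi, if_true]
        refine ⟨hv' _, fun hcon => hvG ⟨hv, hcon⟩⟩
      · simp only [hi, if_false]
        exact hv' i
    calc _ ≤ _ := measure_mono hsub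
      _ = ∏ i : Fin (k + 1), volume (if i = Fin.last k then Icc (-1 : ℝ) 1 \ G1
          else Icc (-1) 1) := volume_pi_pi _
      _ = (∏ i : Fin k, volume (Icc (-1 : ℝ) 1)) * volume (Icc (-1 : ℝ) 1 \ G1) := by
          rw [Fin.prod_univ_castSucc]
          congr 1
          · refine Finset.prod_congr rfl fun i _ => ?_
            rw [if_neg (Fin.castSucc_lt_last i).ne]
          · rw [if_pos rfl]
      _ ≤ (∏ _i : Fin k, ENNReal.ofReal 2) * ENNReal.ofReal (2 / L ^ (k + 1)) := by
          have h1 : volume (Icc (-1 : ℝ) 1) = ENNReal.ofReal 2 := by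
            rw [Real.volume_Icc]; norm_num
          rw [h1]
          gcongr
      _ = ENNReal.ofReal (2 ^ (k + 1) / L ^ (k + 1)) := by
          rw [Finset.prod_const, Finset.card_univ, Fintype.card_fin,
            ← ENNReal.ofReal_pow (by norm_num), ← ENNReal.ofReal_mul (by positivity)]
          congr 1
          rw [pow_succ 2 k]; ring
  -- the slices
  have hslice : ∀ t ∈ Icc (0 : ℝ) 1, volume ((fun v => a v + t • v) '' G) ≤
      ENNReal.ofReal (4 ^ k * (8 / m)) := by
    intro t ht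
    have hτ0 : 0 ≤ t ^ (k + 1) := pow_nonneg ht.1 _
    have hτ1 : t ^ (k + 1) ≤ 1 := pow_le_one₀ ht.1 ht.2
    have hI := himg (t ^ (k + 1)) hτ0 hτ1
    set I := (fun x => h x + t ^ (k + 1) * x) '' G1 with hIdef
    set J := toMeasurable volume ((fun x => s * x) '' I) with hJ
    have hJm : MeasurableSet J := measurableSet_toMeasurable _ _
    have hJv : volume J ≤ ENNReal.ofReal (1 / L ^ k * (8 / m)) := by
      rw [hJ, measure_toMeasurable]
      have h1 : volume ((fun x => s * x) '' I) = ENNReal.ofReal |s| * volume I := by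
        rcases lt_or_gt_of_ne hs0 with hneg | hpos
        · have h2 : (fun x => s * x) '' I = Neg.neg ⁻¹' ((fun x => 0 + (-s) * x) '' I) := by
            ext y
            constructor
            · rintro ⟨x, hx, rfl⟩
              exact ⟨x, hx, by simp only; ring⟩
            · rintro ⟨x, hx, hxy⟩
              refine ⟨x, hx, ?_⟩
              simp only at hxy ⊢
              linarith
          rw [h2, Measure.measure_preimage_neg, volume_affine_image _ (by linarith),
            abs_of_neg hneg]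
        · have h2 : (fun x => s * x) '' I = (fun x => 0 + s * x) '' I := by
            apply Set.image_congr
            intro x _; ring
          rw [h2, volume_affine_image _ hpos, abs_of_pos hpos]
      rw [h1, hsabs, ENNReal.ofReal_mul (by positivity)]
      gcongr
    have hsub : (fun v => a v + t • v) '' G ⊆ {y : Fin (k + 1) → ℝ | ‖Fin.tail y‖ ≤ 2 * L ∧
        y 0 + ∑ j : Fin k, (-t / L) ^ ((j : ℕ) + 1) * Fin.tail y j ∈ J} := by
      rintro _ ⟨v, hv, rfl⟩
      have hv1 : ‖v‖ ≤ 1 := by simpa using hGs hv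
      constructor
      · rw [pi_norm_le_iff_of_nonneg (by positivity)]
        intro j
        simp only [Fin.tail, Pi.add_apply, ha, bmap, Fin.cons_succ, Pi.smul_apply, smul_eq_mul,
          Real.norm_eq_abs]
        have h1 : |v j.castSucc| ≤ 1 := (norm_le_pi_norm v j.castSucc).trans hv1
        have h2 : |v j.succ| ≤ 1 := (norm_le_pi_norm v j.succ).trans hv1
        calc |L * v j.castSucc + t * v j.succ| ≤ |L * v j.castSucc| + |t * v j.succ| :=
              abs_add_le _ _
          _ = L * |v j.castSucc| + t * |v j.succ| := by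
              rw [abs_mul, abs_mul, abs_of_pos hLp, abs_of_nonneg ht.1]
          _ ≤ L * 1 + 1 * 1 := by
              gcongr
              exact ht.2
          _ ≤ 2 * L := by linarith
      · apply subset_toMeasurable
        simp only
        rw [ha, comb hLp.ne']
        refine ⟨h (v (Fin.last k)) + t ^ (k + 1) * v (Fin.last k), ⟨_, hv.2, rfl⟩, ?_⟩
        simp only [hg, hs]
        rw [div_pow, neg_pow t k, pow_succ]
        field_simp
    calc volume ((fun v => a v + t • v) '' G) ≤ _ := measure_mono hsub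
      _ = ENNReal.ofReal ((2 * (2 * L)) ^ k) * volume J :=
          volume_shear (fun j : Fin k => (-t / L) ^ ((j : ℕ) + 1)) (by positivity) hJm
      _ ≤ ENNReal.ofReal ((2 * (2 * L)) ^ k) * ENNReal.ofReal (1 / L ^ k * (8 / m)) := by gcongr
      _ = ENNReal.ofReal (4 ^ k * (8 / m)) := by
          rw [← ENNReal.ofReal_mul (by positivity)]
          congr 1
          have h1 : (2 * (2 * L)) ^ k = 4 ^ k * L ^ k := by
            rw [← mul_pow]; congr 1; ring
          rw [h1]
          field_simp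
  -- the union
  set Φ : ℝ × (Fin (k + 1) → ℝ) → (Fin (k + 1 + 1) → ℝ) :=
    fun p => Fin.cons p.1 (a p.2 + p.1 • p.2) with hΦ
  have hΦc : Continuous Φ := by
    rw [continuous_pi_iff]
    intro i
    refine Fin.cases ?_ (fun j => ?_) i
    · simp only [hΦ, Fin.cons_zero]
      exact continuous_fst
    · simp only [hΦ, Fin.cons_succ, Pi.add_apply, Pi.smul_apply, smul_eq_mul]
      fun_prop
  set E := Φ '' (Icc (0 : ℝ) 1 ×ˢ G) with hE
  have hEc : IsCompact E := (isCompact_Icc.prod hGc).image hΦc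
  have hEv : volume E < ENNReal.ofReal ε := by
    rw [(volume_eq_slices hEc.measurableSet).2]
    calc ∫⁻ t : ℝ, volume {y : Fin (k + 1) → ℝ | (Fin.cons t y : Fin (k + 1 + 1) → ℝ) ∈ E}
        ≤ ∫⁻ t : ℝ, (Icc (0 : ℝ) 1).indicator (fun _ => ENNReal.ofReal (4 ^ k * (8 / m))) t := by
          refine lintegral_mono fun t => ?_
          by_cases ht : t ∈ Icc (0 : ℝ) 1
          · rw [Set.indicator_of_mem ht]
            refine (measure_mono ?_).trans (hslice t ht)
            rintro y ⟨⟨t', v⟩, hp, hpy⟩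
            have h1 : t' = t := by
              have := congrFun hpy 0
              simpa [hΦ] using this
            refine ⟨v, hp.2, ?_⟩
            have h2 : Fin.tail (Φ (t', v)) = y := by
              rw [hpy, Fin.tail_cons]
            rw [← h2, h1]
            simp [hΦ]
          · rw [Set.indicator_of_notMem ht, nonpos_iff_eq_zero]
            have h1 : {y : Fin (k + 1) → ℝ | (Fin.cons t y : Fin (k + 1 + 1) → ℝ) ∈ E} = ∅ := by
              ext y
              simp only [Set.mem_ofPred_eq, Set.mem_empty_iff_false, iff_false]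
              rintro ⟨⟨t', v⟩, hp, hpy⟩
              have h1 : t' = t := by
                have := congrFun hpy 0
                simpa [hΦ] using this
              exact ht (h1 ▸ hp.1)
            rw [h1, measure_empty]
      _ = ENNReal.ofReal (4 ^ k * (8 / m)) := by
          rw [lintegral_indicator measurableSet_Icc, setLIntegral_const, Real.volume_Icc, sub_zero,
            ENNReal.ofReal_one, mul_one]
      _ < ENNReal.ofReal ε := (ENNReal.ofReal_lt_ofReal_iff hε).2 hmε
  obtain ⟨U, hEU, hU, hUv⟩ := E.exists_isOpen_lt_of_lt (μ := volume) _ hEv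
  obtain ⟨δ, hδ, hδU⟩ := hEc.exists_cthickening_subset_open hU hEU
  refine ⟨a, G, U, δ, halip, hGc, hGs, hGv, hU, hUv.le, hδ, ?_⟩
  rintro v hv z ⟨hz0, hz⟩
  apply hδU
  refine Metric.mem_cthickening_of_dist_le z (Φ (z 0, v)) δ E ⟨(z 0, v), ⟨hz0, hv⟩, rfl⟩ ?_
  rw [dist_pi_le_iff hδ.le]
  intro i
  refine Fin.cases ?_ (fun j => ?_) i
  · simp only [hΦ, Fin.cons_zero, dist_self]
    exact hδ.le
  · simp only [hΦ, Fin.cons_succ]
    rw [dist_eq_norm]
    exact (norm_le_pi_norm (Fin.tail z - (a v + z 0 • v)) j).trans hz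

end Pool.Agent.W769.Iso
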