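import Pool.Agent.W769.Iso.Iso
import Pool.Agent.W769.Kak.Core

set_option autoImplicit false

open MeasureTheory Set Finset Topology Filter

namespace Pool.Agent.W769.Iso

open Pool.Agent.W769.Kak

variable {d : ℕ}

theorem lintegral_BD_le {η : (Fin d → ℝ) → ℝ} {F : Fin d → (Fin d → ℝ) → ℝ}
    (hηc : HasCompactSupport η) {N m : ℝ} (hN : ∀ v i, |pd η i v| ≤ N)
    (hm : ∀ v ∈ tsupport η, ∀ i j, |pd (F i) j v| ≤ m) :
    ∫⁻ v, ∑ j, ‖BD η F j v‖ₑ ≤
      ENNReal.ofReal (d * (d.factorial * (N * m ^ (d - 1)))) * volume (tsupport η) := by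
  rw [← setLIntegral_eq_of_support_subset (s := tsupport η)]
  · rw [← setLIntegral_const]
    refine setLIntegral_mono' hηc.measurableSet fun v hv => ?_
    have h1 : ∀ j, ‖BD η F j v‖ₑ ≤ ENNReal.ofReal (d.factorial * (N * m ^ (d - 1))) := by
      intro j
      rw [← ofReal_norm, Real.norm_eq_abs]
      apply ENNReal.ofReal_le_ofReal
      exact abs_det_updateCol_le _ _ _ (fun i k _ => hm v hv k i) (fun i => hN v i)
    calc ∑ j, ‖BD η F j v‖ₑ ≤ ∑ _j : Fin d, ENNReal.ofReal (d.factorial * (N * m ^ (d - 1))) :=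
          Finset.sum_le_sum fun j _ => h1 j
      _ = ENNReal.ofReal (d * (d.factorial * (N * m ^ (d - 1)))) := by
          rw [Finset.sum_const, Finset.card_univ, Fintype.card_fin, nsmul_eq_mul,
            ENNReal.ofReal_mul (by positivity : (0:ℝ) ≤ (d : ℝ)), ENNReal.ofReal_natCast]
  · intro v hv
    by_contra h
    apply hv
    simp only
    refine Finset.sum_eq_zero fun j _ => ?_
    rw [BD_eq_zero h, enorm_zero]

/-- cutoffs adapted to a compact set of small measure -/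
theorem exists_cutoff_small {C : Set (Fin d → ℝ)} (hC : IsCompact C) {m : ENNReal}
    (hm : volume C < m) :
    ∃ (ε : ℝ) (g : (Fin d → ℝ) → ℝ), 0 < ε ∧ ContDiff ℝ 1 g ∧ HasCompactSupport g ∧
      (∀ y, |g y| ≤ 1) ∧ (∀ y, ∀ x ∈ C, dist y x ≤ ε → g y = 1) ∧ ∫⁻ x, ‖g x‖ₑ ≤ m := by
  have h1 := tendsto_measure_cthickening_of_isCompact (μ := volume) hC
  have h2 : ∀ᶠ r in 𝓝[>] (0 : ℝ), volume (Metric.cthickening r C) < m :=
    ((tendsto_order.1 h1).2 m hm).filter_mono nhdsWithin_le_nhds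
  obtain ⟨δ, hδ1, hδ⟩ := (h2.and self_mem_nhdsWithin).exists
  obtain ⟨g, hg, hg1, hgN, hg0⟩ := exists_cutoff C hδ
  have hb : Bornology.IsBounded (Metric.cthickening δ C) := hC.isBounded.cthickening
  have hcc : IsCompact (Metric.cthickening δ C) := Metric.isCompact_of_isClosed_isBounded
    Metric.isClosed_cthickening hb
  refine ⟨δ / 2, g, by positivity, hg, ?_, hg1, ?_, ?_⟩
  · apply HasCompactSupport.intro hcc
    intro y hy
    exact hg0 y fun h => hy (Metric.thickening_subset_cthickening _ _ h)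
  · intro y x hx hyx
    exact hgN y (Metric.mem_cthickening_of_dist_le _ x _ _ hx hyx)
  · calc ∫⁻ x, ‖g x‖ₑ ≤ ∫⁻ x, (Metric.cthickening δ C).indicator 1 x := by
          refine lintegral_mono fun x => ?_
          by_cases hx : x ∈ Metric.cthickening δ C
          · rw [Set.indicator_of_mem hx, ← ofReal_norm, Real.norm_eq_abs]
            exact ENNReal.ofReal_le_one.2 (hg1 x)
          · rw [Set.indicator_of_notMem hx, hg0 x fun h => hx
              (Metric.thickening_subset_cthickening _ _ h)]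
            simp
      _ = volume (Metric.cthickening δ C) := by
          rw [lintegral_indicator_one Metric.isClosed_cthickening.measurableSet]
      _ ≤ m := hδ1.le

/-- the fixed bump -/
noncomputable def bump (d : ℕ) : ContDiffBump (0 : Fin d → ℝ) :=
  ⟨1 / 4, 1 / 2, by norm_num, by norm_num⟩

theorem exists_N (d : ℕ) : ∃ N : ℝ, 0 ≤ N ∧ ∀ v i, |pd (bump d) i v| ≤ N := by
  have hηs : ContDiff ℝ 1 (bump d) := (bump d).contDiff
  have hηc : HasCompactSupport (bump d) := (bump d).hasCompactSupport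
  have h1 : ∀ j, ∃ N : ℝ, ∀ y, |pd (bump d) j y| ≤ N := by
    intro j
    have h2 : HasCompactSupport (pd (bump d) j) := hηc.fderiv_apply ℝ _
    obtain ⟨M2, hM2⟩ := h2.exists_bound_of_continuous (continuous_pd hηs j)
    exact ⟨M2, hM2⟩
  choose N hN using h1
  have hN' : ∀ j, 0 ≤ N j := fun j => (abs_nonneg _).trans (hN j 0)
  refine ⟨∑ j, N j, Finset.sum_nonneg fun j _ => hN' j, fun v i => (hN i v).trans ?_⟩
  exact Finset.single_le_sum (fun j _ => hN' j) (Finset.mem_univ i)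

theorem tsupport_bump (d : ℕ) : tsupport (bump d) = Metric.closedBall 0 (1 / 2) :=
  (bump d).tsupport_eq

theorem volume_tsupport_bump (d : ℕ) : volume (tsupport (bump d)) = 1 := by
  rw [tsupport_bump, Real.volume_pi_closedBall _ (by norm_num)]
  simp

/-- Global Hölder condition -/
def Hol (a : (Fin d → ℝ) → Fin d → ℝ) (H α : ℝ) : Prop :=
  ∀ v w, ‖a v - a w‖ ≤ H * ‖v - w‖ ^ α

theorem Hol.continuous {a : (Fin d → ℝ) → Fin d → ℝ} {H α : ℝ} (h : Hol a H α) (hα : 0 < α) :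
    Continuous a := by
  rw [continuous_iff_continuousAt]
  intro v
  rw [ContinuousAt, tendsto_iff_norm_sub_tendsto_zero]
  have h1 : Tendsto (fun w => H * ‖w - v‖ ^ α) (𝓝 v) (𝓝 (H * 0)) := by
    apply Tendsto.const_mul
    have h2 : Tendsto (fun w => ‖w - v‖) (𝓝 v) (𝓝 0) := by
      have : Continuous (fun w : Fin d → ℝ => ‖w - v‖) := by fun_prop
      simpa using this.tendsto v
    have h3 := h2.rpow_const (p := α) (Or.inr hα.le)
    simpa [Real.zero_rpow hα.ne'] using h3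
  rw [mul_zero] at h1
  exact squeeze_zero (fun w => norm_nonneg _) (fun w => h w v) h1

theorem Hol.osc_le {a : (Fin d → ℝ) → Fin d → ℝ} {H α : ℝ} (h : Hol a H α) (hα : 0 < α)
    (hH : 0 ≤ H) {ρ : ℝ} (hρ : 0 < ρ) (v : Fin d → ℝ) : osc a ρ v ≤ 2 ^ d * (H * ρ ^ α) := by
  have ha := h.continuous hα
  have hdn : Continuous (fun y => ‖a (v - y) - a v‖) := by fun_prop
  unfold osc
  have h1 : ∫ y in Metric.closedBall (0 : Fin d → ℝ) ρ, ‖a (v - y) - a v‖ ≤
      ∫ y in Metric.closedBall (0 : Fin d → ℝ) ρ, H * ρ ^ α := by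
    apply setIntegral_mono_on
    · exact hdn.continuousOn.integrableOn_compact (isCompact_closedBall _ _)
    · exact continuous_const.continuousOn.integrableOn_compact (isCompact_closedBall _ _)
    · exact Metric.isClosed_closedBall.measurableSet
    · intro y hy
      rw [Metric.mem_closedBall, dist_zero_right] at hy
      have h2 := h (v - y) v
      rw [sub_sub_cancel_left, norm_neg] at h2
      refine h2.trans ?_
      gcongr
  have hvr : volume.real (Metric.closedBall (0 : Fin d → ℝ) ρ) = (2 * ρ) ^ d := by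
    rw [Measure.real, Real.volume_pi_closedBall _ hρ.le, Fintype.card_fin,
      ENNReal.toReal_ofReal (by positivity)]
  rw [setIntegral_const, hvr, smul_eq_mul] at h1
  calc (ρ ^ d)⁻¹ * ∫ y in Metric.closedBall (0 : Fin d → ℝ) ρ, ‖a (v - y) - a v‖
      ≤ (ρ ^ d)⁻¹ * ((2 * ρ) ^ d * (H * ρ ^ α)) := by gcongr
    _ = 2 ^ d * (H * ρ ^ α) := by rw [mul_pow]; field_simp


section hoelder

variable {κ : (Fin d → ℝ) → ℝ} {M : ℝ} {a : (Fin d → ℝ) → Fin d → ℝ} {H α : ℝ}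

theorem pd_fm_le (hκ : IsKernel κ M) (ha : Hol a H α) (hH : 0 ≤ H) (hM : 0 ≤ M)
    (hα : 0 < α) (hα1 : α ≤ 1) {ρ : ℝ} (hρ : 0 < ρ) (hρ1 : ρ ≤ 1) {t : ℝ} (ht : |t| ≤ 1)
    (i j : Fin d) (v : Fin d → ℝ) :
    |pd (fm κ a ρ t i) j v| ≤ (M * (2 ^ d * H) + 1) * ρ ^ (α - 1) := by
  have hac := ha.continuous hα
  rw [hκ.pd_fm hρ hac]
  have h2 := hκ.abs_pd_mol_le hρ hac i j v
  have h3 : |(if j = i then t else 0 : ℝ)| ≤ 1 := by split_ifs <;> simp [ht]
  have h4 : (1 : ℝ) ≤ ρ ^ (α - 1) :=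
    Real.one_le_rpow_of_pos_of_le_one_of_nonpos hρ hρ1 (by linarith)
  have h5 := ha.osc_le hα hH hρ v
  calc |pd (mol κ ρ (fun v => a v i)) j v + if j = i then t else 0|
      ≤ |pd (mol κ ρ (fun v => a v i)) j v| + |(if j = i then t else 0 : ℝ)| := abs_add_le _ _
    _ ≤ ρ⁻¹ * M * (2 ^ d * (H * ρ ^ α)) + 1 := by
        gcongr
        refine h2.trans ?_
        gcongr
    _ = M * (2 ^ d * H) * ρ ^ (α - 1) + 1 := by
        rw [Real.rpow_sub_one hρ.ne']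
        ring
    _ ≤ M * (2 ^ d * H) * ρ ^ (α - 1) + ρ ^ (α - 1) := by gcongr
    _ = _ := by ring

theorem fm_sub_le (hκ : IsKernel κ M) (ha : Hol a H α) (hH : 0 ≤ H) (hM : 0 ≤ M)
    (hα : 0 < α) {ρ : ℝ} (hρ : 0 < ρ) (t : ℝ) (i : Fin d) (v : Fin d → ℝ) :
    |fm κ a ρ t i v - (a v + t • v) i| ≤ M * (2 ^ d * H) * ρ ^ α := by
  have hac := ha.continuous hα
  have h3 := hκ.mol_sub_le hρ hac i v
  have h4 : fm κ a ρ t i v - (a v + t • v) i = mol κ ρ (fun v => a v i) v - a v i := by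
    simp only [fm, Pi.add_apply, Pi.smul_apply, smul_eq_mul]; ring
  rw [h4]
  refine h3.trans ?_
  have h5 := ha.osc_le hα hH hρ v
  calc M * osc a ρ v ≤ M * (2 ^ d * (H * ρ ^ α)) := by gcongr
    _ = _ := by ring

theorem T_step (hd : 1 ≤ d) (hκ : IsKernel κ M) (ha : Hol a H α) (hH : 0 ≤ H) (hM : 0 ≤ M)
    (hα : 0 < α) (hα1 : α ≤ 1) {N : ℝ} (hN : ∀ v i, |pd (bump d) i v| ≤ N)
    {g : (Fin d → ℝ) → ℝ} (hg : ContDiff ℝ 1 g) (hg1 : ∀ y, |g y| ≤ 1)
    {ρ : ℝ} (hρ : 0 < ρ) (hρ1 : ρ ≤ 1) {t : ℝ} (ht : |t| ≤ 1) :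
    |T (bump d) g (fm κ a (ρ / 2) t) - T (bump d) g (fm κ a ρ t)| ≤
      d * (d.factorial * N) * ((2 * (M * (2 ^ d * H) + 1)) ^ d * ρ ^ (α * d - d + 1)) := by
  have hac := ha.continuous hα
  set B := M * (2 ^ d * H) + 1 with hB
  have hB1 : 1 ≤ B := by
    have : 0 ≤ M * (2 ^ d * H) := by positivity
    linarith
  have hN0 : 0 ≤ N := (abs_nonneg _).trans (hN 0 ⟨0, hd⟩)
  have hρ2 : 0 < ρ / 2 := by positivity
  have hhalf : (ρ / 2) ^ (α - 1) ≤ 2 * ρ ^ (α - 1) := by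
    rw [div_eq_mul_inv, Real.mul_rpow hρ.le (by norm_num), Real.inv_rpow (by norm_num),
      ← Real.rpow_neg (by norm_num), mul_comm]
    gcongr
    calc (2 : ℝ) ^ (-(α - 1)) ≤ 2 ^ (1 : ℝ) :=
          Real.rpow_le_rpow_of_exponent_le (by norm_num) (by linarith)
      _ = 2 := Real.rpow_one 2
  have hρα : (ρ / 2) ^ α ≤ ρ ^ α := by gcongr; linarith
  have h := T_sub_le (η := bump d) (g := g) (f0 := fm κ a ρ t) (f1 := fm κ a (ρ / 2) t)
    (bump d).contDiff (bump d).hasCompactSupport hg hg1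
    (fun i => hκ.contDiff_fm hρ hac t i) (fun i => hκ.contDiff_fm hρ2 hac t i) hN
    (fun _ => 2 * B * ρ ^ α) (fun _ => 2 * B * ρ ^ (α - 1)) ?_ ?_ ?_
  · rw [setLIntegral_const, volume_tsupport_bump, mul_one, ← ENNReal.ofReal_mul (by positivity)] at h
    rw [ENNReal.ofReal_le_ofReal_iff (by positivity)] at h
    refine h.trans (le_of_eq ?_)
    congr 1
    have h1 : (ρ ^ (α - 1)) ^ (d - 1) = ρ ^ ((α - 1) * (d - 1 : ℝ)) := by
      rw [← Real.rpow_natCast, ← Real.rpow_mul hρ.le, Nat.cast_sub hd, Nat.cast_one]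
    have h2 : ρ ^ α * ρ ^ ((α - 1) * (d - 1 : ℝ)) = ρ ^ (α * d - d + 1) := by
      rw [← Real.rpow_add hρ]; congr 1; ring
    have h3 : (2 * B) ^ d = (2 * B) * (2 * B) ^ (d - 1) := by
      rw [← pow_succ']; congr 1; omega
    rw [mul_pow, h1, h3, ← h2]
    ring
  · intro v _ j
    have h1 := fm_sub_le hκ ha hH hM hα hρ t j v
    have h2 := fm_sub_le hκ ha hH hM hα hρ2 t j v
    have h3 : |fm κ a (ρ / 2) t j v - fm κ a ρ t j v| ≤
        |fm κ a (ρ / 2) t j v - (a v + t • v) j| + |fm κ a ρ t j v - (a v + t • v) j| := by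
      have := abs_sub (fm κ a (ρ / 2) t j v - (a v + t • v) j) (fm κ a ρ t j v - (a v + t • v) j)
      rwa [sub_sub_sub_cancel_right] at this
    have h4 : M * (2 ^ d * H) ≤ B := by linarith
    calc |fm κ a (ρ / 2) t j v - fm κ a ρ t j v|
        ≤ M * (2 ^ d * H) * (ρ / 2) ^ α + M * (2 ^ d * H) * ρ ^ α := h3.trans (add_le_add h2 h1)
      _ ≤ B * ρ ^ α + B * ρ ^ α := by gcongr
      _ = 2 * B * ρ ^ α := by ring
  · intro v _ i j
    refine (pd_fm_le hκ ha hH hM hα hα1 hρ hρ1 ht i j v).trans ?_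
    have : 0 ≤ ρ ^ (α - 1) := by positivity
    nlinarith
  · intro v _ i j
    refine (pd_fm_le hκ ha hH hM hα hα1 hρ2 (by linarith) ht i j v).trans ?_
    calc B * (ρ / 2) ^ (α - 1) ≤ B * (2 * ρ ^ (α - 1)) := by gcongr
      _ = _ := by ring

theorem T_tail (hd : 1 ≤ d) (hκ : IsKernel κ M) (ha : Hol a H α) (hH : 0 ≤ H) (hM : 0 ≤ M)
    (hα : 0 < α) (hα1 : α ≤ 1) (hγ : 0 < α * d - d + 1)
    {N : ℝ} (hN : ∀ v i, |pd (bump d) i v| ≤ N)
    {g : (Fin d → ℝ) → ℝ} (hg : ContDiff ℝ 1 g) (hg1 : ∀ y, |g y| ≤ 1)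
    {ρ : ℝ} (hρ : 0 < ρ) (hρ1 : ρ ≤ 1) {t : ℝ} (ht : |t| ≤ 1) (n : ℕ) :
    |T (bump d) g (fm κ a (sc ρ n) t) - T (bump d) g (fm κ a ρ t)| ≤
      d * (d.factorial * N) * ((2 * (M * (2 ^ d * H) + 1)) ^ d * ρ ^ (α * d - d + 1)) *
        (1 - (1 / 2 : ℝ) ^ (α * d - d + 1))⁻¹ := by
  set B := M * (2 ^ d * H) + 1 with hB
  set γ := α * d - d + 1 with hγdef
  have hB1 : 1 ≤ B := by
    have : 0 ≤ M * (2 ^ d * H) := by positivity
    linarith
  have hN0 : 0 ≤ N := (abs_nonneg _).trans (hN 0 ⟨0, hd⟩)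
  set c := (d : ℝ) * (d.factorial * N) * (2 * B) ^ d with hc
  have hc0 : 0 ≤ c := by positivity
  have hr0 : 0 ≤ (1 / 2 : ℝ) ^ γ := by positivity
  have hr1 : (1 / 2 : ℝ) ^ γ < 1 := Real.rpow_lt_one (by norm_num) (by norm_num) hγ
  have hind : ∀ n, |T (bump d) g (fm κ a (sc ρ n) t) - T (bump d) g (fm κ a ρ t)| ≤
      ∑ k ∈ Finset.range n, c * ρ ^ γ * ((1 / 2 : ℝ) ^ γ) ^ k := by
    intro n
    induction n with
    | zero => simp [sc]
    | succ n ih =>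
      rw [Finset.sum_range_succ]
      have hρn := sc_pos hρ n
      have hρn1 : sc ρ n ≤ 1 := by
        have := sc_anti hρ (Nat.zero_le n)
        have h2 : sc ρ 0 = ρ := by simp [sc]
        linarith
      have h1 := T_step hd hκ ha hH hM hα hα1 hN hg hg1 hρn hρn1 ht
      rw [← sc_succ] at h1
      have h2 : (sc ρ n) ^ γ = ρ ^ γ * ((1 / 2 : ℝ) ^ γ) ^ n := by
        unfold sc
        rw [Real.mul_rpow hρ.le (by positivity), ← Real.rpow_natCast, ← Real.rpow_natCast,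
          ← Real.rpow_mul (by norm_num), ← Real.rpow_mul (by norm_num), mul_comm γ]
      have h3 : d * (d.factorial * N) * ((2 * B) ^ d * (sc ρ n) ^ γ) =
          c * ρ ^ γ * ((1 / 2 : ℝ) ^ γ) ^ n := by
        rw [h2, hc]; ring
      rw [h3] at h1
      have h4 := abs_add_le (T (bump d) g (fm κ a (sc ρ n) t) - T (bump d) g (fm κ a ρ t))
        (T (bump d) g (fm κ a (sc ρ (n + 1)) t) - T (bump d) g (fm κ a (sc ρ n) t))
      have h5 : T (bump d) g (fm κ a (sc ρ n) t) - T (bump d) g (fm κ a ρ t) +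
        (T (bump d) g (fm κ a (sc ρ (n + 1)) t) - T (bump d) g (fm κ a (sc ρ n) t)) =
        T (bump d) g (fm κ a (sc ρ (n + 1)) t) - T (bump d) g (fm κ a ρ t) := by ring
      rw [h5] at h4
      linarith
  refine (hind n).trans ?_
  rw [← Finset.mul_sum]
  have h6 : ∑ k ∈ Finset.range n, ((1 / 2 : ℝ) ^ γ) ^ k ≤ (1 - (1 / 2 : ℝ) ^ γ)⁻¹ := by
    rw [← tsum_geometric_of_lt_one hr0 hr1]
    exact (summable_geometric_of_lt_one hr0 hr1).sum_le_tsum _ (fun _ _ => by positivity)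
  calc c * ρ ^ γ * ∑ k ∈ Finset.range n, ((1 / 2 : ℝ) ^ γ) ^ k
      ≤ c * ρ ^ γ * (1 - (1 / 2 : ℝ) ^ γ)⁻¹ := by gcongr
    _ = _ := by rw [hc]; ring

theorem T_iso (hd : 2 ≤ d) (hκ : IsKernel κ M) (ha : Hol a H α) (hH : 0 ≤ H) (hM : 0 ≤ M)
    (hα : 0 < α) (hα1 : α ≤ 1)
    {N : ℝ} (hN : ∀ v i, |pd (bump d) i v| ≤ N)
    {g : (Fin d → ℝ) → ℝ} (hg : ContDiff ℝ 1 g) (hgc : HasCompactSupport g)
    (hg1 : ∀ y, |g y| ≤ 1) {R : ℝ} (hR : 0 < R) (hgR : ∫⁻ x, ‖g x‖ₑ ≤ ENNReal.ofReal (R ^ d))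
    {ρ : ℝ} (hρ : 0 < ρ) (hρ1 : ρ ≤ 1) {t : ℝ} (ht : |t| ≤ 1) :
    |T (bump d) g (fm κ a ρ t)| ≤ 2 * R * (d * (d.factorial *
      (N * ((M * (2 ^ d * H) + 1) * ρ ^ (α - 1)) ^ (d - 1)))) := by
  have hac := ha.continuous hα
  have hN0 : 0 ≤ N := (abs_nonneg _).trans (hN 0 ⟨0, by omega⟩)
  have h1 := iso_smooth hd (η := bump d) (g := g) (F := fm κ a ρ t) (bump d).contDiff
    (bump d).hasCompactSupport hg hgc hg1 (fun i => hκ.contDiff_fm hρ hac t i) hR hgR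
  have h2 := lintegral_BD_le (η := bump d) (F := fm κ a ρ t) (bump d).hasCompactSupport hN
    (m := (M * (2 ^ d * H) + 1) * ρ ^ (α - 1))
    (fun v _ i j => pd_fm_le hκ ha hH hM hα hα1 hρ hρ1 ht i j v)
  rw [volume_tsupport_bump, mul_one] at h2
  have h3 := h1.trans (mul_le_mul_right h2 _)
  rw [← ENNReal.ofReal_mul (by positivity), ← ofReal_norm, Real.norm_eq_abs,
    ENNReal.ofReal_le_ofReal_iff (by positivity)] at h3
  exact h3

end hoelder

end Pool.Agent.W769.Iso
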