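import Pool.Agent.W769.Iso.Euclid

set_option autoImplicit false
set_option maxHeartbeats 4000000

open MeasureTheory Set Finset Topology Filter
open scoped ENNReal InnerProductSpace

namespace Pool.Agent.W769.Iso

variable {d : ℕ}

theorem arith {c r r' L : ℝ} (hd1 : (1 : ℝ) ≤ d) (hc : 0 < c) (hr : 0 < r) (hL : 0 ≤ L)
    (hr'low : 1 / 100 * r / (1 + L) ≤ r') :
    c * (1 / (200 * (d : ℝ))) ^ d * ((3 * (d : ℝ)) ^ d)⁻¹ * ((10 * (d : ℝ)) ^ (d * d))⁻¹ *
      (4 ^ (d + 1))⁻¹ * r ^ d * ((1 + L) ^ ((d + 1) * d))⁻¹ ≤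
      (4 ^ (d + 1))⁻¹ * (c * (r' / (2 * d)) ^ d * ((3 * (d : ℝ)) ^ d)⁻¹ *
        ((1 + (10 * d * L + 1)) ^ (d * d))⁻¹) := by
  have hd0 : (0 : ℝ) < d := by linarith
  have hL1 : 0 < 1 + L := by linarith
  have hr'0 : 0 < r' := lt_of_lt_of_le (by positivity) hr'low
  have h2 : (1 / (200 * (d : ℝ)) * r / (1 + L)) ^ d ≤ (r' / (2 * d)) ^ d := by
    apply pow_le_pow_left₀ (by positivity)
    calc 1 / (200 * (d : ℝ)) * r / (1 + L) = (1 / 100 * r / (1 + L)) / (2 * d) := by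
          field_simp
          norm_num
      _ ≤ r' / (2 * d) := by gcongr
  have h3 : (1 + (10 * d * L + 1)) ^ (d * d) ≤ (10 * (d : ℝ) * (1 + L)) ^ (d * d) := by
    apply pow_le_pow_left₀ (by positivity)
    nlinarith
  have h4 : (1 + L) ^ ((d + 1) * d) = (1 + L) ^ (d * d) * (1 + L) ^ d := by
    rw [← pow_add]; congr 1; ring
  have h5 : (1 / (200 * (d : ℝ)) * r / (1 + L)) ^ d =
      (1 / (200 * (d : ℝ))) ^ d * r ^ d * ((1 + L) ^ d)⁻¹ := by
    rw [div_pow, mul_pow, div_eq_mul_inv]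
  calc c * (1 / (200 * (d : ℝ))) ^ d * ((3 * (d : ℝ)) ^ d)⁻¹ * ((10 * (d : ℝ)) ^ (d * d))⁻¹ *
      (4 ^ (d + 1))⁻¹ * r ^ d * ((1 + L) ^ ((d + 1) * d))⁻¹
      = (4 ^ (d + 1))⁻¹ * (c * (1 / (200 * (d : ℝ)) * r / (1 + L)) ^ d * ((3 * (d : ℝ)) ^ d)⁻¹ *
        ((10 * (d : ℝ) * (1 + L)) ^ (d * d))⁻¹) := by
        rw [h4, h5, mul_pow (10 * (d : ℝ)) (1 + L) (d * d), mul_inv, mul_inv]
        ring
    _ ≤ _ := by gcongr

/-- the case of thin tubes -/
theorem union_thin (hd : 2 ≤ d) : ∃ c : ℝ, 0 < c ∧ ∀ (ι : Type) [Fintype ι]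
    (e a : ι → Eu d) (e₀ : Eu d) (r δ L : ℝ), 0 < r → r ≤ 1 → 0 < δ → 0 ≤ L →
    δ ≤ 1 / 100 / (1 + L) → ‖e₀‖ = 1 → (∀ i, ‖e i‖ = 1) →
    (∀ ω : Eu d, ‖ω‖ = 1 → ‖ω - e₀‖ ≤ r → ∃ i, ‖ω - e i‖ ≤ δ) →
    (∀ i j, ‖a i - a j‖ ≤ L * (‖e i - e j‖ + δ)) →
    ENNReal.ofReal (c * r ^ d * ((1 + L) ^ ((d + 1) * d))⁻¹) ≤
      volume (⋃ i, tube δ (e i) (a i)) := by
  obtain ⟨c, hc, hmain⟩ := graph_tubes hd
  have hd0 : (0 : ℝ) < d := by exact_mod_cast (show 0 < d by omega)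
  have hd1 : (1 : ℝ) ≤ d := by exact_mod_cast (show 1 ≤ d by omega)
  refine ⟨c * (1 / (200 * (d : ℝ))) ^ d * ((3 * (d : ℝ)) ^ d)⁻¹ * ((10 * (d : ℝ)) ^ (d * d))⁻¹ *
    (4 ^ (d + 1))⁻¹, by positivity, ?_⟩
  intro ι _ e a e₀ r δ L hr hr1 hδ hL hδL he₀ he hnet hlip
  have hL1 : 0 < 1 + L := by linarith
  have hδ100 : δ ≤ 1 / 100 := by
    refine hδL.trans ?_
    rw [div_le_iff₀ hL1]
    nlinarith
  obtain ⟨A, hA⟩ := exists_rot e₀ he₀
  obtain ⟨i₀, hi₀⟩ := hnet e₀ he₀ (by rw [sub_self, norm_zero]; exact hr.le)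
  set r' : ℝ := min r (1 / 100 / (1 + L)) with hr'
  have hr'p : 0 < r' := lt_min hr (by positivity)
  have hr'r : r' ≤ r := min_le_left _ _
  have hr'L : r' ≤ 1 / 100 / (1 + L) := min_le_right _ _
  have hr'100 : r' ≤ 1 / 100 := by
    refine hr'L.trans ?_
    rw [div_le_iff₀ hL1]
    nlinarith
  set c0 := a i₀ with hc0
  set I' := {i : ι // ‖e i - e₀‖ ≤ r' + δ} with hI'
  have hfin : Fintype I' := Fintype.ofFinite _
  -- coordinates
  set x : ι → Eu d := fun i => A (e i) with hx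
  set v : ι → Fin d → ℝ := fun i j => x i j.succ / x i 0 with hv
  set h : ι → ℝ := fun i => A (a i - c0) 0 with hh
  set p : ι → Fin d → ℝ := fun i j => A (a i - c0) j.succ with hp
  set q : ι → Fin d → ℝ := fun i => (4 : ℝ) • p i - (1 / 2 + 4 * h i) • v i with hq
  have hxn : ∀ i, ‖x i - mk 1 0‖ = ‖e i - e₀‖ := by
    intro i
    rw [hx, ← hA]
    simp only
    rw [← map_sub, A.norm_map]
  have hx0 : ∀ i : I', 49 / 50 ≤ x i.1 0 := by
    intro i
    have h1 := coord_le (x i.1 - mk 1 0) 0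
    rw [hxn] at h1
    have h2 := i.2
    simp only [PiLp.sub_apply, mk_zero] at h1
    rw [abs_le] at h1
    linarith [h1.1]
  have hxj : ∀ (i : I') (j : Fin d), |x i.1 j.succ| ≤ 1 / 50 := by
    intro i j
    have h1 := coord_le (x i.1 - mk 1 0) j.succ
    rw [hxn] at h1
    have h2 := i.2
    simp only [PiLp.sub_apply, mk_succ, Pi.zero_apply, sub_zero] at h1
    linarith
  have hvj : ∀ (i : I') (j : Fin d), |v i.1 j| ≤ 1 / 49 := by
    intro i j
    have h0 := hx0 i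
    have hp0 : 0 < x i.1 0 := by linarith
    rw [hv]
    simp only
    rw [abs_div, abs_of_pos hp0, div_le_iff₀ hp0]
    have := hxj i j
    linarith
  have hAe : ∀ i : I', A (e i.1) = x i.1 0 • mk 1 (v i.1) := by
    intro i
    have h0 := hx0 i
    have hp0 : x i.1 0 ≠ 0 := by linarith
    ext k
    refine Fin.cases ?_ (fun j => ?_) k
    · simp [hx]
    · simp only [PiLp.smul_apply, mk_succ, smul_eq_mul, hv]
      rw [mul_div_cancel₀ _ hp0]
  have hAa : ∀ i, A (a i - c0) = mk (h i) (p i) := by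
    intro i
    ext k
    refine Fin.cases ?_ (fun j => ?_) k
    · simp [hh]
    · simp [hp]
  have hac : ∀ i : I', ‖a i.1 - c0‖ ≤ 1 / 25 := by
    intro i
    have h1 := hlip i.1 i₀
    have h2 : ‖e i.1 - e i₀‖ ≤ r' + δ + δ := by
      have h3 : e i.1 - e i₀ = (e i.1 - e₀) + (e₀ - e i₀) := by abel
      rw [h3]
      exact (norm_add_le _ _).trans (add_le_add i.2 hi₀)
    have h4 : ‖a i.1 - c0‖ ≤ L * (4 * (1 / 100 / (1 + L))) := by
      refine h1.trans ?_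
      apply mul_le_mul_of_nonneg_left _ hL
      linarith
    refine h4.trans ?_
    have h5 : L * (4 * (1 / 100 / (1 + L))) = 1 / 25 * (L / (1 + L)) := by ring
    rw [h5]
    have h6 : L / (1 + L) ≤ 1 := by rw [div_le_one hL1]; linarith
    linarith
  have hhi : ∀ i : I', |h i.1| ≤ 1 / 25 := by
    intro i
    have h1 := coord_le (A (a i.1 - c0)) 0
    rw [A.norm_map] at h1
    exact h1.trans (hac i)
  -- the graph family
  have hnet' : ∀ w ∈ Metric.closedBall (0 : Fin d → ℝ) (r' / (2 * d)),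
      ∃ i : I', ‖w - v i.1‖ ≤ (3 * d) * (δ / d) := by
    intro w hw
    rw [Metric.mem_closedBall, dist_zero_right] at hw
    set N := ‖mk 1 w‖ with hN
    have hN1 : 1 ≤ N := one_le_norm_mk w
    have hNp : 0 < N := by linarith
    have hmk : (mk 1 w : Eu d) = mk 1 0 + mk 0 w := by
      ext k
      refine Fin.cases ?_ (fun j => ?_) k
      · simp
      · simp
    have hw2 : ‖mk 0 w‖ ≤ r' / 2 := by
      refine (norm_mk_zero_le w).trans ?_
      calc (d : ℝ) * ‖w‖ ≤ d * (r' / (2 * d)) := by gcongr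
        _ = r' / 2 := by field_simp
    have h10 : ‖(mk 1 0 : Eu d)‖ = 1 := by rw [← hA, A.norm_map, he₀]
    have hN2 : |1 - N| ≤ r' / 2 := by
      have h1 := abs_norm_sub_norm_le (mk 1 0 : Eu d) (mk 1 w)
      rw [h10] at h1
      have h2 : (mk 1 0 : Eu d) - mk 1 w = -mk 0 w := by rw [hmk]; abel
      rw [h2, norm_neg] at h1
      exact h1.trans hw2
    set ω : Eu d := A.symm (N⁻¹ • mk 1 w) with hω
    have hωn : ‖ω‖ = 1 := by
      rw [hω, A.symm.norm_map, norm_smul, norm_inv, Real.norm_of_nonneg hNp.le]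
      exact inv_mul_cancel₀ hNp.ne'
    have hωe : ‖ω - e₀‖ ≤ r := by
      have h1 : A (ω - e₀) = N⁻¹ • ((1 - N) • (mk 1 0 : Eu d) + mk 0 w) := by
        rw [map_sub, hA, hω, A.apply_symm_apply, hmk]
        rw [smul_add, smul_add, smul_smul, mul_sub, mul_one, inv_mul_cancel₀ hNp.ne', sub_smul,
          one_smul]
        abel
      rw [← A.norm_map, h1, norm_smul, norm_inv, Real.norm_of_nonneg hNp.le]
      have h2 : ‖(1 - N) • (mk 1 0 : Eu d) + mk 0 w‖ ≤ r' / 2 + r' / 2 := by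
        refine (norm_add_le _ _).trans (add_le_add ?_ hw2)
        rw [norm_smul, h10, mul_one, Real.norm_eq_abs]
        exact hN2
      have h3 : N⁻¹ ≤ 1 := inv_le_one_of_one_le₀ hN1
      have h4 : 0 ≤ ‖(1 - N) • (mk 1 0 : Eu d) + mk 0 w‖ := norm_nonneg _
      have h5 : 0 ≤ N⁻¹ := by positivity
      nlinarith
    have hωe' : ‖ω - e₀‖ ≤ r' := by
      have h1 : A (ω - e₀) = N⁻¹ • ((1 - N) • (mk 1 0 : Eu d) + mk 0 w) := by
        rw [map_sub, hA, hω, A.apply_symm_apply, hmk]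
        rw [smul_add, smul_add, smul_smul, mul_sub, mul_one, inv_mul_cancel₀ hNp.ne', sub_smul,
          one_smul]
        abel
      rw [← A.norm_map, h1, norm_smul, norm_inv, Real.norm_of_nonneg hNp.le]
      have h2 : ‖(1 - N) • (mk 1 0 : Eu d) + mk 0 w‖ ≤ r' / 2 + r' / 2 := by
        refine (norm_add_le _ _).trans (add_le_add ?_ hw2)
        rw [norm_smul, h10, mul_one, Real.norm_eq_abs]
        exact hN2
      have h3 : N⁻¹ ≤ 1 := inv_le_one_of_one_le₀ hN1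
      have h4 : 0 ≤ ‖(1 - N) • (mk 1 0 : Eu d) + mk 0 w‖ := norm_nonneg _
      have h5 : 0 ≤ N⁻¹ := by positivity
      nlinarith
    obtain ⟨i, hi⟩ := hnet ω hωn hωe
    have hiI : ‖e i - e₀‖ ≤ r' + δ := by
      have h3 : e i - e₀ = (ω - e₀) - (ω - e i) := by abel
      rw [h3]
      exact (norm_sub_le _ _).trans (add_le_add hωe' hi)
    refine ⟨⟨i, hiI⟩, ?_⟩
    have h0 := hx0 ⟨i, hiI⟩
    simp only at h0
    have hp0 : 0 < x i 0 := by linarith
    have hAω : ‖N⁻¹ • mk 1 w - x i‖ ≤ δ := by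
      have : N⁻¹ • mk 1 w - x i = A (ω - e i) := by
        rw [map_sub, hω, A.apply_symm_apply]
      rw [this, A.norm_map]
      exact hi
    have hc1 : |N⁻¹ - x i 0| ≤ δ := by
      have := (coord_le (N⁻¹ • mk 1 w - x i) 0).trans hAω
      simpa using this
    have hRHS : (3 * (d : ℝ)) * (δ / d) = 3 * δ := by field_simp
    rw [hRHS, pi_norm_le_iff_of_nonneg (by positivity)]
    intro j
    have hc2 : |N⁻¹ * w j - x i j.succ| ≤ δ := by
      have := (coord_le (N⁻¹ • mk 1 w - x i) j.succ).trans hAω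
      simpa using this
    have hwj : |w j| ≤ 1 := by
      have h1 := norm_le_pi_norm w j
      rw [Real.norm_eq_abs] at h1
      have h2 : r' / (2 * d) ≤ 1 := by
        rw [div_le_one (by positivity)]
        nlinarith
      linarith
    have h3 : (w - v i) j = ((x i 0 - N⁻¹) * w j + (N⁻¹ * w j - x i j.succ)) / x i 0 := by
      simp only [Pi.sub_apply, hv]
      field_simp
      ring
    rw [h3, Real.norm_eq_abs, abs_div, abs_of_pos hp0, div_le_iff₀ hp0]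
    have h4 : |(x i 0 - N⁻¹) * w j| ≤ δ := by
      rw [abs_mul, abs_sub_comm]
      have := abs_nonneg (w j)
      nlinarith [abs_nonneg (N⁻¹ - x i 0)]
    have h5 := abs_add_le ((x i 0 - N⁻¹) * w j) (N⁻¹ * w j - x i j.succ)
    nlinarith
  have hcoarse : ∀ i j : I', ‖q i.1 - q j.1‖ ≤
      (10 * d * L + 1) * (‖v i.1 - v j.1‖ + (3 * d) * (δ / d)) := by
    intro i j
    have hRHS : (3 * (d : ℝ)) * (δ / d) = 3 * δ := by field_simp
    rw [hRHS]
    set D := ‖a i.1 - a j.1‖ with hD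
    have hDA : ‖A (a i.1 - c0) - A (a j.1 - c0)‖ = D := by
      rw [← map_sub, A.norm_map, hD]
      congr 1
      abel
    have hDe : ‖e i.1 - e j.1‖ ≤ 2 * (d * ‖v i.1 - v j.1‖) := by
      have h1 := norm_unit_sub_le (x := x i.1) (y := x j.1) (hAe i) (hAe j)
        (by linarith [hx0 i]) (by linarith [hx0 j])
        (by rw [hx]; simp only; rw [A.norm_map, he]) (by rw [hx]; simp only; rw [A.norm_map, he])
        (one_le_norm_mk _)
      rw [mk_sub, sub_self] at h1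
      have h2 : ‖x i.1 - x j.1‖ = ‖e i.1 - e j.1‖ := by
        rw [hx]; simp only; rw [← map_sub, A.norm_map]
      rw [h2] at h1
      have h3 := norm_mk_zero_le (v i.1 - v j.1)
      linarith
    have hD2 : D ≤ L * (2 * (d * ‖v i.1 - v j.1‖) + δ) := by
      refine (hlip i.1 j.1).trans ?_
      gcongr
    rw [pi_norm_le_iff_of_nonneg (by positivity)]
    intro k
    have h1 : |p i.1 k - p j.1 k| ≤ D := by
      have := coord_le (A (a i.1 - c0) - A (a j.1 - c0)) k.succ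
      rw [hDA, PiLp.sub_apply] at this
      exact this
    have h2 : |h i.1 - h j.1| ≤ D := by
      have := coord_le (A (a i.1 - c0) - A (a j.1 - c0)) 0
      rw [hDA, PiLp.sub_apply] at this
      exact this
    have h3 : |v i.1 k - v j.1 k| ≤ ‖v i.1 - v j.1‖ := norm_le_pi_norm (v i.1 - v j.1) k
    have h4 : (q i.1 - q j.1) k = 4 * (p i.1 k - p j.1 k) -
        (1 / 2 + 4 * h i.1) * (v i.1 k - v j.1 k) - 4 * (h i.1 - h j.1) * v j.1 k := by
      simp only [hq, Pi.sub_apply, Pi.smul_apply, smul_eq_mul]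
      ring
    rw [h4, Real.norm_eq_abs]
    have h5 : |(1 / 2 + 4 * h i.1) * (v i.1 k - v j.1 k)| ≤ ‖v i.1 - v j.1‖ := by
      rw [abs_mul]
      have h6 : |1 / 2 + 4 * h i.1| ≤ 1 := by
        have := hhi i
        rw [abs_le] at this ⊢
        constructor <;> linarith [this.1, this.2]
      have := abs_nonneg (v i.1 k - v j.1 k)
      nlinarith
    have h7 : |4 * (h i.1 - h j.1) * v j.1 k| ≤ D := by
      rw [abs_mul, abs_mul, abs_of_pos (by norm_num : (0:ℝ) < 4)]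
      have h8 := hvj j k
      have h9 := abs_nonneg (v j.1 k)
      have h10 := abs_nonneg (h i.1 - h j.1)
      nlinarith
    have h8 : |4 * (p i.1 k - p j.1 k)| ≤ 4 * D := by
      rw [abs_mul, abs_of_pos (by norm_num : (0:ℝ) < 4)]
      linarith
    have h9 := abs_sub (4 * (p i.1 k - p j.1 k) - (1 / 2 + 4 * h i.1) * (v i.1 k - v j.1 k))
      (4 * (h i.1 - h j.1) * v j.1 k)
    have h10 := abs_sub (4 * (p i.1 k - p j.1 k)) ((1 / 2 + 4 * h i.1) * (v i.1 k - v j.1 k))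
    have h11 : 5 * D ≤ 10 * d * L * (‖v i.1 - v j.1‖ + 3 * δ) := by
      have h12 : L * δ ≤ d * (L * δ) := by
        have : 0 ≤ L * δ := by positivity
        nlinarith
      have h13 : 0 ≤ L * δ := by positivity
      nlinarith
    have h14 : 0 ≤ ‖v i.1 - v j.1‖ := norm_nonneg _
    calc _ ≤ 4 * D + ‖v i.1 - v j.1‖ + D := by linarith
      _ ≤ 10 * d * L * (‖v i.1 - v j.1‖ + 3 * δ) + (‖v i.1 - v j.1‖ + 3 * δ) := by linarith
      _ = _ := by ring
  -- apply the graph theorem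
  have hgr := hmain I' 0 (r' / (2 * d)) (10 * d * L + 1) (3 * d) (δ / d) (fun i => v i.1)
    (fun i => q i.1) (by positivity) (by positivity) (by linarith) (by positivity) hnet' hcoarse
  have hsub : GT (δ / d) (fun i : I' => v i.1) (fun i : I' => q i.1) ⊆
      Psi A c0 ⁻¹' (⋃ i, tube δ (e i) (a i)) := by
    rintro z ⟨hz0, i, hz⟩
    refine Set.mem_iUnion.2 ⟨i.1, ?_⟩
    exact mem_tube A (he i.1) (by omega) hδ (by linarith) (hx0 i) (hAe i) (hAa i.1) (hhi i) rfl hz0 hz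
  have hmeas : MeasurableSet (⋃ i, tube δ (e i) (a i)) :=
    MeasurableSet.iUnion fun i => (isClosed_tube _ _ _).measurableSet
  have h1 := hgr.trans (measure_mono hsub)
  rw [volume_Psi A c0 hmeas] at h1
  -- arithmetic
  have hr'low : 1 / 100 * r / (1 + L) ≤ r' := by
    rw [hr']
    apply le_min
    · rw [div_le_iff₀ hL1]
      nlinarith
    · gcongr
      linarith
  have hineq := arith (d := d) hd1 hc hr hL hr'low
  calc ENNReal.ofReal (c * (1 / (200 * (d : ℝ))) ^ d * ((3 * (d : ℝ)) ^ d)⁻¹ * ((10 * (d : ℝ)) ^ (d * d))⁻¹ *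
      (4 ^ (d + 1))⁻¹ * r ^ d * ((1 + L) ^ ((d + 1) * d))⁻¹)
      ≤ ENNReal.ofReal ((4 ^ (d + 1))⁻¹ * (c * (r' / (2 * d)) ^ d * ((3 * (d : ℝ)) ^ d)⁻¹ *
        ((1 + (10 * d * L + 1)) ^ (d * d))⁻¹)) := ENNReal.ofReal_le_ofReal hineq
    _ = ENNReal.ofReal ((4 ^ (d + 1))⁻¹) * ENNReal.ofReal (c * (r' / (2 * d)) ^ d *
        ((3 * (d : ℝ)) ^ d)⁻¹ * ((1 + (10 * d * L + 1)) ^ (d * d))⁻¹) :=
        ENNReal.ofReal_mul (by positivity)
    _ ≤ ENNReal.ofReal ((4 ^ (d + 1))⁻¹) * (ENNReal.ofReal (4 ^ (d + 1)) *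
        volume (⋃ i, tube δ (e i) (a i))) := by gcongr
    _ = volume (⋃ i, tube δ (e i) (a i)) := by
        rw [← mul_assoc, ← ENNReal.ofReal_mul (by positivity), inv_mul_cancel₀ (by positivity),
          ENNReal.ofReal_one, one_mul]

/-- **Union of tubes with coarsely Lipschitz positions.** -/
theorem union_tubes (hd : 2 ≤ d) : ∃ c : ℝ, 0 < c ∧ ∀ (ι : Type) [Fintype ι]
    (e a : ι → Eu d) (e₀ : Eu d) (r δ L : ℝ), 0 < r → r ≤ 1 → 0 < δ → δ < 1 → 0 ≤ L →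
    ‖e₀‖ = 1 → (∀ i, ‖e i‖ = 1) →
    (∀ ω : Eu d, ‖ω‖ = 1 → ‖ω - e₀‖ ≤ r → ∃ i, ‖ω - e i‖ ≤ δ) →
    (∀ i j, ‖a i - a j‖ ≤ L * (‖e i - e j‖ + δ)) →
    ENNReal.ofReal (c * r ^ d * ((1 + L) ^ ((d + 1) * d))⁻¹) ≤
      volume (⋃ i, tube δ (e i) (a i)) := by
  obtain ⟨c, hc, hmain⟩ := union_thin hd
  set g : ℝ := √Real.pi ^ (d + 1) / Real.Gamma (((d + 1 : ℕ) : ℝ) / 2 + 1) with hg
  have hgp : 0 < g := by
    apply div_pos
    · have := Real.pi_pos
      positivity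
    · apply Real.Gamma_pos_of_pos
      positivity
  set c' : ℝ := (1 / 200) ^ (d + 1) * g with hc'
  have hc'p : 0 < c' := by positivity
  refine ⟨min c c', lt_min hc hc'p, ?_⟩
  intro ι _ e a e₀ r δ L hr hr1 hδ hδ1 hL he₀ he hnet hlip
  have hL1 : 0 < 1 + L := by linarith
  rcases le_or_gt δ (1 / 100 / (1 + L)) with h | h
  · refine le_trans ?_ (hmain ι e a e₀ r δ L hr hr1 hδ hL h he₀ he hnet hlip)
    apply ENNReal.ofReal_le_ofReal
    gcongr
    exact min_le_left _ _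
  · obtain ⟨i₀, -⟩ := hnet e₀ he₀ (by rw [sub_self, norm_zero]; exact hr.le)
    refine le_trans ?_ (measure_mono (Set.subset_iUnion (fun i => tube δ (e i) (a i)) i₀))
    refine le_trans ?_ (volume_tube_ge hδ hδ1 (he i₀))
    apply ENNReal.ofReal_le_ofReal
    rw [← hg]
    have h1 : r ^ d ≤ 1 := pow_le_one₀ hr.le hr1
    have h2 : ((1 + L) ^ ((d + 1) * d))⁻¹ ≤ ((1 + L) ^ (d + 1))⁻¹ := by
      gcongr
      · linarith
      · nlinarith
    have h3 : (1 / 200 / (1 + L)) ^ (d + 1) ≤ (δ / 2) ^ (d + 1) := by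
      apply pow_le_pow_left₀ (by positivity)
      have : 1 / 200 / (1 + L) = (1 / 100 / (1 + L)) / 2 := by ring
      rw [this]
      linarith
    calc min c c' * r ^ d * ((1 + L) ^ ((d + 1) * d))⁻¹
        ≤ c' * 1 * ((1 + L) ^ (d + 1))⁻¹ := by
          gcongr
          exact min_le_right _ _
      _ = (1 / 200 / (1 + L)) ^ (d + 1) * g := by
          rw [hc', div_pow (1 / 200) (1 + L)]
          ring
      _ ≤ (δ / 2) ^ (d + 1) * g := by gcongr

end Pool.Agent.W769.Iso
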