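import Pool.Agent.W769.Iso.Quant
import Pool.Agent.W769.Kak.Wrap

set_option autoImplicit false

open MeasureTheory Set Finset Topology Filter
open scoped ENNReal

namespace Pool.Agent.W769.Iso

open Pool.Agent.W769.Kak

variable {d : ℕ}

/-- choice of `d + 1` equally spaced good heights -/
theorem exists_heights (d : ℕ) {S : ℝ → ℝ≥0∞} (hS : Measurable S) {X : ℝ≥0∞}
    (hX : ∫⁻ t in Icc (0 : ℝ) 1, S t < X) :
    ∃ s ∈ Ioo (0 : ℝ) (1 / ((d : ℝ) + 1)), ∀ i : Fin (d + 1),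
      S ((i : ℝ) * (1 / ((d : ℝ) + 1)) + s) < ((d : ℝ≥0∞) + 1) * X := by
  set h : ℝ := 1 / ((d : ℝ) + 1) with hh
  have hh0 : 0 < h := by positivity
  by_contra hcon
  push Not at hcon
  apply absurd hX
  rw [not_lt]
  have h1 : ∀ s ∈ Ioo (0 : ℝ) h, ((d : ℝ≥0∞) + 1) * X ≤ ∑ i : Fin (d + 1), S ((i : ℝ) * h + s) := by
    intro s hs
    obtain ⟨i, hi⟩ := hcon s hs
    exact hi.trans (Finset.single_le_sum (f := fun i : Fin (d + 1) => S ((i : ℝ) * h + s))
      (fun _ _ => zero_le) (Finset.mem_univ i))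
  have h2 : ∀ i : Fin (d + 1), ∫⁻ s in Ioo (0 : ℝ) h, S ((i : ℝ) * h + s) =
      ∫⁻ t, (Ioo ((i : ℝ) * h) ((i : ℝ) * h + h)).indicator S t := by
    intro i
    rw [← lintegral_indicator measurableSet_Ioo,
      ← lintegral_add_left_eq_self ((Ioo ((i : ℝ) * h) ((i : ℝ) * h + h)).indicator S) ((i : ℝ) * h)]
    refine lintegral_congr fun s => ?_
    by_cases hs : s ∈ Ioo (0 : ℝ) h
    · rw [Set.indicator_of_mem hs, Set.indicator_of_mem]
      constructor
      · linarith [hs.1]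
      · linarith [hs.2]
    · rw [Set.indicator_of_notMem hs, Set.indicator_of_notMem]
      intro hs2
      apply hs
      constructor
      · linarith [hs2.1]
      · linarith [hs2.2]
  have h3 : ∀ t, ∑ i : Fin (d + 1), (Ioo ((i : ℝ) * h) ((i : ℝ) * h + h)).indicator S t ≤
      (Icc (0 : ℝ) 1).indicator S t := by
    intro t
    by_cases ht : ∃ i : Fin (d + 1), t ∈ Ioo ((i : ℝ) * h) ((i : ℝ) * h + h)
    · obtain ⟨i, hi⟩ := ht
      rw [Finset.sum_eq_single i]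
      · rw [Set.indicator_of_mem hi, Set.indicator_of_mem]
        constructor
        · have : 0 ≤ (i : ℝ) * h := by positivity
          linarith [hi.1]
        · have h4 : (i : ℝ) + 1 ≤ (d : ℝ) + 1 := by
            have := i.2
            have h5 : (i : ℕ) + 1 ≤ d + 1 := this
            exact_mod_cast h5
          have h6 : ((i : ℝ) + 1) * h ≤ ((d : ℝ) + 1) * h := by gcongr
          have h7 : ((d : ℝ) + 1) * h = 1 := by rw [hh]; field_simp
          linarith [hi.2]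
      · intro j _ hji
        apply Set.indicator_of_notMem
        intro hj
        rcases lt_or_gt_of_ne hji with hlt | hgt
        · have h4 : ((j : ℕ) : ℝ) + 1 ≤ ((i : ℕ) : ℝ) := by
            have : (j : ℕ) + 1 ≤ (i : ℕ) := hlt
            exact_mod_cast this
          have h6 : (((j : ℕ) : ℝ) + 1) * h ≤ ((i : ℕ) : ℝ) * h := by gcongr
          linarith [hj.2, hi.1]
        · have h4 : ((i : ℕ) : ℝ) + 1 ≤ ((j : ℕ) : ℝ) := by
            have : (i : ℕ) + 1 ≤ (j : ℕ) := hgt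
            exact_mod_cast this
          have h6 : (((i : ℕ) : ℝ) + 1) * h ≤ ((j : ℕ) : ℝ) * h := by gcongr
          linarith [hi.2, hj.1]
      · intro hi2
        exact absurd (Finset.mem_univ i) hi2
    · push Not at ht
      rw [Finset.sum_eq_zero]
      · exact zero_le
      · intro i _
        exact Set.indicator_of_notMem (ht i) _
  have hXd : X = ∫⁻ s in Ioo (0 : ℝ) h, ((d : ℝ≥0∞) + 1) * X := by
    rw [setLIntegral_const, Real.volume_Ioo, sub_zero, hh]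
    have h4 : ENNReal.ofReal (1 / ((d : ℝ) + 1)) = ((d : ℝ≥0∞) + 1)⁻¹ := by
      rw [one_div, ENNReal.ofReal_inv_of_pos (by positivity),
        ENNReal.ofReal_add (by positivity) zero_le_one, ENNReal.ofReal_natCast, ENNReal.ofReal_one]
    rw [h4, mul_comm ((d : ℝ≥0∞) + 1) X, mul_assoc, ENNReal.mul_inv_cancel, mul_one]
    · simp
    · exact ENNReal.add_ne_top.2 ⟨ENNReal.natCast_ne_top d, ENNReal.one_ne_top⟩
  calc X = ∫⁻ s in Ioo (0 : ℝ) h, ((d : ℝ≥0∞) + 1) * X := hXd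
    _ ≤ ∫⁻ s in Ioo (0 : ℝ) h, ∑ i : Fin (d + 1), S ((i : ℝ) * h + s) :=
        setLIntegral_mono' measurableSet_Ioo h1
    _ = ∑ i : Fin (d + 1), ∫⁻ s in Ioo (0 : ℝ) h, S ((i : ℝ) * h + s) := by
        rw [lintegral_finsetSum]
        intro i _
        exact hS.comp (measurable_const.add measurable_id)
    _ = ∑ i : Fin (d + 1), ∫⁻ t, (Ioo ((i : ℝ) * h) ((i : ℝ) * h + h)).indicator S t :=
        Finset.sum_congr rfl fun i _ => h2 i
    _ = ∫⁻ t, ∑ i : Fin (d + 1), (Ioo ((i : ℝ) * h) ((i : ℝ) * h + h)).indicator S t := by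
        rw [lintegral_finsetSum]
        intro i _
        exact hS.indicator measurableSet_Ioo
    _ ≤ ∫⁻ t, (Icc (0 : ℝ) 1).indicator S t := lintegral_mono h3
    _ = ∫⁻ t in Icc (0 : ℝ) 1, S t := lintegral_indicator measurableSet_Icc _

/-- spacing of the heights -/
theorem heights_spacing (d : ℕ) {s : ℝ} (hs : s ∈ Ioo (0 : ℝ) (1 / ((d : ℝ) + 1))) :
    (∀ i : Fin (d + 1), ((i : ℝ) * (1 / ((d : ℝ) + 1)) + s) ∈ Icc (0 : ℝ) 1) ∧
    (∀ i j : Fin (d + 1), i ≠ j → 1 / ((d : ℝ) + 1) ≤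
      |((i : ℝ) * (1 / ((d : ℝ) + 1)) + s) - ((j : ℝ) * (1 / ((d : ℝ) + 1)) + s)|) := by
  have hh0 : 0 < 1 / ((d : ℝ) + 1) := by positivity
  constructor
  · intro i
    constructor
    · have : 0 ≤ (i : ℝ) * (1 / ((d : ℝ) + 1)) := by positivity
      linarith [hs.1]
    · have h4 : (i : ℝ) + 1 ≤ (d : ℝ) + 1 := by
        have h5 : (i : ℕ) + 1 ≤ d + 1 := i.2
        exact_mod_cast h5
      have h6 : ((i : ℝ) + 1) * (1 / ((d : ℝ) + 1)) ≤ ((d : ℝ) + 1) * (1 / ((d : ℝ) + 1)) := by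
        gcongr
      have h7 : ((d : ℝ) + 1) * (1 / ((d : ℝ) + 1)) = 1 := by field_simp
      linarith [hs.2]
  · intro i j hij
    have h1 : ((i : ℝ) * (1 / ((d : ℝ) + 1)) + s) - ((j : ℝ) * (1 / ((d : ℝ) + 1)) + s) =
      ((i : ℝ) - (j : ℝ)) * (1 / ((d : ℝ) + 1)) := by ring
    rw [h1, abs_mul, abs_of_pos hh0]
    have h2 : (1 : ℝ) ≤ |((i : ℕ) : ℝ) - ((j : ℕ) : ℝ)| := by
      have h3 : ((i : ℕ) : ℤ) - ((j : ℕ) : ℤ) ≠ 0 := by
        intro h
        apply hij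
        apply Fin.ext
        omega
      have h4 : (1 : ℤ) ≤ |((i : ℕ) : ℤ) - ((j : ℕ) : ℤ)| := Int.one_le_abs h3
      exact_mod_cast h4
    nlinarith

/-- slicing in `Fin (d + 1) → ℝ` -/
theorem volume_eq_slices {Z : Set (Fin (d + 1) → ℝ)} (hZ : MeasurableSet Z) :
    Measurable (fun t : ℝ => volume {y : Fin d → ℝ | (Fin.cons t y : Fin (d + 1) → ℝ) ∈ Z}) ∧
    volume Z = ∫⁻ t : ℝ, volume {y : Fin d → ℝ | (Fin.cons t y : Fin (d + 1) → ℝ) ∈ Z} := by
  have hmp := volume_preserving_piFinSuccAbove (fun _ : Fin (d + 1) => ℝ) 0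
  set e := MeasurableEquiv.piFinSuccAbove (fun _ : Fin (d + 1) => ℝ) 0 with he
  have h1 : (volume : Measure (ℝ × (Fin d → ℝ))) (e.symm ⁻¹' Z) = volume Z := by
    rw [← hmp.measure_preimage_equiv]
    rw [← preimage_comp]
    simp
  have hZ' : MeasurableSet (e.symm ⁻¹' Z) := e.symm.measurable hZ
  have h5 : ∀ t : ℝ, {y : Fin d → ℝ | (Fin.cons t y : Fin (d + 1) → ℝ) ∈ Z} =
        Prod.mk t ⁻¹' (e.symm ⁻¹' Z) := by
    intro t
    ext y
    have : e.symm (t, y) = (Fin.cons t y : Fin (d + 1) → ℝ) := by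
      rw [he]
      exact Fin.insertNth_zero' t y
    rw [Set.mem_preimage, Set.mem_preimage, this]
    rfl
  simp_rw [h5]
  refine ⟨measurable_measure_prodMk_left hZ', ?_⟩
  rw [← h1]
  exact Measure.prod_apply hZ'

/-- **Volume, unit cube, globally Hölder**. -/
theorem volume_quant (hd : 2 ≤ d) {α : ℝ} (hα1 : α ≤ 1) (hγ : 0 < α * d - d + 1) :
    ∃ c : ℝ, 0 < c ∧ ∀ (H : ℝ) (a : (Fin d → ℝ) → Fin d → ℝ), 0 ≤ H → Hol a H α →
      ∀ Z : Set (Fin (d + 1) → ℝ), (∀ v ∈ Metric.closedBall (0 : Fin d → ℝ) 1, ∀ t ∈ Icc (0 : ℝ) 1,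
        (Fin.cons t (a v + t • v) : Fin (d + 1) → ℝ) ∈ Z) →
        ENNReal.ofReal (c * (1 + H) ^ (-((d : ℝ) * ((d : ℝ) - 1)) / (α * d - d + 1))) ≤
          volume Z := by
  obtain ⟨c, hc, hmain⟩ := slices_quant hd hα1 hγ
  have hd2 : (2 : ℝ) ≤ d := by exact_mod_cast hd
  have hα : 0 < α := by
    by_contra h
    push Not at h
    nlinarith
  refine ⟨(c / 2) ^ d / (d + 1), by positivity, ?_⟩
  intro H a hH ha Z hZ
  have hac := ha.continuous hα
  set Φ : ℝ × (Fin d → ℝ) → (Fin (d + 1) → ℝ) :=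
    fun p => Fin.cons p.1 (a p.2 + p.1 • p.2) with hΦ
  have hΦc : Continuous Φ := by
    rw [continuous_pi_iff]
    intro i
    refine Fin.cases ?_ (fun j => ?_) i
    · simp only [hΦ, Fin.cons_zero]
      exact continuous_fst
    · simp only [hΦ, Fin.cons_succ, Pi.add_apply, Pi.smul_apply, smul_eq_mul]
      fun_prop
  set K0 := Φ '' (Icc (0 : ℝ) 1 ×ˢ Metric.closedBall (0 : Fin d → ℝ) 1) with hK0
  have hK0c : IsCompact K0 := (isCompact_Icc.prod (isCompact_closedBall _ _)).image hΦc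
  have hsub : K0 ⊆ Z := by
    rintro _ ⟨p, hp, rfl⟩
    exact hZ p.2 hp.2 p.1 hp.1
  refine le_trans ?_ (measure_mono hsub)
  by_contra hcon
  rw [not_le] at hcon
  obtain ⟨hSm, hSv⟩ := volume_eq_slices hK0c.measurableSet
  set S : ℝ → ℝ≥0∞ := fun t => volume {y : Fin d → ℝ | (Fin.cons t y : Fin (d + 1) → ℝ) ∈ K0}
    with hS
  have hSlt : ∫⁻ t in Icc (0 : ℝ) 1, S t < ENNReal.ofReal ((c / 2) ^ d / (d + 1) *
      (1 + H) ^ (-((d : ℝ) * ((d : ℝ) - 1)) / (α * d - d + 1))) := by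
    refine lt_of_le_of_lt (setLIntegral_le_lintegral _ _) ?_
    rw [← hSv]
    exact hcon
  obtain ⟨s, hs, hsi⟩ := exists_heights d hSm hSlt
  obtain ⟨hI, hsp⟩ := heights_spacing d hs
  set R : ℝ := c / 2 * (1 + H) ^ (-((d : ℝ) - 1) / (α * d - d + 1)) with hR
  have hH1 : 0 < 1 + H := by linarith
  have hRp : 0 < R := by positivity
  have hRd : ((d : ℝ≥0∞) + 1) * ENNReal.ofReal ((c / 2) ^ d / (d + 1) *
      (1 + H) ^ (-((d : ℝ) * ((d : ℝ) - 1)) / (α * d - d + 1))) = ENNReal.ofReal (R ^ d) := by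
    have h1 : ((d : ℝ≥0∞) + 1) = ENNReal.ofReal ((d : ℝ) + 1) := by
      rw [ENNReal.ofReal_add (by positivity) zero_le_one, ENNReal.ofReal_natCast,
        ENNReal.ofReal_one]
    rw [h1, ← ENNReal.ofReal_mul (by positivity)]
    congr 1
    rw [hR, mul_pow, ← Real.rpow_natCast ((1 + H) ^ _), ← Real.rpow_mul hH1.le]
    have h2 : -((d : ℝ) - 1) / (α * d - d + 1) * (d : ℝ) =
      -((d : ℝ) * ((d : ℝ) - 1)) / (α * d - d + 1) := by ring
    rw [h2]
    field_simp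
  rw [hRd] at hsi
  have hfin := hmain H a hH ha (fun i : Fin (d + 1) => (i : ℝ) * (1 / ((d : ℝ) + 1)) + s)
    (fun i => by
      have := hI i
      rw [abs_le]
      constructor <;> linarith [this.1, this.2]) hsp R hRp (fun i => by
      refine lt_of_le_of_lt (measure_mono ?_) (hsi i)
      rintro _ ⟨v, hv, rfl⟩
      exact ⟨((i : ℝ) * (1 / ((d : ℝ) + 1)) + s, v), ⟨hI i, hv⟩, rfl⟩)
  have hpos : 0 < c * (1 + H) ^ (-((d : ℝ) - 1) / (α * d - d + 1)) := by positivity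
  have : R = (1 / 2) * (c * (1 + H) ^ (-((d : ℝ) - 1) / (α * d - d + 1))) := by rw [hR]; ring
  linarith

end Pool.Agent.W769.Iso
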